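import Mathlib

/-!
Definitions: tubes, the Kakeya maximal function, and the class of sets that are unions of level
sets of a convex doubling function.
-/

open MeasureTheory Set
open scoped ENNReal

namespace Pool.Agent.MP_5168f5_an.H20

/-- The closed tube of length `1` and radius `δ` with axis direction `e` and centre `a`. -/
def tube {n : ℕ} (e a : EuclideanSpace ℝ (Fin n)) (δ : ℝ) : Set (EuclideanSpace ℝ (Fin n)) :=
  {y | |inner ℝ (y - a) e| ≤ 1 / 2 ∧ ‖(y - a) - (inner ℝ (y - a) e) • e‖ ≤ δ}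

/-- The Kakeya maximal function: the supremum over centres `a` of the average of `|f|` over the
tube with direction `e` and centre `a`. -/
noncomputable def kakeyaMax {n : ℕ} (δ : ℝ) (f : EuclideanSpace ℝ (Fin n) → ℝ)
    (e : Metric.sphere (0 : EuclideanSpace ℝ (Fin n)) 1) : ℝ≥0∞ :=
  ⨆ a, (∫⁻ y in tube (e : EuclideanSpace ℝ (Fin n)) a δ, ‖f y‖ₑ)
    / volume (tube (e : EuclideanSpace ℝ (Fin n)) a δ)

/-- `φ` is convex, vanishes exactly at the origin, and is doubling with constant `κ`. -/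
def ConvexDoubling {V : Type*} [AddCommGroup V] [Module ℝ V] (κ : ℝ) (φ : V → ℝ) : Prop :=
  ConvexOn ℝ univ φ ∧ φ 0 = 0 ∧ (∀ x, x ≠ 0 → 0 < φ x) ∧ ∀ x, φ ((2 : ℝ) • x) ≤ κ * φ x

/-- Every superlevel set of `|f|` is contained in a set `{x | φ (x - x₀) ∈ A}` (with `φ` convex
and `κ`-doubling, `A` a Borel set of reals, all allowed to depend on the level) whose measure is at
most `κ` times the measure of the superlevel set. -/
def LevelRadial {V : Type*} [AddCommGroup V] [Module ℝ V] [MeasureSpace V] (κ : ℝ) (f : V → ℝ) :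
    Prop :=
  ∀ s : ℝ, 0 < s → ∃ (φ : V → ℝ) (x₀ : V) (A : Set ℝ), ConvexDoubling κ φ ∧ MeasurableSet A ∧
    {x | s ≤ |f x|} ⊆ {x | φ (x - x₀) ∈ A} ∧
    volume {x | φ (x - x₀) ∈ A} ≤ ENNReal.ofReal κ * volume {x | s ≤ |f x|}

end Pool.Agent.MP_5168f5_an.H20
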