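import Mathlib

/-!
From restricted weak type bounds for the superlevel sets to a strong type bound, with a loss that
is polynomial in the number of dyadic scales.
-/

open MeasureTheory Set Filter Topology
open scoped ENNReal

namespace Pool.Agent.MP_5168f5_an.H20

theorem add_pow_le' (x y : ℝ≥0∞) (d : ℕ) : (x + y) ^ d ≤ 2 ^ d * (x ^ d + y ^ d) := by
  rcases le_total x y with h | h
  · calc (x + y) ^ d ≤ (2 * y) ^ d := by rw [two_mul]; gcongr
      _ = 2 ^ d * y ^ d := mul_pow _ _ _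
      _ ≤ _ := by gcongr; exact le_add_self
  · calc (x + y) ^ d ≤ (2 * x) ^ d := by rw [two_mul]; gcongr
      _ = 2 ^ d * x ^ d := mul_pow _ _ _
      _ ≤ _ := by gcongr; exact le_self_add

theorem sum_pow_le' {ι : Type*} (S : Finset ι) (x : ι → ℝ≥0∞) {d : ℕ} (hd : d ≠ 0) :
    (∑ s ∈ S, x s) ^ d ≤ (S.card : ℝ≥0∞) ^ d * ∑ s ∈ S, x s ^ d := by
  rcases S.eq_empty_or_nonempty with rfl | hne
  · simp [hd]
  obtain ⟨z, hz, hmax⟩ := S.exists_max_image x hne
  calc (∑ s ∈ S, x s) ^ d ≤ ((S.card : ℝ≥0∞) * x z) ^ d := by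
        gcongr
        rw [← nsmul_eq_mul]
        exact Finset.sum_le_card_nsmul _ _ _ hmax
    _ = (S.card : ℝ≥0∞) ^ d * x z ^ d := mul_pow _ _ _
    _ ≤ _ := by
        gcongr
        exact Finset.single_le_sum (f := fun s => x s ^ d) (fun _ _ => zero_le) hz

theorem height_split (y a : ℝ≥0∞) (ha0 : a ≠ 0) (ha : a ≠ ∞) (M e : ℕ) :
    y ≤ a + ∑ k ∈ Finset.range M, (if 2 ^ k * a ≤ y then 2 ^ (k + 1) * a else 0)
      + (2 ^ M * a)⁻¹ ^ e * y ^ (e + 1) := by
  by_cases h1 : y < 2 ^ M * a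
  · have hex : ∃ k, y < 2 ^ k * a := ⟨M, h1⟩
    have hk := Nat.find_spec hex
    have hkM : Nat.find hex ≤ M := Nat.find_min' hex h1
    refine le_add_right ?_
    rcases hk0 : Nat.find hex with _ | k
    · rw [hk0] at hk
      simp only [pow_zero, one_mul] at hk
      exact le_add_right hk.le
    · have h2 : 2 ^ k * a ≤ y := not_lt.mp (Nat.find_min hex (by omega))
      rw [hk0] at hk
      refine le_add_left (le_trans ?_ (Finset.single_le_sum
        (f := fun k => if 2 ^ k * a ≤ y then 2 ^ (k + 1) * a else 0) (fun _ _ => zero_le)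
        (Finset.mem_range.2 (by omega : k < M))))
      simp only [h2, if_true]
      exact hk.le
  · refine le_add_left ?_
    have hb0 : 2 ^ M * a ≠ 0 := mul_ne_zero (pow_ne_zero _ two_ne_zero) ha0
    have hb : 2 ^ M * a ≠ ∞ := ENNReal.mul_ne_top (ENNReal.pow_ne_top ENNReal.ofNat_ne_top) ha
    have h2 : 1 ≤ (2 ^ M * a)⁻¹ * y := by
      rw [← ENNReal.inv_mul_cancel hb0 hb]
      gcongr
      exact not_lt.mp h1
    calc y = 1 * y := (one_mul _).symm
      _ ≤ ((2 ^ M * a)⁻¹ * y) ^ e * y := by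
          gcongr
          exact one_le_pow₀ h2
      _ = _ := by rw [mul_pow, pow_succ, mul_assoc]

theorem level_split (y : ℝ≥0∞) (hy : y ≤ 1) {k M : ℕ} (hk : k < M) :
    y ≤ 2⁻¹ ^ k + ∑ i ∈ Finset.range M, (if 2⁻¹ ^ i < y then 2 * 2⁻¹ ^ i else 0) := by
  by_cases h1 : 2⁻¹ ^ k < y
  · have hex : ∃ i, (2⁻¹ : ℝ≥0∞) ^ i < y := ⟨k, h1⟩
    have hi := Nat.find_spec hex
    have hik : Nat.find hex ≤ k := Nat.find_min' hex h1
    refine le_add_left (le_trans ?_ (Finset.single_le_sum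
        (f := fun i => if (2⁻¹ : ℝ≥0∞) ^ i < y then 2 * 2⁻¹ ^ i else 0) (fun _ _ => zero_le)
        (Finset.mem_range.2 (by omega : Nat.find hex < M))))
    simp only [hi, if_true]
    rcases hi0 : Nat.find hex with _ | i
    · simp only [pow_zero, mul_one]
      exact hy.trans one_le_two
    · have h2 : y ≤ 2⁻¹ ^ i := not_lt.mp (Nat.find_min hex (by omega))
      rw [pow_succ', ← mul_assoc, ENNReal.mul_inv_cancel two_ne_zero ENNReal.ofNat_ne_top, one_mul]
      exact h2
  · exact le_add_right (not_lt.mp h1)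

/-- The constant in the strong type bound. -/
noncomputable def levelConst (d m : ℕ) (c K b : ℝ≥0∞) : ℝ≥0∞ :=
  2 ^ d * ((1 + c + 4 * m) ^ d * b + (4 * m ^ 2) ^ (d + 1) * (4 ^ d * K)) + 1

theorem levels {X Y A : Type*} [MeasurableSpace X] [MeasurableSpace Y] (μ : Measure X)
    (ν : Measure Y) (ρ : A → Y → Measure X) (hprob : ∀ a v, ρ a v univ ≤ 1) {d m : ℕ} (hd : 2 ≤ d)
    (c K : ℝ≥0∞) (hρ : ∀ a v, ρ a v ≤ (c * 2 ^ (m * d)) • μ) {h : X → ℝ≥0∞} (hh : Measurable h)
    (hW : ∀ s : ℝ≥0∞, s ≠ 0 → s ≠ ∞ → ∀ i < 2 * m,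
      ν {v | ∃ a, 2⁻¹ ^ i < ρ a v {x | s ≤ h x}} ≤ K * (2 ^ i) ^ d * μ {x | s ≤ h x}) :
    ∃ G : Y → ℝ≥0∞, Measurable G ∧ (∀ a v, (∫⁻ x, h x ∂ρ a v) ^ d ≤ G v) ∧
      ∫⁻ v, G v ∂ν ≤ levelConst d m c K (ν univ) * ∫⁻ x, h x ^ d ∂μ := by
  classical
  have hd0 : d ≠ 0 := by omega
  set N := ∫⁻ x, h x ^ d ∂μ with hN
  by_cases hNt : N = ∞
  · refine ⟨fun _ => ∞, measurable_const, fun _ _ => le_top, ?_⟩
    rw [hNt, ENNReal.mul_top (by simp [levelConst])]
    exact le_top
  by_cases hN0 : N = 0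
  · refine ⟨fun _ => 0, measurable_const, fun a v => ?_, by simp⟩
    have h1 : ∀ᵐ x ∂μ, h x ^ d = 0 := (lintegral_eq_zero_iff (hh.pow_const d)).1 hN0
    have h2 : ρ a v ≪ μ := Measure.absolutelyContinuous_of_le_smul (hρ a v)
    have h3 : ∫⁻ x, h x ∂ρ a v = 0 := by
      rw [lintegral_eq_zero_iff hh]
      filter_upwards [h2.ae_le h1] with x hx
      exact (pow_eq_zero_iff hd0).1 hx
    simp [h3, hd0]
  set a0 : ℝ≥0∞ := N ^ ((d : ℝ)⁻¹) with ha0
  have ha0d : a0 ^ d = N := ENNReal.rpow_inv_natCast_pow hd0 N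
  have ha00 : a0 ≠ 0 := fun h => hN0 (by rw [← ha0d, h, zero_pow hd0])
  have ha0t : a0 ≠ ∞ := fun h => hNt (by rw [← ha0d, h, ENNReal.top_pow hd0])
  set E : ℕ → Set X := fun k => {x | 2 ^ k * a0 ≤ h x} with hE
  have hEm : ∀ k, MeasurableSet (E k) := fun k => measurableSet_le measurable_const hh
  set D : ℕ × ℕ → Set Y := fun q => toMeasurable ν {v | ∃ a, 2⁻¹ ^ q.2 < ρ a v (E q.1)} with hD
  have hDm : ∀ q, MeasurableSet (D q) := fun q => measurableSet_toMeasurable _ _
  set S : Finset (ℕ × ℕ) := Finset.range (2 * m) ×ˢ Finset.range (2 * m) with hS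
  set u : ℕ × ℕ → ℝ≥0∞ := fun q => 4 * (2 ^ q.1 * a0) * 2⁻¹ ^ q.2 with hu
  have hcard : (S.card : ℝ≥0∞) = 4 * m ^ 2 := by
    simp only [hS, Finset.card_product, Finset.card_range]
    push_cast
    ring
  refine ⟨fun v => 2 ^ d * (((1 + c + 4 * m) * a0) ^ d
    + (4 * m ^ 2) ^ d * ∑ q ∈ S, (D q).indicator (fun _ => u q ^ d) v), ?_, fun a v => ?_, ?_⟩
  · refine measurable_const.mul (measurable_const.add (measurable_const.mul ?_))
    exact Finset.measurable_sum _ fun q _ => measurable_const.indicator (hDm q)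
  · obtain ⟨e, rfl⟩ : ∃ e, d = e + 1 := ⟨d - 1, by omega⟩
    have h1 : ∫⁻ x, h x ∂ρ a v ≤ a0 + ∑ k ∈ Finset.range (2 * m), 2 ^ (k + 1) * a0 * ρ a v (E k)
        + (2 ^ (2 * m) * a0)⁻¹ ^ e * (c * 2 ^ (m * (e + 1)) * N) := by
      calc ∫⁻ x, h x ∂ρ a v ≤ ∫⁻ x, (a0 + ∑ k ∈ Finset.range (2 * m),
            (E k).indicator (fun _ => 2 ^ (k + 1) * a0) x
            + (2 ^ (2 * m) * a0)⁻¹ ^ e * h x ^ (e + 1)) ∂ρ a v := by
            refine lintegral_mono fun x => ?_
            have := height_split (h x) a0 ha00 ha0t (2 * m) e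
            simpa only [hE, indicator_apply, mem_ofPred_eq] using this
        _ = a0 * ρ a v univ + ∑ k ∈ Finset.range (2 * m), 2 ^ (k + 1) * a0 * ρ a v (E k)
            + (2 ^ (2 * m) * a0)⁻¹ ^ e * ∫⁻ x, h x ^ (e + 1) ∂ρ a v := by
            rw [lintegral_add_right _ ((hh.pow_const _).const_mul _),
              lintegral_add_left measurable_const, lintegral_const,
              lintegral_finsetSum _ (fun k _ => measurable_const.indicator (hEm k)),
              lintegral_const_mul _ (hh.pow_const _)]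
            simp_rw [lintegral_indicator_const (hEm _)]
        _ ≤ _ := by
            gcongr
            · exact mul_le_of_le_one_right' (hprob a v)
            · refine (lintegral_mono' (hρ a v) le_rfl).trans ?_
              rw [lintegral_smul_measure, smul_eq_mul]
    have h2 : (2 ^ (2 * m) * a0)⁻¹ ^ e * (c * 2 ^ (m * (e + 1)) * N) ≤ c * a0 := by
      have hb0 : (2 : ℝ≥0∞) ^ (2 * m) * a0 ≠ 0 := mul_ne_zero (pow_ne_zero _ two_ne_zero) ha00
      have hb : (2 : ℝ≥0∞) ^ (2 * m) * a0 ≠ ∞ :=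
        ENNReal.mul_ne_top (ENNReal.pow_ne_top ENNReal.ofNat_ne_top) ha0t
      have h3 : (2 : ℝ≥0∞) ^ (m * (e + 1)) ≤ (2 ^ (2 * m)) ^ e := by
        rw [← pow_mul]
        refine pow_le_pow_right₀ one_le_two ?_
        have : 1 ≤ e := by omega
        nlinarith
      calc (2 ^ (2 * m) * a0)⁻¹ ^ e * (c * 2 ^ (m * (e + 1)) * N)
          ≤ (2 ^ (2 * m) * a0)⁻¹ ^ e * (c * (2 ^ (2 * m)) ^ e * N) := by gcongr
        _ = ((2 ^ (2 * m) * a0)⁻¹ * (2 ^ (2 * m) * a0)) ^ e * (c * a0) := by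
            rw [← ha0d]; ring
        _ = c * a0 := by rw [ENNReal.inv_mul_cancel hb0 hb, one_pow, one_mul]
    have h3 : ∀ k ∈ Finset.range (2 * m), 2 ^ (k + 1) * a0 * ρ a v (E k)
        ≤ 2 * a0 + ∑ i ∈ Finset.range (2 * m), (D (k, i)).indicator (fun _ => u (k, i)) v := by
      intro k hk
      have h4 := level_split (ρ a v (E k)) ((measure_mono (subset_univ _)).trans (hprob a v))
        (Finset.mem_range.1 hk)
      refine (mul_le_mul_right h4 _).trans ?_
      rw [mul_add, Finset.mul_sum]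
      refine add_le_add (le_of_eq ?_) (Finset.sum_le_sum fun i _ => ?_)
      · have : (2 : ℝ≥0∞) ^ (k + 1) * a0 * 2⁻¹ ^ k = (2 * 2⁻¹) ^ k * (2 * a0) := by ring
        rw [this, ENNReal.mul_inv_cancel two_ne_zero ENNReal.ofNat_ne_top, one_pow, one_mul]
      · split_ifs with h5
        · have h6 : v ∈ D (k, i) := subset_toMeasurable _ _ (Exists.intro a h5)
          rw [indicator_of_mem h6]
          refine le_of_eq ?_
          simp only [hu]
          ring
        · simp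
    have h4 : ∫⁻ x, h x ∂ρ a v ≤ (1 + c + 4 * m) * a0
        + ∑ q ∈ S, (D q).indicator (fun _ => u q) v := by
      refine h1.trans ((add_le_add (add_le_add le_rfl (Finset.sum_le_sum h3)) h2).trans
        (le_of_eq ?_))
      rw [Finset.sum_add_distrib, Finset.sum_const, Finset.card_range, nsmul_eq_mul, hS,
        Finset.sum_product]
      push_cast
      ring
    refine (pow_le_pow_left' h4 _).trans ((add_pow_le' _ _ _).trans ?_)
    refine mul_le_mul_right (add_le_add le_rfl ?_) _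
    refine (sum_pow_le' S _ hd0).trans (le_of_eq ?_)
    rw [hcard]
    congr 1
    refine Finset.sum_congr rfl fun q _ => ?_
    by_cases hq : v ∈ D q
    · simp [indicator_of_mem hq]
    · simp [indicator_of_notMem hq]
  · have h1 : ∀ q ∈ S, u q ^ d * ν (D q) ≤ 4 ^ d * K * N := by
      intro q hq
      have hq2 : q.2 < 2 * m := Finset.mem_range.1 (Finset.mem_product.1 hq).2
      have hb0 : (2 : ℝ≥0∞) ^ q.1 * a0 ≠ 0 := mul_ne_zero (pow_ne_zero _ two_ne_zero) ha00
      have hb : (2 : ℝ≥0∞) ^ q.1 * a0 ≠ ∞ :=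
        ENNReal.mul_ne_top (ENNReal.pow_ne_top ENNReal.ofNat_ne_top) ha0t
      have h2 := hW _ hb0 hb q.2 hq2
      have h3 : (2 ^ q.1 * a0) ^ d * μ (E q.1) ≤ N := by
        refine le_trans ?_ (mul_meas_ge_le_lintegral (hh.pow_const d) ((2 ^ q.1 * a0) ^ d))
        refine mul_le_mul_right (measure_mono fun x hx => ?_) _
        exact pow_le_pow_left' (show 2 ^ q.1 * a0 ≤ h x from hx) d
      calc u q ^ d * ν (D q) ≤ u q ^ d * (K * (2 ^ q.2) ^ d * μ (E q.1)) := by
            gcongr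
            simp only [hD]
            rw [measure_toMeasurable]
            exact h2
        _ = ((2 * 2⁻¹) ^ q.2) ^ d * (4 ^ d * K) * ((2 ^ q.1 * a0) ^ d * μ (E q.1)) := by
            simp only [hu]
            ring
        _ ≤ _ := by
            rw [ENNReal.mul_inv_cancel two_ne_zero ENNReal.ofNat_ne_top, one_pow, one_pow, one_mul]
            gcongr
    have hms : Measurable fun v => ∑ q ∈ S, (D q).indicator (fun _ => u q ^ d) v :=
      Finset.measurable_sum _ fun q _ => measurable_const.indicator (hDm q)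
    beta_reduce
    rw [lintegral_const_mul _ ((hms.const_mul _).const_add _),
      lintegral_add_left measurable_const, lintegral_const, lintegral_const_mul _ hms,
      lintegral_finsetSum _ (fun q _ => measurable_const.indicator (hDm q))]
    simp_rw [lintegral_indicator_const (hDm _)]
    have h2 := Finset.sum_le_card_nsmul _ _ _ h1
    rw [nsmul_eq_mul, hcard] at h2
    calc 2 ^ d * (((1 + c + 4 * m) * a0) ^ d * ν univ
          + (4 * m ^ 2) ^ d * ∑ q ∈ S, u q ^ d * ν (D q))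
        ≤ 2 ^ d * (((1 + c + 4 * m) * a0) ^ d * ν univ
          + (4 * m ^ 2) ^ d * (4 * m ^ 2 * (4 ^ d * K * N))) := by gcongr
      _ = 2 ^ d * ((1 + c + 4 * m) ^ d * ν univ + (4 * m ^ 2) ^ (d + 1) * (4 ^ d * K)) * N := by
          rw [mul_pow, ha0d]; ring
      _ ≤ _ := by
          unfold levelConst
          gcongr
          exact le_self_add

end Pool.Agent.MP_5168f5_an.H20
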