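import Mathlib

/-!
Macbeath regions: the vectors `v` such that a segment `p ± l v` lies in a shell of a convex function
form a set of measure comparable to `l ^ (-d)` times the measure of a slightly larger shell.
-/

open MeasureTheory Set Filter Topology
open scoped ENNReal

namespace Pool.Agent.MP_5168f5_an.H20

variable {V : Type*} [NormedAddCommGroup V] [NormedSpace ℝ V] [FiniteDimensional ℝ V]

theorem continuous_of_convexOn {φ : V → ℝ} (hφ : ConvexOn ℝ univ φ) : Continuous φ :=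
  continuousOn_univ.mp (hφ.continuousOn isOpen_univ)

omit [FiniteDimensional ℝ V] in
theorem three_point {φ : V → ℝ} (hφ : ConvexOn ℝ univ φ) {s : ℝ} {a b c y : V}
    (ha : φ a < s) (hb : φ b < s) (hc : φ c < s) (hy : (3 : ℝ) • y = a + b + c) : φ y < s := by
  have h1 := hφ.2 (mem_univ b) (mem_univ c) (by norm_num : (0 : ℝ) ≤ 1 / 2)
    (by norm_num : (0 : ℝ) ≤ 1 / 2) (by norm_num)
  have h2 := hφ.2 (mem_univ a) (mem_univ ((1 / 2 : ℝ) • b + (1 / 2 : ℝ) • c))
    (by norm_num : (0 : ℝ) ≤ 1 / 3) (by norm_num : (0 : ℝ) ≤ 2 / 3) (by norm_num)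
  have h3 : (1 / 3 : ℝ) • a + (2 / 3 : ℝ) • ((1 / 2 : ℝ) • b + (1 / 2 : ℝ) • c) = y := by
    have : y = (1 / 3 : ℝ) • ((3 : ℝ) • y) := by rw [smul_smul]; norm_num
    rw [this, hy]
    module
  rw [h3] at h2
  simp only [smul_eq_mul] at h1 h2
  linarith

variable [MeasurableSpace V] [BorelSpace V] (μ : Measure V) [μ.IsAddHaarMeasure]

theorem macbeath_cover {φ : V → ℝ} (hφ : ConvexOn ℝ univ φ) (s0 s1 : ℝ) {l : ℝ} (hl : 0 < l) :
    μ {v | ∃ p, s0 ≤ φ p ∧ φ (p + l • v) < s1 ∧ φ (p - l • v) < s1}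
      ≤ ENNReal.ofReal ((6 / l) ^ Module.finrank ℝ V)
        * μ (φ ⁻¹' Ioo (s0 - (s1 - s0) / 2) s1) := by
  have hc := continuous_of_convexOn hφ
  set M : V → Set V := fun x =>
    {y | φ (x + (2 : ℝ) • (y - x)) < s1 ∧ φ (x - (2 : ℝ) • (y - x)) < s1} with hM
  have hMo : ∀ x, IsOpen (M x) := fun x => by
    have h1 : IsOpen {y | φ (x + (2 : ℝ) • (y - x)) < s1} :=
      isOpen_lt (by fun_prop) continuous_const
    have h2 : IsOpen {y | φ (x - (2 : ℝ) • (y - x)) < s1} :=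
      isOpen_lt (by fun_prop) continuous_const
    exact h1.inter h2
  set P : Set V := {p | s0 ≤ φ p ∧ φ p < s1} with hP
  have hne : ∀ a ∈ P, (M a).Nonempty := fun a ha => ⟨a, by simpa using ha.2, by simpa using ha.2⟩
  obtain ⟨u, huP, hdisj, hcov⟩ := Vitali.exists_disjoint_subfamily_covering_enlargement M P
    (fun _ => (0 : ℝ)) 2 one_lt_two (fun _ _ => le_rfl) 0 (fun _ _ => le_rfl) hne
  have hcount : u.Countable :=
    hdisj.countable_of_isOpen (fun x _ => hMo x) (fun x hx => hne x (huP hx))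
  set W : V → Set V := fun x => (fun v => (l / 6) • v) ⁻¹' ((fun y => x + y) ⁻¹' M x) with hW
  have hWm : ∀ x, μ (W x) = ENNReal.ofReal ((6 / l) ^ Module.finrank ℝ V) * μ (M x) := by
    intro x
    have h1 := μ.addHaar_preimage_smul (r := l / 6) (by positivity) ((fun y => x + y) ⁻¹' M x)
    simp only [hW]
    rw [h1, measure_preimage_add, abs_of_pos (by positivity), ← inv_pow, inv_div]
  have hsub : {v | ∃ p, s0 ≤ φ p ∧ φ (p + l • v) < s1 ∧ φ (p - l • v) < s1} ⊆ ⋃ x ∈ u, W x := by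
    rintro v ⟨p, hp0, hp1, hp2⟩
    have hpP : p ∈ P := by
      refine ⟨hp0, ?_⟩
      have h1 := hφ.2 (mem_univ (p + l • v)) (mem_univ (p - l • v))
        (by norm_num : (0 : ℝ) ≤ 1 / 2) (by norm_num : (0 : ℝ) ≤ 1 / 2) (by norm_num)
      have h2 : (1 / 2 : ℝ) • (p + l • v) + (1 / 2 : ℝ) • (p - l • v) = p := by module
      rw [h2] at h1
      simp only [smul_eq_mul] at h1
      linarith
    obtain ⟨x, hxu, ⟨y, hyp, hyx⟩, -⟩ := hcov p hpP
    refine mem_biUnion hxu ⟨?_, ?_⟩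
    · refine three_point hφ hp1 hyp.1 hyx.2 ?_
      module
    · refine three_point hφ hp2 hyp.1 hyx.2 ?_
      module
  have hMsub : (⋃ x ∈ u, M x) ⊆ φ ⁻¹' Ioo (s0 - (s1 - s0) / 2) s1 := by
    intro y hy
    simp only [mem_iUnion] at hy
    obtain ⟨x, hxu, hy1, hy2⟩ := hy
    have hx := huP hxu
    constructor
    · have h1 := hφ.2 (mem_univ y) (mem_univ (x - (2 : ℝ) • (y - x)))
        (by norm_num : (0 : ℝ) ≤ 2 / 3) (by norm_num : (0 : ℝ) ≤ 1 / 3) (by norm_num)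
      have h2 : (2 / 3 : ℝ) • y + (1 / 3 : ℝ) • (x - (2 : ℝ) • (y - x)) = x := by module
      rw [h2] at h1
      simp only [smul_eq_mul] at h1
      linarith [hx.1]
    · have h1 := hφ.2 (mem_univ x) (mem_univ (x + (2 : ℝ) • (y - x)))
        (by norm_num : (0 : ℝ) ≤ 1 / 2) (by norm_num : (0 : ℝ) ≤ 1 / 2) (by norm_num)
      have h2 : (1 / 2 : ℝ) • x + (1 / 2 : ℝ) • (x + (2 : ℝ) • (y - x)) = y := by module
      rw [h2] at h1
      simp only [smul_eq_mul] at h1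
      linarith [hx.2]
  calc μ {v | ∃ p, s0 ≤ φ p ∧ φ (p + l • v) < s1 ∧ φ (p - l • v) < s1}
      ≤ μ (⋃ x ∈ u, W x) := measure_mono hsub
    _ ≤ ∑' x : u, μ (W x) := measure_biUnion_le μ hcount W
    _ = ENNReal.ofReal ((6 / l) ^ Module.finrank ℝ V) * ∑' x : u, μ (M x) := by
        simp_rw [hWm]
        rw [ENNReal.tsum_mul_left]
    _ = ENNReal.ofReal ((6 / l) ^ Module.finrank ℝ V) * μ (⋃ x ∈ u, M x) := by
        rw [measure_biUnion hcount hdisj (fun x _ => (hMo x).measurableSet)]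
    _ ≤ _ := by gcongr

end Pool.Agent.MP_5168f5_an.H20
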