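import Mathlib

/-!
The push-forward of Haar measure under a convex doubling function that is sub-homogeneous of degree
`d` behaves like an `A_1` weight.
-/

open MeasureTheory Set Filter Topology Metric
open scoped ENNReal

namespace Pool.Agent.MP_5168f5_an.H20

variable {V : Type*} [NormedAddCommGroup V] [NormedSpace ℝ V] [FiniteDimensional ℝ V]
  [MeasurableSpace V] [BorelSpace V]

/-- The working hypotheses on a convex function. -/
structure Nice (μ : Measure V) (κ : ℝ) (φ : V → ℝ) : Prop where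
  conv : ConvexOn ℝ univ φ
  nonneg : ∀ x, 0 ≤ φ x
  hom : ∀ θ : ℝ, 0 ≤ θ → θ ≤ 1 → ∀ x, φ (θ • x) ≤ θ ^ Module.finrank ℝ V * φ x
  dbl : ∀ x, φ ((2 : ℝ) • x) ≤ κ * φ x
  pos : 0 < κ
  fin : ∀ t, μ (φ ⁻¹' Iio t) ≠ ∞
  dim : 1 ≤ Module.finrank ℝ V

variable {μ : Measure V} [μ.IsAddHaarMeasure] {κ : ℝ} {φ : V → ℝ}

omit [μ.IsAddHaarMeasure] in
theorem Nice.meas (h : Nice μ κ φ) : Measurable φ :=
  (continuousOn_univ.mp (h.conv.continuousOn isOpen_univ)).measurable

theorem Nice.scale (h : Nice μ κ φ) {θ s t : ℝ} (hθ : 0 < θ)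
    (hst : ∀ x, φ x < t → φ (θ • x) < s) :
    θ ^ Module.finrank ℝ V * μ.real (φ ⁻¹' Iio t) ≤ μ.real (φ ⁻¹' Iio s) := by
  have h1 : φ ⁻¹' Iio t ⊆ (fun x => θ • x) ⁻¹' (φ ⁻¹' Iio s) := fun x hx => hst x hx
  have h2 := measure_mono (μ := μ) h1
  rw [μ.addHaar_preimage_smul hθ.ne', abs_of_pos (by positivity)] at h2
  have h3 := ENNReal.toReal_mono (ENNReal.mul_ne_top ENNReal.ofReal_ne_top (h.fin s)) h2
  rw [ENNReal.toReal_mul, ENNReal.toReal_ofReal (by positivity)] at h3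
  have hp : 0 < θ ^ Module.finrank ℝ V := by positivity
  calc θ ^ Module.finrank ℝ V * μ.real (φ ⁻¹' Iio t)
      ≤ θ ^ Module.finrank ℝ V * ((θ ^ Module.finrank ℝ V)⁻¹ * μ.real (φ ⁻¹' Iio s)) := by
        gcongr
        exact h3
    _ = μ.real (φ ⁻¹' Iio s) := by field_simp

theorem Nice.f1 (h : Nice μ κ φ) {s t : ℝ} (hs : 0 < s) (hst : s ≤ t) :
    s * μ.real (φ ⁻¹' Iio t) ≤ t * μ.real (φ ⁻¹' Iio s) := by
  have ht : 0 < t := hs.trans_le hst
  have hd : Module.finrank ℝ V ≠ 0 := by have := h.dim; omega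
  set θ : ℝ := (s / t) ^ ((Module.finrank ℝ V : ℝ)⁻¹) with hθ
  have hθ0 : 0 < θ := by positivity
  have hθd : θ ^ Module.finrank ℝ V = s / t := Real.rpow_inv_natCast_pow (by positivity) hd
  have hθ1 : θ ≤ 1 := Real.rpow_le_one (by positivity) ((div_le_one ht).2 hst) (by positivity)
  have h1 := h.scale (s := s) (t := t) hθ0 (fun x hx => by
    refine (h.hom θ hθ0.le hθ1 x).trans_lt ?_
    rw [hθd]
    calc s / t * φ x < s / t * t := by gcongr
      _ = s := by field_simp)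
  rw [hθd] at h1
  calc s * μ.real (φ ⁻¹' Iio t) = t * (s / t * μ.real (φ ⁻¹' Iio t)) := by field_simp
    _ ≤ _ := by gcongr

theorem Nice.f3 (h : Nice μ κ φ) {x θ : ℝ} (hθ0 : 0 ≤ θ) (hθ1 : θ ≤ 1) :
    (1 + θ) * μ.real (φ ⁻¹' Iio x) ≤ μ.real (φ ⁻¹' Iio ((1 + θ * κ) * x)) := by
  have hκ := h.pos
  have h1 := h.scale (θ := 1 + θ) (s := (1 + θ * κ) * x) (t := x) (by positivity) (fun y hy => by
    have h2 := h.conv.2 (mem_univ y) (mem_univ ((2 : ℝ) • y)) (sub_nonneg.2 hθ1) hθ0 (by ring)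
    have h3 : (1 - θ) • y + θ • (2 : ℝ) • y = (1 + θ) • y := by module
    rw [h3] at h2
    simp only [smul_eq_mul] at h2
    have h4 := h.dbl y
    have h5 := h.nonneg y
    calc φ ((1 + θ) • y) ≤ (1 - θ) * φ y + θ * (κ * φ y) := by
          refine h2.trans ?_
          gcongr
      _ ≤ (1 + θ * κ) * φ y := by nlinarith [mul_nonneg hθ0 h5]
      _ < (1 + θ * κ) * x := by gcongr)
  refine le_trans ?_ h1
  gcongr
  exact le_self_pow₀ (by linarith) (by have := h.dim; omega)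

omit [μ.IsAddHaarMeasure] in
theorem Nice.ico (h : Nice μ κ φ) {s t : ℝ} (hst : s ≤ t) :
    μ.map φ (Ico s t) = ENNReal.ofReal (μ.real (φ ⁻¹' Iio t) - μ.real (φ ⁻¹' Iio s)) := by
  rw [Measure.map_apply h.meas measurableSet_Ico]
  have h1 : φ ⁻¹' Ico s t = φ ⁻¹' Iio t \ φ ⁻¹' Iio s := by
    ext x; simp [and_comm]
  have h2 : φ ⁻¹' Iio s ⊆ φ ⁻¹' Iio t := preimage_mono (Iio_subset_Iio hst)
  rw [h1, ← measureReal_sdiff h2 (h.meas measurableSet_Iio) (h.fin t),
    ofReal_measureReal ((measure_mono sdiff_subset).trans_lt (h.fin t).lt_top).ne]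

omit [μ.IsAddHaarMeasure] in
theorem Nice.locFin (h : Nice μ κ φ) : IsLocallyFiniteMeasure (μ.map φ) := by
  refine ⟨fun x => ⟨Iio (x + 1), Iio_mem_nhds (by linarith), ?_⟩⟩
  rw [Measure.map_apply h.meas measurableSet_Iio]
  exact (h.fin _).lt_top

theorem Nice.lower (h : Nice μ κ φ) {T : ℝ} {B : Set ℝ} (hB : B ⊆ Icc 0 T) :
    ENNReal.ofReal (μ.real (φ ⁻¹' Iio T) / (κ * T)) * volume B ≤ μ.map φ B := by
  have hκ := h.pos
  have := h.locFin
  have h1 := (IsUnifLocDoublingMeasure.vitaliFamily (volume : Measure ℝ) 1).measure_le_of_frequently_le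
    (ρ := ENNReal.ofReal (μ.real (φ ⁻¹' Iio T) / (κ * T)) • volume) (μ.map φ)
    Measure.smul_absolutelyContinuous (B \ {0}) (fun x hx => by
      have hx0 : 0 < x := lt_of_le_of_ne (hB hx.1).1 (fun h => hx.2 h.symm)
      have hxT : x ≤ T := (hB hx.1).2
      have hT : 0 < T := hx0.trans_le hxT
      refine (Real.tendsto_Icc_vitaliFamily_right x).frequently (Eventually.frequently ?_)
      have hmem : Ioo x ((1 + κ) * x) ∈ 𝓝[>] x := Ioo_mem_nhdsGT (by nlinarith)
      filter_upwards [hmem] with y hy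
      refine le_trans ?_ (measure_mono Ico_subset_Icc_self)
      rw [h.ico hy.1.le, Measure.smul_apply, smul_eq_mul, Real.volume_Icc,
        ← ENNReal.ofReal_mul (by positivity)]
      apply ENNReal.ofReal_le_ofReal
      have hyx : 0 < y - x := sub_pos.2 hy.1
      have h3 := h.f3 (x := x) (θ := (y - x) / (κ * x)) (by positivity) (by
        rw [div_le_one (by positivity)]
        linarith [hy.2])
      have h4 : (1 + (y - x) / (κ * x) * κ) * x = y := by field_simp; ring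
      rw [h4] at h3
      have h5 := h.f1 hx0 hxT
      have h6 : μ.real (φ ⁻¹' Iio T) / (κ * T) ≤ μ.real (φ ⁻¹' Iio x) / (κ * x) := by
        rw [div_le_div_iff₀ (by positivity) (by positivity)]
        nlinarith
      calc μ.real (φ ⁻¹' Iio T) / (κ * T) * (y - x)
          ≤ μ.real (φ ⁻¹' Iio x) / (κ * x) * (y - x) := by gcongr
        _ = (y - x) / (κ * x) * μ.real (φ ⁻¹' Iio x) := by ring
        _ ≤ _ := by linarith)
  rw [Measure.smul_apply, smul_eq_mul, measure_sdiff_null (measure_singleton _)] at h1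
  exact h1.trans (measure_mono sdiff_subset)

theorem Nice.weight (h : Nice μ κ φ) {c r β : ℝ} (hr : 0 < r) (hrc : r ≤ c) (hβ : 0 < β)
    {A : Set ℝ} (hA : ENNReal.ofReal (β * (2 * r)) ≤ volume (A ∩ closedBall c r)) :
    μ.map φ (closedBall c (11 * r))
      ≤ ENNReal.ofReal (12 * κ / β) * μ.map φ (A ∩ closedBall c r) := by
  have hκ := h.pos
  have hT : 0 < c + 12 * r := by linarith
  set T := c + 12 * r with hTdef
  have hv : 0 ≤ μ.real (φ ⁻¹' Iio T) := measureReal_nonneg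
  have hlow := h.lower (T := T) (B := A ∩ closedBall c r) (fun x hx => by
    have := hx.2
    rw [Real.closedBall_eq_Icc] at this
    exact ⟨by linarith [this.1], by linarith [this.2]⟩)
  have hup : μ.map φ (closedBall c (11 * r))
      ≤ ENNReal.ofReal (23 * r * μ.real (φ ⁻¹' Iio T) / T) := by
    have hsub : closedBall c (11 * r) ⊆ Ico (c - 11 * r) T := by
      rw [Real.closedBall_eq_Icc]
      exact Icc_subset_Ico_right (by linarith)
    refine (measure_mono hsub).trans ?_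
    rw [h.ico (by linarith)]
    apply ENNReal.ofReal_le_ofReal
    rw [le_div_iff₀ hT]
    have hv' : 0 ≤ μ.real (φ ⁻¹' Iio (c - 11 * r)) := measureReal_nonneg
    rcases le_or_gt (c - 11 * r) 0 with hc | hc
    · nlinarith
    · have := h.f1 hc (by linarith : c - 11 * r ≤ T)
      nlinarith
  refine hup.trans (le_trans ?_ (mul_le_mul_right (le_trans (mul_le_mul_right hA _) hlow) _))
  rw [← ENNReal.ofReal_mul (by positivity), ← ENNReal.ofReal_mul (by positivity)]
  apply ENNReal.ofReal_le_ofReal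
  have : 12 * κ / β * (μ.real (φ ⁻¹' Iio T) / (κ * T) * (β * (2 * r)))
      = 24 * r * μ.real (φ ⁻¹' Iio T) / T := by
    field_simp
    ring
  rw [this]
  gcongr
  norm_num

end Pool.Agent.MP_5168f5_an.H20
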