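import Pool.Agent.MP_5168f5_an.H20.OneDim
import Pool.Agent.MP_5168f5_an.H20.Macbeath
import Pool.Agent.MP_5168f5_an.H20.Weight

/-!
The restricted weak type estimate for unions of level sets of a convex doubling function.
-/

open MeasureTheory Set Filter Topology Metric
open scoped ENNReal

namespace Pool.Agent.MP_5168f5_an.H20

variable {V : Type*} [NormedAddCommGroup V] [NormedSpace ℝ V] [FiniteDimensional ℝ V]
  [MeasurableSpace V] [BorelSpace V]
variable {μ : Measure V} [μ.IsAddHaarMeasure] {κ : ℝ} {φ : V → ℝ}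

/-- Vectors with a dense value interval at scale `l`. -/
def Dset (φ : V → ℝ) (A : Set ℝ) (l β R : ℝ) : Set V :=
  {v | ∃ p r, 0 < r ∧ r ≤ R ∧ φ (p + l • v) ≤ φ p + 2 * r ∧ φ (p - l • v) ≤ φ p + 2 * r ∧
    ENNReal.ofReal (β * (2 * r)) ≤ volume (A ∩ Icc (φ p) (φ p + 2 * r))}

theorem Nice.dset (h : Nice μ κ φ) {A : Set ℝ} (hA : MeasurableSet A) {l β : ℝ} (hl : 0 < l)
    (hβ : 0 < β) (R : ℝ) :
    μ (Dset φ A l β R) ≤ ENNReal.ofReal ((6 / l) ^ Module.finrank ℝ V * (12 * κ / β))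
      * μ.map φ A := by
  have hκ := h.pos
  set t : Set (ℝ × ℝ) := {q | 0 < q.2 ∧ q.2 ≤ q.1 ∧ q.2 ≤ R ∧
    ENNReal.ofReal (β * (2 * q.2)) ≤ volume (A ∩ closedBall q.1 q.2)} with ht
  obtain ⟨u, hut, hdisj, hcov⟩ := Vitali.exists_disjoint_subfamily_covering_enlargement_closedBall
    t Prod.fst Prod.snd R (fun a ha => ha.2.2.1) 5 (by norm_num)
  have hcount : u.Countable := by
    refine hdisj.countable_of_nonempty_interior fun q hq => ?_
    exact ⟨q.1, ball_subset_interior_closedBall (mem_ball_self (hut hq).1)⟩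
  set W : ℝ × ℝ → Set V := fun q => {v | ∃ p, q.1 - 5 * q.2 ≤ φ p ∧
    φ (p + l • v) < q.1 + 6 * q.2 ∧ φ (p - l • v) < q.1 + 6 * q.2} with hW
  have hsub : Dset φ A l β R ⊆ ⋃ q ∈ u, W q := by
    rintro v ⟨p, r, hr, hrR, h1, h2, h3⟩
    have hI : closedBall (φ p + r) r = Icc (φ p) (φ p + 2 * r) := by
      rw [Real.closedBall_eq_Icc]; congr 1 <;> ring
    have hq : (φ p + r, r) ∈ t := by
      refine ⟨hr, by simpa using h.nonneg p, hrR, ?_⟩
      simp only [hI]
      exact h3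
    obtain ⟨q, hqu, hq2⟩ := hcov _ hq
    simp only [hI, Real.closedBall_eq_Icc] at hq2
    have hq0 := (hut hqu).1
    have h4 := hq2 (left_mem_Icc.2 (by linarith))
    have h5 := hq2 (right_mem_Icc.2 (by linarith))
    exact mem_biUnion hqu ⟨p, h4.1, by linarith [h5.2], by linarith [h5.2]⟩
  have hWq : ∀ q ∈ u, μ (W q) ≤ ENNReal.ofReal ((6 / l) ^ Module.finrank ℝ V * (12 * κ / β))
      * μ.map φ (A ∩ closedBall q.1 q.2) := by
    intro q hq
    obtain ⟨hq0, hq1, -, hq3⟩ := hut hq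
    refine (macbeath_cover μ h.conv _ _ hl).trans ?_
    rw [ENNReal.ofReal_mul (by positivity), mul_assoc]
    gcongr
    refine le_trans ?_ (h.weight hq0 hq1 hβ hq3)
    rw [Measure.map_apply h.meas measurableSet_closedBall]
    refine measure_mono (preimage_mono ?_)
    rw [Real.closedBall_eq_Icc]
    exact (Ioo_subset_Icc_self).trans (Icc_subset_Icc (by linarith) (by linarith))
  have hdisj2 : u.PairwiseDisjoint fun q => A ∩ closedBall q.1 q.2 :=
    hdisj.mono fun q => inter_subset_right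
  calc μ (Dset φ A l β R) ≤ μ (⋃ q ∈ u, W q) := measure_mono hsub
    _ ≤ ∑' q : u, μ (W q) := measure_biUnion_le μ hcount W
    _ ≤ ∑' q : u, ENNReal.ofReal ((6 / l) ^ Module.finrank ℝ V * (12 * κ / β))
      * μ.map φ (A ∩ closedBall q.1.1 q.1.2) := ENNReal.tsum_le_tsum fun q => hWq q q.2
    _ = ENNReal.ofReal ((6 / l) ^ Module.finrank ℝ V * (12 * κ / β))
      * μ.map φ (⋃ q ∈ u, A ∩ closedBall q.1 q.2) := by
        rw [ENNReal.tsum_mul_left, measure_biUnion hcount hdisj2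
          (fun q _ => hA.inter measurableSet_closedBall)]
    _ ≤ _ := by
        gcongr
        exact iUnion₂_subset fun q _ => inter_subset_left

theorem Nice.dset_union (h : Nice μ κ φ) {A : Set ℝ} (hA : MeasurableSet A) {l β : ℝ}
    (hl : 0 < l) (hβ : 0 < β) :
    μ (⋃ R : ℕ, Dset φ A l β R) ≤ ENNReal.ofReal ((6 / l) ^ Module.finrank ℝ V * (12 * κ / β))
      * μ.map φ A := by
  have hmono : Monotone fun R : ℕ => Dset φ A l β R := by
    rintro R R' hR v ⟨p, r, hr, hrR, h1⟩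
    exact ⟨p, r, hr, hrR.trans (by exact_mod_cast hR), h1⟩
  rw [hmono.measure_iUnion]
  exact iSup_le fun R => h.dset hA hl hβ R

/-- Vectors along which some line spends time more than `lam` in `E`. -/
def Time (E : Set V) (lam : ℝ) : Set V :=
  {v | ∃ a, ENNReal.ofReal lam < volume ((fun t : ℝ => a + t • v) ⁻¹' E ∩ Icc (-1 / 2) (1 / 2))}

theorem arith_bound {d i j : ℕ} (hd : 2 ≤ d) (hj : j < i + 3) {κ : ℝ} (hκ : 0 < κ) :
    (6 / (1 / 2 : ℝ) ^ (j + 1)) ^ d
        * (12 * κ / (((1 / 2 : ℝ) ^ (i + 1)) ^ 2 / (64 * ((1 / 2 : ℝ) ^ j) ^ 2)))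
      ≤ 3072 * κ * 48 ^ d * (2 ^ i) ^ d := by
  obtain ⟨e, rfl⟩ : ∃ e, d = e + 2 := ⟨d - 2, by omega⟩
  have h1 : (2 : ℝ) ^ j ≤ 4 * 2 ^ i := by
    calc (2 : ℝ) ^ j ≤ 2 ^ (i + 2) := pow_le_pow_right₀ (by norm_num) (by omega)
      _ = 4 * 2 ^ i := by ring
  have e1 : (6 / (1 / 2 : ℝ) ^ (j + 1)) = 12 * 2 ^ j := by
    rw [one_div, inv_pow, div_inv_eq_mul]; ring
  have e2 : (12 * κ / (((1 / 2 : ℝ) ^ (i + 1)) ^ 2 / (64 * ((1 / 2 : ℝ) ^ j) ^ 2)))
      = 3072 * κ * (2 ^ i) ^ 2 / (2 ^ j) ^ 2 := by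
    simp only [one_div, inv_pow]
    field_simp
    ring
  rw [e1, e2]
  set x : ℝ := 2 ^ i
  set y : ℝ := 2 ^ j
  have hx : 0 < x := by positivity
  have hy : 0 < y := by positivity
  have e3 : (12 * y) ^ (e + 2) * (3072 * κ * x ^ 2 / y ^ 2)
      = 3072 * κ * 144 * (12 * y) ^ e * x ^ 2 := by
    field_simp
    ring
  have e4 : 3072 * κ * 48 ^ (e + 2) * x ^ (e + 2) = 3072 * κ * 2304 * (48 * x) ^ e * x ^ 2 := by
    rw [mul_pow]; ring
  rw [e3, e4]
  have h2 : (12 * y) ^ e ≤ (48 * x) ^ e := pow_le_pow_left₀ (by positivity) (by linarith) _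
  have h3 : 3072 * κ * 144 ≤ 3072 * κ * 2304 := by linarith
  exact mul_le_mul_of_nonneg_right (mul_le_mul h3 h2 (by positivity) (by positivity))
    (by positivity)

theorem Nice.weak_open (h : Nice μ κ φ) (hd : 2 ≤ Module.finrank ℝ V) {A : Set ℝ}
    (hA : IsOpen A) (i : ℕ) :
    μ (Time (φ ⁻¹' A) ((1 / 2) ^ i)) ≤ ENNReal.ofReal ((i + 3) * (3072 * κ
      * 48 ^ Module.finrank ℝ V * (2 ^ i) ^ Module.finrank ℝ V)) * μ.map φ A := by
  have hκ := h.pos
  set L : ℝ := (1 / 2) ^ (i + 1) with hL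
  have hL0 : 0 < L := by positivity
  have hsub : Time (φ ⁻¹' A) ((1 / 2) ^ i) ⊆ ⋃ j ∈ Finset.range (i + 3),
      ⋃ R : ℕ, Dset φ A ((1 / 2) ^ (j + 1)) (L ^ 2 / (64 * ((1 / 2) ^ j) ^ 2)) R := by
    rintro v ⟨a, ha⟩
    have hψ : ConvexOn ℝ univ (fun t : ℝ => φ (a + t • v)) := by
      refine ⟨convex_univ, fun x _ y _ s t hs ht hst => ?_⟩
      have h1 := h.conv.2 (mem_univ (a + x • v)) (mem_univ (a + y • v)) hs ht hst
      have h2 : s • (a + x • v) + t • (a + y • v) = a + (s • x + t • y) • v := by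
        have : a = (s + t) • a := by rw [hst, one_smul]
        conv_rhs => rw [this]
        simp only [smul_eq_mul]
        module
      rwa [h2] at h1
    have h2L : (1 / 2 : ℝ) ^ i = 2 * L := by rw [hL]; ring
    rw [h2L] at ha
    obtain ⟨m, l, r, hl1, hl2, hr, h1, h2, h3⟩ := seg_of_time hψ hA hL0 ha
    have hl0 : 0 < l := by linarith
    obtain ⟨j, hj1, hj2⟩ := exists_nat_pow_near_of_lt_one hl0 (by linarith)
      (by norm_num : (0 : ℝ) < 1 / 2) (by norm_num)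
    have hj : j < i + 3 := by
      by_contra hj
      have h4 : (1 / 2 : ℝ) ^ j ≤ (1 / 2) ^ (i + 3) :=
        pow_le_pow_of_le_one (by norm_num) (by norm_num) (by omega)
      have h5 : (1 / 2 : ℝ) ^ (i + 3) = L / 4 := by rw [hL]; ring
      linarith
    obtain ⟨R, hR⟩ := exists_nat_ge r
    refine mem_biUnion (Finset.mem_coe.2 (Finset.mem_range.2 hj)) (mem_iUnion.2 ⟨R, ?_⟩)
    have hp : (0 : ℝ) < (1 / 2) ^ (j + 1) := by positivity
    refine ⟨a + m • v, r, hr, hR, ?_, ?_, ?_⟩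
    · have h4 := hψ.le_max_of_mem_Icc (mem_univ m) (mem_univ (m + l))
        (z := m + (1 / 2) ^ (j + 1)) ⟨by linarith, by linarith⟩
      have h5 : a + m • v + (1 / 2 : ℝ) ^ (j + 1) • v = a + (m + (1 / 2) ^ (j + 1)) • v := by
        module
      rw [h5]
      exact h4.trans (max_le (by linarith) h1)
    · have h4 := hψ.le_max_of_mem_Icc (mem_univ (m - l)) (mem_univ m)
        (z := m - (1 / 2) ^ (j + 1)) ⟨by linarith, by linarith⟩
      have h5 : a + m • v - (1 / 2 : ℝ) ^ (j + 1) • v = a + (m - (1 / 2) ^ (j + 1)) • v := by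
        module
      rw [h5]
      exact h4.trans (max_le h2 (by linarith))
    · refine le_trans (ENNReal.ofReal_le_ofReal ?_) h3
      gcongr
  refine (measure_mono hsub).trans ((measure_biUnion_finset_le _ _).trans ?_)
  have hb : ∀ j ∈ Finset.range (i + 3),
      μ (⋃ R : ℕ, Dset φ A ((1 / 2) ^ (j + 1)) (L ^ 2 / (64 * ((1 / 2) ^ j) ^ 2)) R)
      ≤ ENNReal.ofReal (3072 * κ * 48 ^ Module.finrank ℝ V * (2 ^ i) ^ Module.finrank ℝ V)
        * μ.map φ A := by
    intro j hj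
    refine (h.dset_union hA.measurableSet (by positivity) (by positivity)).trans ?_
    exact mul_le_mul_left (ENNReal.ofReal_le_ofReal (arith_bound hd (Finset.mem_range.1 hj) hκ)) _
  refine (Finset.sum_le_card_nsmul _ _ _ hb).trans (le_of_eq ?_)
  rw [Finset.card_range, nsmul_eq_mul, ← mul_assoc, ENNReal.ofReal_mul (p := (i : ℝ) + 3)
    (by positivity)]
  congr 2
  rw [← ENNReal.ofReal_natCast]
  push_cast
  rfl

theorem Nice.weak (h : Nice μ κ φ) (hd : 2 ≤ Module.finrank ℝ V) {A : Set ℝ}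
    (hA : MeasurableSet A) (i : ℕ) :
    μ (Time (φ ⁻¹' A) ((1 / 2) ^ i)) ≤ ENNReal.ofReal ((i + 3) * (3072 * κ
      * 48 ^ Module.finrank ℝ V * (2 ^ i) ^ Module.finrank ℝ V)) * μ (φ ⁻¹' A) := by
  have hκ := h.pos
  have := h.locFin
  rw [← Measure.map_apply h.meas hA, Set.measure_eq_iInf_isOpen A (μ.map φ)]
  have h0 : ENNReal.ofReal ((i + 3) * (3072 * κ
      * 48 ^ Module.finrank ℝ V * (2 ^ i) ^ Module.finrank ℝ V)) ≠ 0 := by
    rw [Ne, ENNReal.ofReal_eq_zero, not_le]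
    positivity
  simp_rw [ENNReal.mul_iInf_of_ne h0 ENNReal.ofReal_ne_top]
  refine le_iInf fun U => le_iInf fun hAU => le_iInf fun hU => ?_
  refine le_trans (measure_mono ?_) (h.weak_open hd hU i)
  rintro v ⟨a, ha⟩
  exact ⟨a, ha.trans_le (measure_mono (inter_subset_inter_left _
    (preimage_mono (preimage_mono hAU))))⟩

omit [BorelSpace V] in
/-- The class of convex functions: vanishing exactly at the origin, doubling constant `κ`. -/
theorem nice_pow {φ : V → ℝ} (hconv : ConvexOn ℝ univ φ) (h0 : φ 0 = 0)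
    (hpos : ∀ x, x ≠ 0 → 0 < φ x) (hdbl : ∀ x, φ ((2 : ℝ) • x) ≤ κ * φ x)
    (hd : 1 ≤ Module.finrank ℝ V) :
    Nice μ (κ ^ Module.finrank ℝ V) (fun x => φ x ^ Module.finrank ℝ V) := by
  have hnn : ∀ x, 0 ≤ φ x := fun x => by
    by_cases hx : x = 0
    · rw [hx, h0]
    · exact (hpos x hx).le
  have hhom : ∀ θ : ℝ, 0 ≤ θ → θ ≤ 1 → ∀ x, φ (θ • x) ≤ θ * φ x := by
    intro θ h1 h2 x
    have := hconv.2 (mem_univ x) (mem_univ 0) h1 (sub_nonneg.2 h2) (by ring)
    simpa [h0] using this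
  have : Nontrivial V := Module.nontrivial_of_finrank_pos (R := ℝ) (by omega)
  have hκ : 0 < κ := by
    obtain ⟨x, hx⟩ := exists_ne (0 : V)
    have h1 := hpos x hx
    have h2 := hpos ((2 : ℝ) • x) (smul_ne_zero two_ne_zero hx)
    have h3 := hdbl x
    by_contra hκ
    nlinarith [not_lt.mp hκ]
  have hc := continuous_of_convexOn hconv
  refine ⟨hconv.pow (fun x _ => hnn x) _, fun x => pow_nonneg (hnn x) _, ?_, ?_, by positivity,
    ?_, hd⟩
  · intro θ h1 h2 x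
    rw [← mul_pow]
    exact pow_le_pow_left₀ (hnn _) (hhom θ h1 h2 x) _
  · intro x
    rw [← mul_pow]
    exact pow_le_pow_left₀ (hnn _) (hdbl x) _
  · intro t
    obtain ⟨x0, hx0, hmin⟩ := (isCompact_sphere (0 : V) 1).exists_isMinOn
      (NormedSpace.sphere_nonempty.2 zero_le_one) hc.continuousOn
    have hx0' : x0 ≠ 0 := by
      rintro rfl
      simp at hx0
    have hm := hpos x0 hx0'
    have hsub : (fun x => φ x ^ Module.finrank ℝ V) ⁻¹' Iio t
        ⊆ closedBall 0 (max 1 (max 1 t / φ x0)) := by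
      intro x hx
      rw [mem_closedBall_zero_iff]
      rcases le_or_gt ‖x‖ 1 with h1 | h1
      · exact h1.trans (le_max_left _ _)
      · refine le_trans ?_ (le_max_right _ _)
        have hx1 : φ x ≤ max 1 t := by
          rcases le_or_gt (φ x) 1 with h2 | h2
          · exact h2.trans (le_max_left _ _)
          · have h3 : φ x ≤ φ x ^ Module.finrank ℝ V := le_self_pow₀ h2.le (by omega)
            exact (h3.trans (le_of_lt hx)).trans (le_max_right _ _)
        have hn : 0 < ‖x‖ := by linarith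
        have h2 : φ x0 ≤ φ (‖x‖⁻¹ • x) := hmin (by
          simp [norm_smul, hn.ne'])
        have h3 := hhom ‖x‖⁻¹ (by positivity) (inv_le_one_of_one_le₀ h1.le) x
        rw [le_div_iff₀ hm]
        calc ‖x‖ * φ x0 ≤ ‖x‖ * (‖x‖⁻¹ * φ x) := by gcongr; exact h2.trans h3
          _ = φ x := by field_simp
          _ ≤ _ := hx1
    exact ((measure_mono hsub).trans_lt measure_closedBall_lt_top).ne

theorem weak_type {φ : V → ℝ} (hconv : ConvexOn ℝ univ φ) (h0 : φ 0 = 0)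
    (hpos : ∀ x, x ≠ 0 → 0 < φ x) (hdbl : ∀ x, φ ((2 : ℝ) • x) ≤ κ * φ x)
    (hd : 2 ≤ Module.finrank ℝ V) (x0 : V) {A : Set ℝ} (hA : MeasurableSet A) (i : ℕ) :
    μ (Time {x | φ (x - x0) ∈ A} ((1 / 2) ^ i)) ≤ ENNReal.ofReal ((i + 3) * (3072
      * κ ^ Module.finrank ℝ V * 48 ^ Module.finrank ℝ V * (2 ^ i) ^ Module.finrank ℝ V))
      * μ {x | φ (x - x0) ∈ A} := by
  have hn := nice_pow (μ := μ) hconv h0 hpos hdbl (by omega)
  have hnn : ∀ x, 0 ≤ φ x := fun x => by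
    by_cases hx : x = 0
    · rw [hx, h0]
    · exact (hpos x hx).le
  set A' : Set ℝ := (fun s : ℝ => s ^ ((Module.finrank ℝ V : ℝ)⁻¹)) ⁻¹' A with hA'
  have hA'm : MeasurableSet A' := (measurable_id.pow_const _) hA
  have hE : (fun x => φ x ^ Module.finrank ℝ V) ⁻¹' A' = φ ⁻¹' A := by
    ext x
    simp only [hA', mem_preimage]
    rw [Real.pow_rpow_inv_natCast (hnn x) (by omega)]
  have h1 := hn.weak hd hA'm i
  rw [hE] at h1
  have h2 : μ {x | φ (x - x0) ∈ A} = μ (φ ⁻¹' A) := by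
    have : {x | φ (x - x0) ∈ A} = (fun x => x + -x0) ⁻¹' (φ ⁻¹' A) := by
      ext x; simp [sub_eq_add_neg]
    rw [this, measure_preimage_add_right]
  rw [h2]
  refine le_trans (measure_mono ?_) h1
  rintro v ⟨a, ha⟩
  refine ⟨a - x0, ha.trans_le (le_of_eq ?_)⟩
  congr 2
  ext t
  simp only [mem_preimage, mem_ofPred_eq]
  rw [add_sub_right_comm]

end Pool.Agent.MP_5168f5_an.H20
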