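import Pool.Agent.MP_5168f5_an.H20.Tube
import Pool.Agent.MP_5168f5_an.H20.Levels
import Pool.Agent.MP_5168f5_an.H20.Weak

/-!
Polynomial losses in the number of scales are absorbed in `δ ^ (-ε)`; the strong type majorant for
functions with radial superlevel sets.
-/

open MeasureTheory Set Filter Topology Metric
open scoped ENNReal

namespace Pool.Agent.MP_5168f5_an.H20

/-- Polynomially bounded sequences. -/
def PolyBd (g : ℕ → ℝ≥0∞) : Prop :=
  ∃ C : ℝ≥0∞, C ≠ ∞ ∧ ∃ e : ℕ, ∀ m : ℕ, g m ≤ C * ((m : ℝ≥0∞) + 1) ^ e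

theorem PolyBd.const {c : ℝ≥0∞} (hc : c ≠ ∞) : PolyBd fun _ => c := ⟨c, hc, 0, fun m => by simp⟩

theorem PolyBd.id : PolyBd fun m => (m : ℝ≥0∞) := ⟨1, by simp, 1, fun m => by simp⟩

theorem PolyBd.mul {g g' : ℕ → ℝ≥0∞} (h : PolyBd g) (h' : PolyBd g') :
    PolyBd fun m => g m * g' m := by
  obtain ⟨C, hC, e, he⟩ := h
  obtain ⟨C', hC', e', he'⟩ := h'
  refine ⟨C * C', ENNReal.mul_ne_top hC hC', e + e', fun m => ?_⟩
  calc g m * g' m ≤ (C * ((m : ℝ≥0∞) + 1) ^ e) * (C' * ((m : ℝ≥0∞) + 1) ^ e') :=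
        mul_le_mul' (he m) (he' m)
    _ = _ := by ring

theorem PolyBd.add {g g' : ℕ → ℝ≥0∞} (h : PolyBd g) (h' : PolyBd g') :
    PolyBd fun m => g m + g' m := by
  obtain ⟨C, hC, e, he⟩ := h
  obtain ⟨C', hC', e', he'⟩ := h'
  refine ⟨C + C', ENNReal.add_ne_top.2 ⟨hC, hC'⟩, e + e', fun m => ?_⟩
  have h1 : (1 : ℝ≥0∞) ≤ (m : ℝ≥0∞) + 1 := le_add_self
  rw [add_mul]
  refine add_le_add ((he m).trans ?_) ((he' m).trans ?_)
  · exact mul_le_mul_right (pow_le_pow_right₀ h1 (by omega)) _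
  · exact mul_le_mul_right (pow_le_pow_right₀ h1 (by omega)) _

theorem PolyBd.pow {g : ℕ → ℝ≥0∞} (h : PolyBd g) (k : ℕ) : PolyBd fun m => g m ^ k := by
  induction k with
  | zero => simpa using PolyBd.const (c := 1) (by simp)
  | succ k ih => simpa [pow_succ] using ih.mul h

theorem PolyBd.mono {g g' : ℕ → ℝ≥0∞} (h : PolyBd g) (h' : ∀ m, g' m ≤ g m) : PolyBd g' := by
  obtain ⟨C, hC, e, he⟩ := h
  exact ⟨C, hC, e, fun m => (h' m).trans (he m)⟩

theorem PolyBd.levelConst (d : ℕ) {c b : ℝ≥0∞} (hc : c ≠ ∞) (hb : b ≠ ∞) {K : ℕ → ℝ≥0∞}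
    (hK : PolyBd K) : PolyBd fun m => levelConst d m c (K m) b := by
  unfold H20.levelConst
  have h2 : PolyBd fun _ => (2 : ℝ≥0∞) ^ d := .const (ENNReal.pow_ne_top ENNReal.ofNat_ne_top)
  have h4 : PolyBd fun _ => (4 : ℝ≥0∞) := .const ENNReal.ofNat_ne_top
  have h1 : PolyBd fun _ => (1 : ℝ≥0∞) := .const ENNReal.one_ne_top
  exact (h2.mul (((((h1.add (.const hc)).add (h4.mul .id)).pow d).mul (.const hb)).add
    (((h4.mul (PolyBd.id.pow 2)).pow (d + 1)).mul ((h4.pow d).mul hK)))).add h1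

theorem PolyBd.absorb {g : ℕ → ℝ≥0∞} (h : PolyBd g) {ε : ℝ} (hε : 0 < ε) :
    ∃ C : ℝ, 1 ≤ C ∧ ∀ (δ : ℝ) (j : ℕ), 0 < δ → δ ≤ (1 / 2) ^ j →
      g (j + 1) ≤ ENNReal.ofReal (C * δ ^ (-ε)) := by
  obtain ⟨C, hC, e, he⟩ := h
  set r : ℝ := 2 ^ ε with hr
  have hr1 : 1 < r := Real.one_lt_rpow one_lt_two hε
  obtain ⟨B, hB⟩ := (tendsto_pow_const_div_const_pow_of_one_lt e hr1).bddAbove_range
  have hB' : ∀ k : ℕ, (k : ℝ) ^ e ≤ B * r ^ k := fun k => by
    have := hB (mem_range_self k)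
    rwa [div_le_iff₀ (by positivity)] at this
  have hB0 : 0 ≤ B := by
    have := hB' 1
    have h1 : (0 : ℝ) < r ^ 1 := by positivity
    by_contra hneg
    have h2 : B * r ^ 1 < 0 := mul_neg_of_neg_of_pos (not_le.mp hneg) h1
    have h3 : (0 : ℝ) ≤ ((1 : ℕ) : ℝ) ^ e := by positivity
    linarith
  refine ⟨max 1 (C.toReal * B * r ^ 2), le_max_left _ _, fun δ j hδ hj => (he _).trans ?_⟩
  have h1 : r ^ j ≤ δ ^ (-ε) := by
    have h2 : ((1 / 2 : ℝ) ^ j) ^ (-ε) ≤ δ ^ (-ε) :=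
      Real.rpow_le_rpow_of_nonpos hδ hj (by linarith)
    refine le_trans (le_of_eq ?_) h2
    rw [hr, ← Real.rpow_natCast, ← Real.rpow_mul (by norm_num), one_div, inv_pow,
      Real.inv_rpow (by positivity), Real.rpow_neg (by positivity), inv_inv,
      ← Real.rpow_natCast, ← Real.rpow_mul (by norm_num), mul_comm]
  have h3 : (((j + 1 : ℕ) : ℝ≥0∞) + 1) ^ e = ENNReal.ofReal (((j + 2 : ℕ) : ℝ) ^ e) := by
    rw [ENNReal.ofReal_pow (by positivity), ENNReal.ofReal_natCast]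
    push_cast
    rw [add_assoc, one_add_one_eq_two]
  have h6 : C * ENNReal.ofReal (((j + 2 : ℕ) : ℝ) ^ e)
      = ENNReal.ofReal (C.toReal * ((j + 2 : ℕ) : ℝ) ^ e) := by
    rw [ENNReal.ofReal_mul ENNReal.toReal_nonneg, ENNReal.ofReal_toReal hC]
  rw [h3, h6]
  apply ENNReal.ofReal_le_ofReal
  have h4 := hB' (j + 2)
  have h5 : 0 ≤ C.toReal := ENNReal.toReal_nonneg
  calc C.toReal * ((j + 2 : ℕ) : ℝ) ^ e ≤ C.toReal * (B * r ^ (j + 2)) := by gcongr
    _ = C.toReal * B * r ^ 2 * r ^ j := by ring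
    _ ≤ max 1 (C.toReal * B * r ^ 2) * δ ^ (-ε) := by
        gcongr
        exact le_max_right _ _

theorem to_eLpNorm {n : ℕ} (hn : 1 ≤ n) {δ : ℝ} {f : EuclideanSpace ℝ (Fin n) → ℝ}
    {H : sphere (0 : EuclideanSpace ℝ (Fin n)) 1 → ℝ≥0∞} (hH : Measurable H)
    (hfH : ∀ e, kakeyaMax δ f e ^ n ≤ H e) {X : ℝ} (hX : 1 ≤ X)
    (hint : ∫⁻ e, H e ∂(volume.toSphere) ≤ ENNReal.ofReal X * ∫⁻ x, ‖f x‖ₑ ^ n) :
    ∃ G : sphere (0 : EuclideanSpace ℝ (Fin n)) 1 → ℝ≥0∞, Measurable G ∧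
      (∀ e, kakeyaMax δ f e ≤ G e) ∧
      eLpNorm G n (volume.toSphere) ≤ ENNReal.ofReal X * eLpNorm f n volume := by
  have hn0 : n ≠ 0 := by omega
  have hn0' : (n : ℝ≥0∞) ≠ 0 := Nat.cast_ne_zero.2 hn0
  have hnpos : (0 : ℝ) < n := Nat.cast_pos.2 (by omega)
  refine ⟨fun e => H e ^ ((n : ℝ)⁻¹), hH.pow_const _, fun e => ?_, ?_⟩
  · have h1 : (H e ^ ((n : ℝ)⁻¹)) ^ n = H e := ENNReal.rpow_inv_natCast_pow hn0 _
    have h2 := hfH e
    rw [← h1] at h2
    exact (ENNReal.pow_le_pow_left_iff hn0).1 h2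
  · rw [eLpNorm_eq_lintegral_rpow_enorm_toReal hn0' (ENNReal.natCast_ne_top n),
      eLpNorm_eq_lintegral_rpow_enorm_toReal hn0' (ENNReal.natCast_ne_top n)]
    simp only [ENNReal.toReal_natCast, enorm_eq_self, ENNReal.rpow_natCast,
      ENNReal.rpow_inv_natCast_pow hn0]
    refine (ENNReal.rpow_le_rpow hint (by positivity)).trans ?_
    rw [ENNReal.mul_rpow_of_nonneg _ _ (by positivity)]
    gcongr
    refine (ENNReal.rpow_le_rpow_of_exponent_le (ENNReal.one_le_ofReal.2 hX)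
      (show 1 / (n : ℝ) ≤ 1 from ?_)).trans (le_of_eq (ENNReal.rpow_one _))
    rw [div_le_one hnpos]
    exact_mod_cast hn

section radial

variable {V : Type*} [NormedAddCommGroup V] [NormedSpace ℝ V] [FiniteDimensional ℝ V]
  [MeasureSpace V] [BorelSpace V] [(volume : Measure V).IsAddHaarMeasure]

/-- The weak type constant for radial level sets. -/
noncomputable def radialConst (d : ℕ) (κ : ℝ) (m : ℕ) : ℝ≥0∞ :=
  (2 * m + 3) * ENNReal.ofReal (3072 * κ ^ d * 48 ^ d) * ENNReal.ofReal κ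

theorem polyBd_radialConst (d : ℕ) (κ : ℝ) : PolyBd (radialConst d κ) :=
  ((((PolyBd.const ENNReal.ofNat_ne_top).mul .id).add (.const ENNReal.ofNat_ne_top)).mul
    (.const ENNReal.ofReal_ne_top)).mul (.const ENNReal.ofReal_ne_top)

theorem radial_majorant {d : ℕ} (hd : 2 ≤ d) (hdim : Module.finrank ℝ V = d) {κ : ℝ}
    (π : Measure V) [IsProbabilityMeasure π] {m : ℕ} {c : ℝ≥0∞}
    (hπ : π ≤ (c * 2 ^ (m * d)) • volume) (Ω : Set V) {f : V → ℝ} (hf : LevelRadial κ f)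
    {h : V → ℝ≥0∞} (hh : Measurable h)
    (hlev : ∀ s : ℝ≥0∞, s ≠ 0 → s ≠ ∞ → ∃ s' : ℝ, 0 < s' ∧ {x | s ≤ h x} = {x | s' ≤ |f x|}) :
    ∃ G : V → ℝ≥0∞, Measurable G ∧ (∀ a v, (∫⁻ x, h x ∂lineMeas π a v) ^ d ≤ G v) ∧
      ∫⁻ v in Ω, G v ≤ levelConst d m c (radialConst d κ m) (volume Ω) * ∫⁻ x, h x ^ d := by
  have key := levels volume (volume.restrict Ω) (lineMeas π) (fun a v => prob_le_one) hd c
    (radialConst d κ m) (lineMeas_le volume π hπ) hh (fun s hs0 hs i hi => by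
      obtain ⟨s', hs', hE⟩ := hlev s hs0 hs
      obtain ⟨φ, x0, A, ⟨h1, h2, h3, h4⟩, hA, hsub, hvol⟩ := hf s' hs'
      rw [hE]
      have hw := weak_type (μ := volume) h1 h2 h3 h4 (by omega) x0 hA i
      have hEm : MeasurableSet {x | φ (x - x0) ∈ A} :=
        ((continuous_of_convexOn h1).measurable.comp (measurable_id.sub_const x0)) hA
      have hsub2 : {v | ∃ a, 2⁻¹ ^ i < lineMeas π a v {x | s' ≤ |f x|}}
          ⊆ Time {x | φ (x - x0) ∈ A} ((1 / 2) ^ i) := by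
        rintro v ⟨a, ha⟩
        by_contra hv
        simp only [Time, mem_ofPred_eq, not_exists, not_lt] at hv
        have h5 := lineMeas_le_of_time π hEm hv a
        have h6 : ENNReal.ofReal ((1 / 2) ^ i) = 2⁻¹ ^ i := by
          rw [ENNReal.ofReal_pow (by norm_num), one_div, ENNReal.ofReal_inv_of_pos two_pos,
            ENNReal.ofReal_ofNat]
        rw [h6] at h5
        exact absurd (ha.trans_le ((measure_mono hsub).trans h5)) (lt_irrefl _)
      refine (Measure.restrict_le_self _).trans ((measure_mono hsub2).trans (hw.trans ?_))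
      rw [hdim]
      have h7 : ENNReal.ofReal ((i + 3) * (3072 * κ ^ d * 48 ^ d * (2 ^ i) ^ d))
          ≤ (2 * m + 3) * ENNReal.ofReal (3072 * κ ^ d * 48 ^ d) * (2 ^ i) ^ d := by
        rw [ENNReal.ofReal_mul (by positivity), ENNReal.ofReal_mul' (by positivity),
          mul_assoc (2 * (m : ℝ≥0∞) + 3)]
        refine mul_le_mul' ?_ (mul_le_mul' le_rfl (le_of_eq ?_))
        · rw [ENNReal.ofReal_add (by positivity) (by positivity), ENNReal.ofReal_natCast,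
            ENNReal.ofReal_ofNat]
          refine add_le_add ?_ le_rfl
          exact_mod_cast hi.le
        · rw [ENNReal.ofReal_pow (by positivity), ENNReal.ofReal_pow (by positivity),
            ENNReal.ofReal_ofNat]
      calc _ ≤ ((2 * m + 3) * ENNReal.ofReal (3072 * κ ^ d * 48 ^ d) * (2 ^ i) ^ d)
            * (ENNReal.ofReal κ * volume {x | s' ≤ |f x|}) := mul_le_mul' h7 hvol
        _ = _ := by unfold radialConst; ring)
  rwa [Measure.restrict_apply_univ] at key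

/-- The uniform probability measure on a ball centred at the origin. -/
noncomputable def ballMeas (V : Type*) [NormedAddCommGroup V] [MeasureSpace V] (r : ℝ) :
    Measure V :=
  (volume (ball (0 : V) r))⁻¹ • volume.restrict (ball (0 : V) r)

omit [BorelSpace V] in
theorem ballMeas_prob {r : ℝ} (hr : 0 < r) : IsProbabilityMeasure (ballMeas V r) := by
  refine ⟨?_⟩
  rw [ballMeas, Measure.smul_apply, Measure.restrict_apply_univ, smul_eq_mul]
  exact ENNReal.inv_mul_cancel (measure_ball_pos _ _ hr).ne' measure_ball_lt_top.ne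

omit [NormedSpace ℝ V] [FiniteDimensional ℝ V] [(volume : Measure V).IsAddHaarMeasure] in
theorem ballMeas_ae (r : ℝ) : ∀ᵐ w ∂(ballMeas V r), ‖w‖ < r := by
  refine Measure.ae_smul_measure ?_ _
  filter_upwards [ae_restrict_mem measurableSet_ball] with w hw
  exact mem_ball_zero_iff.1 hw

theorem ballMeas_le {r r0 : ℝ} {m d : ℕ} (hdim : Module.finrank ℝ V = d) (hr0 : 0 < r0)
    (hr : r0 * (1 / 2) ^ m ≤ r) :
    ballMeas V r ≤ ((volume (ball (0 : V) r0))⁻¹ * 2 ^ (m * d)) • volume := by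
  refine Measure.le_iff'.2 fun E => ?_
  rw [ballMeas, Measure.smul_apply, Measure.smul_apply, smul_eq_mul, smul_eq_mul]
  refine mul_le_mul' ?_ (Measure.restrict_le_self _)
  have h1 : volume (ball (0 : V) ((1 / 2) ^ m * r0))
      = ENNReal.ofReal (((1 / 2) ^ m) ^ d) * volume (ball (0 : V) r0) := by
    rw [Measure.addHaar_ball_mul_of_pos _ _ (by positivity), hdim]
  have h2 : ENNReal.ofReal (((1 / 2) ^ m) ^ d) = (2 ^ (m * d))⁻¹ := by
    rw [← pow_mul, ENNReal.ofReal_pow (by norm_num), one_div, ENNReal.ofReal_inv_of_pos two_pos,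
      ENNReal.ofReal_ofNat, ENNReal.inv_pow]
  calc (volume (ball (0 : V) r))⁻¹ ≤ (volume (ball (0 : V) ((1 / 2) ^ m * r0)))⁻¹ := by
        rw [ENNReal.inv_le_inv]
        exact measure_mono (ball_subset_ball (by linarith))
    _ = _ := by
        rw [h1, h2, ENNReal.mul_inv (Or.inr measure_ball_lt_top.ne)
          (Or.inr (measure_ball_pos _ _ hr0).ne'), inv_inv, mul_comm]

end radial

theorem kakeya_levelRadial {n : ℕ} (hn : 2 ≤ n) {ε : ℝ} (hε : 0 < ε) (κ : ℝ) :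
    ∃ C : ℝ, ∀ f : EuclideanSpace ℝ (Fin n) → ℝ, Measurable f → LevelRadial κ f →
      ∀ δ : ℝ, 0 < δ → δ < 1 →
      ∃ G : sphere (0 : EuclideanSpace ℝ (Fin n)) 1 → ℝ≥0∞, Measurable G ∧
        (∀ e, kakeyaMax δ f e ≤ G e) ∧
        eLpNorm G n (volume.toSphere) ≤ ENNReal.ofReal (C * δ ^ (-ε)) * eLpNorm f n volume := by
  set c : ℝ≥0∞ := (volume (ball (0 : EuclideanSpace ℝ (Fin n)) (1 / 2)))⁻¹ with hc
  have hct : c ≠ ∞ := ENNReal.inv_ne_top.2 (measure_ball_pos _ _ (by norm_num)).ne'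
  have hpoly : PolyBd fun m => (n : ℝ≥0∞) * (3 ^ n) ^ n * levelConst n m c (radialConst n κ m)
      (volume (ball (0 : EuclideanSpace ℝ (Fin n)) 1)) :=
    (PolyBd.const (ENNReal.mul_ne_top (ENNReal.natCast_ne_top n) (ENNReal.pow_ne_top
      (ENNReal.pow_ne_top ENNReal.ofNat_ne_top)))).mul
      (PolyBd.levelConst n hct measure_ball_lt_top.ne (polyBd_radialConst n κ))
  obtain ⟨C, hC1, hC⟩ := hpoly.absorb hε
  refine ⟨C, fun f hf hrad δ hδ0 hδ1 => ?_⟩
  obtain ⟨j, hj1, hj2⟩ := exists_nat_pow_near_of_lt_one hδ0 hδ1.le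
    (by norm_num : (0 : ℝ) < 1 / 2) (by norm_num)
  have := ballMeas_prob (V := EuclideanSpace ℝ (Fin n)) (r := δ / 2) (by linarith)
  have hle := ballMeas_le (V := EuclideanSpace ℝ (Fin n)) (r := δ / 2) (r0 := 1 / 2) (m := j + 1)
    finrank_euclideanSpace_fin (by norm_num) (by linarith)
  obtain ⟨G, hGm, hG1, hG2⟩ := radial_majorant hn finrank_euclideanSpace_fin _ hle (ball 0 1) hrad
    hf.enorm (fun s hs0 hs => ⟨s.toReal, ENNReal.toReal_pos hs0 hs, by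
      ext x
      simp only [mem_ofPred_eq]
      rw [← Real.norm_eq_abs, ← ofReal_norm, ENNReal.le_ofReal_iff_toReal_le hs
        (norm_nonneg _)]⟩)
  obtain ⟨H, hHm, hH1, hH2⟩ := sphere_reduce (by omega) hδ1 _
    ((ballMeas_ae (δ / 2)).mono fun w hw => hw.le) hf hGm (fun v _ a => hG1 a v)
  have hX : 1 ≤ C * δ ^ (-ε) :=
    one_le_mul_of_one_le_of_one_le hC1 (Real.one_le_rpow_of_pos_of_le_one_of_nonpos hδ0 hδ1.le
      (by linarith))
  refine to_eLpNorm (by omega) hHm hH1 hX (hH2.trans ?_)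
  refine (mul_le_mul_right hG2 _).trans ?_
  rw [← mul_assoc]
  exact mul_le_mul_left (hC δ j hδ0 hj2) _

end Pool.Agent.MP_5168f5_an.H20
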