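import Pool.Agent.MP_5168f5_an.H20.Tensor

/-!
The Kakeya maximal bound for tensor products of functions of at most two variables and functions
with radial superlevel sets.
-/

open MeasureTheory Set Filter Topology Metric
open scoped ENNReal

namespace Pool.Agent.MP_5168f5_an.H20

theorem PolyBd.sum {ι : Type*} (S : Finset ι) {g : ι → ℕ → ℝ≥0∞} (h : ∀ i ∈ S, PolyBd (g i)) :
    PolyBd fun m => ∑ i ∈ S, g i m := by
  classical
  induction S using Finset.induction with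
  | empty => simpa using PolyBd.const (c := 0) (by simp)
  | insert i S hi ih =>
    simp only [Finset.sum_insert hi]
    exact (h i (Finset.mem_insert_self _ _)).add (ih fun j hj => h j (Finset.mem_insert_of_mem hj))

theorem LevelRadial.dilate {V : Type*} [NormedAddCommGroup V] [NormedSpace ℝ V]
    [FiniteDimensional ℝ V] [MeasureSpace V] [BorelSpace V] [(volume : Measure V).IsAddHaarMeasure]
    {κ : ℝ} {f : V → ℝ} (hf : LevelRadial κ f) {c : ℝ} (hc : c ≠ 0) :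
    LevelRadial κ (fun y => f (c • y)) := by
  intro s hs
  obtain ⟨φ, x0, A, ⟨h1, h2, h3, h4⟩, hA, hsub, hvol⟩ := hf s hs
  have hE : {x : V | φ (c • (x - c⁻¹ • x0)) ∈ A} = (fun y => c • y) ⁻¹' {x | φ (x - x0) ∈ A} := by
    ext x
    simp [smul_sub, smul_smul, hc]
  have hF : {x : V | s ≤ |f (c • x)|} = (fun y => c • y) ⁻¹' {x | s ≤ |f x|} := rfl
  refine ⟨fun z => φ (c • z), c⁻¹ • x0, A, ⟨⟨convex_univ, fun x _ y _ a b ha hb hab => ?_⟩,
    by simp [h2], fun x hx => h3 _ (smul_ne_zero hc hx), fun x => ?_⟩, hA, ?_, ?_⟩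
  · have := h1.2 (mem_univ (c • x)) (mem_univ (c • y)) ha hb hab
    rwa [smul_comm a c x, smul_comm b c y, ← smul_add] at this
  · simp only [smul_comm c (2 : ℝ) x]
    exact h4 _
  · rw [hE, hF]
    exact preimage_mono hsub
  · rw [hE, hF, Measure.addHaar_preimage_smul _ hc, Measure.addHaar_preimage_smul _ hc,
      mul_left_comm]
    exact mul_le_mul_right hvol _

/-- A constant that works for every block. -/
noncomputable def blockConst (n : ℕ) (κ : ℝ) (m : ℕ) : ℝ≥0∞ :=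
  1 + 4 * (m + 1) + levelConst 2 m (volume (ball (0 : ℝ × ℝ) 1))⁻¹ (2048 * (m + 1))
      (volume (ball (0 : ℝ × ℝ) 1))
    + ∑ d ∈ Finset.range (n + 1), levelConst d m (ENNReal.ofReal ((2 * 1) ^ d))⁻¹
      (radialConst d κ m) (ENNReal.ofReal ((2 * 1) ^ d))

theorem polyBd_blockConst (n : ℕ) (κ : ℝ) : PolyBd (blockConst n κ) := by
  unfold blockConst
  have h1 : PolyBd fun _ => (1 : ℝ≥0∞) := .const ENNReal.one_ne_top
  refine ((h1.add ((PolyBd.const ENNReal.ofNat_ne_top).mul (PolyBd.id.add h1))).add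
    (PolyBd.levelConst 2 (ENNReal.inv_ne_top.2 (measure_ball_pos _ _ one_pos).ne')
      measure_ball_lt_top.ne ((PolyBd.const ENNReal.ofNat_ne_top).mul (PolyBd.id.add h1)))).add
    (PolyBd.sum _ fun d _ => PolyBd.levelConst d (ENNReal.inv_ne_top.2 ?_) ENNReal.ofReal_ne_top
      (polyBd_radialConst d κ))
  rw [Ne, ENNReal.ofReal_eq_zero, not_le]
  positivity

theorem maj_block {ι : Type} [Fintype ι] {n : ℕ} (h0 : Fintype.card ι ≠ 0)
    (hn : Fintype.card ι ≤ n) {κ η : ℝ} {m : ℕ} (hη : (1 / 2) ^ m ≤ η) {g : (ι → ℝ) → ℝ}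
    (hg : Measurable g) (hcl : Fintype.card ι ≤ 2 ∨ LevelRadial κ g) {p : ℝ} (hp : 0 < p) :
    Maj (ι → ℝ) (Fintype.card ι) η (blockConst n κ m) (fun y => ‖g y‖ₑ ^ p) := by
  have hm : Measurable fun y => ‖g y‖ₑ ^ p := hg.enorm.pow_const p
  by_cases h1 : Fintype.card ι = 1
  · rw [h1]
    exact (maj_card_one h1 hη hm).mono (le_add_right (le_add_right le_add_self))
  by_cases h2 : Fintype.card ι = 2
  · rw [h2]
    exact (maj_card_two h2 hη hm).mono (le_add_right le_add_self)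
  have hrad : LevelRadial κ g := hcl.resolve_left (by omega)
  have hη0 : 0 < η := lt_of_lt_of_le (by positivity) hη
  have := ballMeas_prob (V := ι → ℝ) hη0
  have hle := ballMeas_le (V := ι → ℝ) (r := η) (r0 := 1) (m := m) (Module.finrank_fintype_fun_eq_card ℝ)
    one_pos (by linarith)
  obtain ⟨G, hG1, hG2, hG3⟩ := radial_majorant (by omega) (Module.finrank_fintype_fun_eq_card ℝ)
    _ hle (ball 0 1) hrad hm (fun s hs0 hs => by
      have hs1 : s ^ p⁻¹ ≠ ∞ := ENNReal.rpow_ne_top_of_nonneg (by positivity) hs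
      refine ⟨(s ^ p⁻¹).toReal, ENNReal.toReal_pos (by simp [hs0, hp, hs]) hs1, ?_⟩
      ext x
      simp only [mem_ofPred_eq]
      rw [← ENNReal.rpow_inv_le_iff hp, ← Real.norm_eq_abs, ← ofReal_norm,
        ENNReal.le_ofReal_iff_toReal_le hs1 (norm_nonneg _)])
  rw [Real.volume_pi_ball _ one_pos] at hG3
  refine Maj.mono ⟨G, hG1, fun v _ a => hG2 a v, hG3⟩ (le_add_left ?_)
  exact Finset.single_le_sum (f := fun d => levelConst d m (ENNReal.ofReal ((2 * 1) ^ d))⁻¹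
    (radialConst d κ m) (ENNReal.ofReal ((2 * 1) ^ d))) (fun _ _ => zero_le)
    (Finset.mem_range.2 (by omega))

theorem norm_toLp_le {n : ℕ} (w : Fin n → ℝ) :
    ‖(WithLp.toLp 2 w : EuclideanSpace ℝ (Fin n))‖ ≤ n * ‖w‖ := by
  rw [EuclideanSpace.norm_eq, Real.sqrt_le_left (by positivity)]
  calc ∑ i, ‖(WithLp.toLp 2 w : EuclideanSpace ℝ (Fin n)) i‖ ^ 2 ≤ ∑ _i : Fin n, ‖w‖ ^ 2 :=
        Finset.sum_le_sum fun i _ => pow_le_pow_left₀ (norm_nonneg _) (norm_le_pi_norm w i) 2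
    _ = n * ‖w‖ ^ 2 := by simp
    _ ≤ (n * ‖w‖) ^ 2 := by
        rw [mul_pow]
        gcongr
        exact_mod_cast Nat.le_self_pow two_ne_zero n

theorem kakeya_of_maj {n : ℕ} (hn : 1 ≤ n) {δ η M : ℝ} (hδ : δ < 1) (hη : 0 < η)
    (hM : M * η ≤ δ / 2) (e : EuclideanSpace ℝ (Fin n) ≃ₗ[ℝ] (Fin n → ℝ)) {c : ℝ≥0∞}
    (he : MeasurePreserving e volume (c • volume)) (he1 : ∀ x, ‖e x‖ ≤ ‖x‖)
    (he2 : ∀ w, ‖e.symm w‖ ≤ M * ‖w‖) (hM0 : 0 ≤ M) {g : (Fin n → ℝ) → ℝ} (hg : Measurable g)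
    {K : ℝ≥0∞} (hmaj : Maj (Fin n → ℝ) n η K (fun y => ‖g y‖ₑ)) :
    ∃ H : sphere (0 : EuclideanSpace ℝ (Fin n)) 1 → ℝ≥0∞, Measurable H ∧
      (∀ u, kakeyaMax δ (fun x => g (e x)) u ^ n ≤ H u) ∧
      ∫⁻ u, H u ∂(volume.toSphere) ≤ n * (3 ^ n) ^ n * K * ∫⁻ x, ‖g (e x)‖ₑ ^ n := by
  obtain ⟨G, hG1, hG2, hG3⟩ := hmaj
  have hs : Measurable e.symm := (e.symm.toLinearMap.continuous_of_finiteDimensional).measurable
  have := ballMeas_prob (V := Fin n → ℝ) hη
  set π := (ballMeas (Fin n → ℝ) η).map e.symm with hπ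
  have : IsProbabilityMeasure π := Measure.isProbabilityMeasure_map hs.aemeasurable
  have hmp : MeasurePreserving e π (ballMeas (Fin n → ℝ) η) := by
    refine ⟨he.measurable, ?_⟩
    rw [hπ, Measure.map_map he.measurable hs]
    have : (e : _ → _) ∘ e.symm = id := funext e.apply_symm_apply
    rw [this, Measure.map_id]
  have hae : ∀ᵐ w ∂π, ‖w‖ ≤ δ / 2 := by
    rw [hπ, ae_map_iff hs.aemeasurable (measurableSet_le (by fun_prop) (by fun_prop))]
    filter_upwards [ballMeas_ae η] with w hw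
    exact (he2 w).trans ((mul_le_mul_of_nonneg_left hw.le hM0).trans hM)
  obtain ⟨H, hH1, hH2, hH3⟩ := sphere_reduce hn hδ π hae (f := fun x => g (e x))
    (hg.comp he.measurable) (G := fun v => G (e v)) (hG1.comp he.measurable) (fun v hv a => by
      have h5 := lintegral_lineMeas_map e.toLinearMap hmp hg.enorm a v
      simp only [LinearEquiv.coe_coe] at h5
      rw [h5]
      exact hG2 (e v) ((he1 v).trans_lt hv) (e a))
  refine ⟨H, hH1, hH2, hH3.trans ?_⟩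
  rw [mul_assoc _ K]
  refine mul_le_mul_right ?_ _
  have hm : Measurable fun y => ‖g y‖ₑ ^ n := hg.enorm.pow_const n
  calc ∫⁻ v in ball 0 1, G (e v) ≤ ∫⁻ v in e ⁻¹' ball 0 1, G (e v) := by
        refine lintegral_mono_set fun v hv => ?_
        rw [mem_preimage, mem_ball_zero_iff]
        exact (he1 v).trans_lt (mem_ball_zero_iff.1 hv)
    _ = c * ∫⁻ v in ball 0 1, G v := by
        rw [(he.restrict_preimage measurableSet_ball).lintegral_comp hG1, Measure.restrict_smul,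
          lintegral_smul_measure, smul_eq_mul]
    _ ≤ c * (K * ∫⁻ y, ‖g y‖ₑ ^ n) := mul_le_mul_right hG3 _
    _ = _ := by rw [he.lintegral_comp hm, lintegral_smul_measure, smul_eq_mul, mul_left_comm]

theorem kakeya_tensor {n : ℕ} (hn : 2 ≤ n) {ε : ℝ} (hε : 0 < ε) (κ : ℝ) :
    ∃ C : ℝ, ∀ (k : ℕ) (b : Fin n → Fin k), Function.Surjective b →
      ∀ g : ∀ j, ({i // b i = j} → ℝ) → ℝ, (∀ j, Measurable (g j)) →
      (∀ j, Fintype.card {i // b i = j} ≤ 2 ∨ LevelRadial κ (g j)) →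
      ∀ L : EuclideanSpace ℝ (Fin n) ≃ₗ[ℝ] EuclideanSpace ℝ (Fin n),
      (∀ x, ‖L x‖ ≤ κ * ‖x‖ ∧ ‖x‖ ≤ κ * ‖L x‖) →
      ∀ δ : ℝ, 0 < δ → δ < 1 →
      ∃ G : sphere (0 : EuclideanSpace ℝ (Fin n)) 1 → ℝ≥0∞, Measurable G ∧
        (∀ e, kakeyaMax δ (fun x => ∏ j, g j (fun i => L x i)) e ≤ G e) ∧
        eLpNorm G n (volume.toSphere) ≤ ENNReal.ofReal (C * δ ^ (-ε)) *
          eLpNorm (fun x => ∏ j, g j (fun i => L x i)) n volume := by
  have hpoly : PolyBd fun m => (n : ℝ≥0∞) * (3 ^ n) ^ n * blockConst n κ m ^ n :=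
    (PolyBd.const (ENNReal.mul_ne_top (ENNReal.natCast_ne_top n) (ENNReal.pow_ne_top
      (ENNReal.pow_ne_top ENNReal.ofNat_ne_top)))).mul ((polyBd_blockConst n κ).pow n)
  obtain ⟨C, hC1, hC⟩ := hpoly.absorb hε
  set M : ℝ := max 1 (n * κ ^ 2) with hM
  have hM1 : 1 ≤ M := le_max_left _ _
  refine ⟨C * (2 * M) ^ ε, fun k b hb g hg hcl L hL δ hδ0 hδ1 => ?_⟩
  have hκ : 0 < κ := by
    have : Nontrivial (EuclideanSpace ℝ (Fin n)) :=
      Module.nontrivial_of_finrank_pos (R := ℝ) (by rw [finrank_euclideanSpace_fin]; omega)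
    obtain ⟨x, hx⟩ := exists_ne (0 : EuclideanSpace ℝ (Fin n))
    have h1 := (hL x).2
    have h2 := norm_pos_iff.2 hx
    by_contra h
    nlinarith [not_lt.mp h, norm_nonneg (L x)]
  set η := δ / (2 * M) with hη
  have hη0 : 0 < η := by positivity
  have hη1 : η < 1 := by
    rw [hη, div_lt_one (by positivity)]
    linarith
  obtain ⟨j, hj1, hj2⟩ := exists_nat_pow_near_of_lt_one hη0 hη1.le
    (by norm_num : (0 : ℝ) < 1 / 2) (by norm_num)
  set L' : EuclideanSpace ℝ (Fin n) ≃ₗ[ℝ] EuclideanSpace ℝ (Fin n) :=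
    L.trans (LinearEquiv.smulOfNeZero ℝ _ κ⁻¹ (inv_ne_zero hκ.ne')) with hL'
  have hL'x : ∀ x, L' x = κ⁻¹ • L x := fun x => rfl
  set e : EuclideanSpace ℝ (Fin n) ≃ₗ[ℝ] (Fin n → ℝ) :=
    L'.trans (WithLp.linearEquiv 2 ℝ (Fin n → ℝ)) with he
  have hex : ∀ x, e x = WithLp.ofLp (L' x) := fun x => rfl
  have hmp1 : MeasurePreserving L' volume
      (ENNReal.ofReal |(LinearMap.det L'.toLinearMap)⁻¹| • volume) :=
    ⟨L'.toLinearMap.continuous_of_finiteDimensional.measurable,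
      Measure.map_linearMap_addHaar_eq_smul_addHaar volume (LinearEquiv.isUnit_det' L').ne_zero⟩
  have hmp : MeasurePreserving e volume
      (ENNReal.ofReal |(LinearMap.det L'.toLinearMap)⁻¹| • volume) :=
    ((PiLp.volume_preserving_ofLp (Fin n)).smul_measure _).comp hmp1
  have he1 : ∀ x, ‖e x‖ ≤ ‖x‖ := by
    intro x
    rw [hex]
    refine (pi_norm_le_iff_of_nonneg (norm_nonneg _)).2 fun i => (PiLp.norm_apply_le _ i).trans ?_
    rw [hL'x, norm_smul, Real.norm_eq_abs, abs_of_pos (inv_pos.2 hκ), inv_mul_le_iff₀ hκ]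
    exact (hL x).1
  have he2 : ∀ w, ‖e.symm w‖ ≤ M * ‖w‖ := by
    intro w
    obtain ⟨x, rfl⟩ := e.surjective w
    rw [LinearEquiv.symm_apply_apply]
    have h1 := norm_toLp_le (e x)
    rw [hex, WithLp.toLp_ofLp, ← hex, hL'x, norm_smul, Real.norm_eq_abs,
      abs_of_pos (inv_pos.2 hκ), inv_mul_le_iff₀ hκ] at h1
    calc ‖x‖ ≤ κ * ‖L x‖ := (hL x).2
      _ ≤ κ * (κ * (n * ‖e x‖)) := by gcongr
      _ = n * κ ^ 2 * ‖e x‖ := by ring
      _ ≤ M * ‖e x‖ := by gcongr; exact le_max_right _ _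
  set g' : ∀ j, ({i // b i = j} → ℝ) → ℝ := fun j y => g j (κ • y) with hg'
  have hg'm : ∀ j, Measurable (g' j) := fun j => (hg j).comp (by fun_prop)
  have hcard : ∀ j, Fintype.card {i // b i = j} ≠ 0 := fun j => by
    obtain ⟨i, hi⟩ := hb j
    exact (Fintype.card_pos_iff.2 ⟨⟨i, hi⟩⟩).ne'
  have hmaj := maj_tensor b (by omega) hcard hη0 (K := blockConst n κ (j + 1))
    (g := fun j y => ‖g' j y‖ₑ) (fun j => (hg'm j).enorm) (fun i =>
      maj_block (hcard i) ((Fintype.card_subtype_le _).trans (Fintype.card_fin n).le) hj1.le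
        (hg'm i) ((hcl i).imp id fun h => h.dilate hκ.ne')
        (div_pos (Nat.cast_pos.2 (by omega)) (Nat.cast_pos.2 (Nat.pos_of_ne_zero (hcard i)))))
  have hk : k ≤ n := by simpa using Fintype.card_le_of_surjective b hb
  have hK1 : 1 ≤ blockConst n κ (j + 1) := le_add_right (le_add_right le_self_add)
  have hmaj2 : Maj (Fin n → ℝ) n η (blockConst n κ (j + 1) ^ n)
      (fun y => ‖∏ j, g' j (fun i => y i)‖ₑ) := by
    have h1 : (fun y : Fin n → ℝ => ‖∏ j, g' j (fun i => y i)‖ₑ)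
        = fun y => ∏ j, ‖g' j (fun i => y i)‖ₑ := by
      funext y
      simp only [← ofReal_norm, norm_prod]
      exact ENNReal.ofReal_prod_of_nonneg fun _ _ => norm_nonneg _
    rw [h1]
    exact hmaj.mono (pow_le_pow_right₀ hK1 hk)
  have hprodm : Measurable fun y : Fin n → ℝ => ∏ j, g' j (fun i => y i) :=
    Finset.measurable_prod _ fun j _ => (hg'm j).comp (by fun_prop)
  obtain ⟨H, hH1, hH2, hH3⟩ := kakeya_of_maj (by omega) hδ1 hη0
    (M := M) (by rw [hη]; field_simp; exact le_rfl) e hmp he1 he2 (by linarith) hprodm hmaj2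
  have hfun : (fun x => ∏ j, g' j (fun i => e x i)) = fun x => ∏ j, g j (fun i => L x i) := by
    funext x
    refine Finset.prod_congr rfl fun j _ => ?_
    simp only [hg']
    congr 1
    funext i
    rw [Pi.smul_apply, hex, hL'x]
    simp [hκ.ne']
  have hpow : η ^ (-ε) = (2 * M) ^ ε * δ ^ (-ε) := by
    rw [hη, Real.div_rpow hδ0.le (by positivity), Real.rpow_neg (by positivity : 0 ≤ 2 * M),
      div_inv_eq_mul, mul_comm]
  have hX : 1 ≤ C * η ^ (-ε) :=
    one_le_mul_of_one_le_of_one_le hC1 (Real.one_le_rpow_of_pos_of_le_one_of_nonpos hη0 hη1.le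
      (by linarith))
  rw [mul_assoc, ← hpow, ← hfun]
  exact to_eLpNorm (by omega) hH1 hH2 hX (hH3.trans (mul_le_mul_left (hC η j hη0 hj2) _))

end Pool.Agent.MP_5168f5_an.H20
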