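import Mathlib

/-!
One-dimensional lemmas: a convex function that spends a long time in a set `A` has a long segment
whose interval of values has large `A`-density.
-/

open MeasureTheory Set Filter Topology
open scoped ENNReal

namespace Pool.Agent.MP_5168f5_an.H20

theorem hasDerivAt_of_continuousAt {ψ : ℝ → ℝ} (hψ : ConvexOn ℝ univ ψ) {x : ℝ}
    (hx : ContinuousAt (fun y => derivWithin ψ (Ioi y) y) x) :
    HasDerivAt ψ (derivWithin ψ (Ioi x) x) x := by
  have hint : ∀ y : ℝ, y ∈ interior (univ : Set ℝ) := by simp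
  have hR := hψ.hasDerivWithinAt_rightDeriv_of_mem_interior (hint x)
  have hL := hψ.hasDerivWithinAt_leftDeriv_of_mem_interior (hint x)
  have h1 : derivWithin ψ (Iio x) x ≤ derivWithin ψ (Ioi x) x :=
    hψ.leftDeriv_le_rightDeriv_of_mem_interior (hint x)
  have h2 : derivWithin ψ (Ioi x) x ≤ derivWithin ψ (Iio x) x := by
    have ht : Tendsto (fun y => derivWithin ψ (Ioi y) y) (𝓝[<] x) (𝓝 (derivWithin ψ (Ioi x) x)) :=
      hx.tendsto.mono_left nhdsWithin_le_nhds
    refine le_of_tendsto ht ?_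
    filter_upwards [self_mem_nhdsWithin] with y hy
    exact (hψ.rightDeriv_le_slope_of_mem_interior (hint y) (mem_univ x) hy).trans
      (hψ.slope_le_leftDeriv_of_mem_interior (mem_univ y) (hint x) hy)
  have h3 : derivWithin ψ (Iio x) x = derivWithin ψ (Ioi x) x := le_antisymm h1 h2
  rw [h3] at hL
  have h4 := hL.union hR
  rw [Iio_union_Ioi] at h4
  rw [compl_eq_univ_sdiff, hasDerivWithinAt_sdiff_singleton] at h4
  exact hasDerivWithinAt_univ.mp h4

theorem density_transfer {ψ : ℝ → ℝ} (hψ : ConvexOn ℝ univ ψ) {m b : ℝ} (hmb : m ≤ b)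
    (hmono : MonotoneOn ψ (Icc m b)) {A : Set ℝ} (hA : MeasurableSet A) (β : ℝ≥0∞)
    (h : ∀ x ∈ Icc m b, β * ENNReal.ofReal (b - x) ≤ volume (ψ ⁻¹' A ∩ Icc x b)) :
    β * ENNReal.ofReal (ψ b - ψ m) ≤ volume (A ∩ Icc (ψ m) (ψ b)) := by
  set w : ℝ → ℝ := fun y => derivWithin ψ (Ioi y) y with hw
  have hwm : Monotone w := by
    have := hψ.monotoneOn_rightDeriv
    rw [interior_univ] at this
    exact monotoneOn_univ.mp this
  have hcont : Continuous ψ := by
    have := hψ.continuousOn isOpen_univ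
    exact continuousOn_univ.mp this
  set C : Set ℝ := {x | ¬ ContinuousAt w x} with hC
  have hCc : C.Countable := hwm.countable_not_continuousAt
  have hCm : MeasurableSet C := hCc.measurableSet
  have hC0 : volume C = 0 := hCc.measure_zero _
  set S : Set ℝ := Icc m b \ C with hS
  have hSm : MeasurableSet S := measurableSet_Icc.diff hCm
  set T : Set ℝ := ψ ⁻¹' A with hT
  have hTm : MeasurableSet T := hcont.measurable hA
  have hder : ∀ x ∈ S, HasDerivAt ψ (w x) x := fun x hx =>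
    hasDerivAt_of_continuousAt hψ (not_not.mp hx.2)
  have e1 : ∫⁻ x in S, ENNReal.ofReal (w x) = volume (ψ '' S) :=
    lintegral_deriv_eq_volume_image_of_monotoneOn hSm
      (fun x hx => (hder x hx).hasDerivWithinAt) (hmono.mono sdiff_subset)
  have e2 : ∫⁻ x in S ∩ T, ENNReal.ofReal (w x) = volume (ψ '' (S ∩ T)) :=
    lintegral_deriv_eq_volume_image_of_monotoneOn (hSm.inter hTm)
      (fun x hx => (hder x hx.1).hasDerivWithinAt)
      (hmono.mono (inter_subset_left.trans sdiff_subset))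
  have i1 : ENNReal.ofReal (ψ b - ψ m) ≤ volume (ψ '' S) := by
    rw [← Real.volume_Icc]
    have hsub : Icc (ψ m) (ψ b) ⊆ ψ '' S ∪ ψ '' C := by
      intro y hy
      obtain ⟨x, hx, rfl⟩ := intermediate_value_Icc hmb hcont.continuousOn hy
      by_cases hxC : x ∈ C
      · exact Or.inr ⟨x, hxC, rfl⟩
      · exact Or.inl ⟨x, ⟨hx, hxC⟩, rfl⟩
    refine (measure_mono hsub).trans ((measure_union_le _ _).trans ?_)
    rw [(hCc.image ψ).measure_zero volume, add_zero]
  have i2 : volume (ψ '' (S ∩ T)) ≤ volume (A ∩ Icc (ψ m) (ψ b)) := by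
    refine measure_mono ?_
    rintro _ ⟨x, ⟨hxS, hxT⟩, rfl⟩
    exact ⟨hxT, hmono (left_mem_Icc.2 hmb) hxS.1 hxS.1.1,
      hmono hxS.1 (right_mem_Icc.2 hmb) hxS.1.2⟩
  have i3 : β * ∫⁻ x in S, ENNReal.ofReal (w x) ≤ ∫⁻ x in S ∩ T, ENNReal.ofReal (w x) := by
    set g : ℝ → ℝ := fun x => max (w x) 0 with hg
    have hgm : Monotone g := fun x y hxy => max_le_max (hwm hxy) le_rfl
    have hgw : ∀ x, ENNReal.ofReal (w x) = ENNReal.ofReal (g x) := fun x => by
      simp [hg, ENNReal.ofReal_max]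
    simp_rw [hgw]
    have hg0 : ∀ x, (0 : ℝ → ℝ) x ≤ g x := fun x => le_max_right _ _
    rw [lintegral_eq_lintegral_meas_lt (f := g) _ (Eventually.of_forall hg0)
        hgm.measurable.aemeasurable,
      lintegral_eq_lintegral_meas_lt (f := g) _ (Eventually.of_forall hg0)
        hgm.measurable.aemeasurable]
    refine (lintegral_const_mul_le _ _).trans (lintegral_mono fun t => ?_)
    have hU : MeasurableSet {a : ℝ | t < g a} := measurableSet_lt measurable_const hgm.measurable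
    simp only
    rw [Measure.restrict_apply hU, Measure.restrict_apply hU]
    rcases ({a : ℝ | t < g a} ∩ Icc m b).eq_empty_or_nonempty with he | hne
    · have : {a : ℝ | t < g a} ∩ S = ∅ :=
        eq_empty_of_subset_empty (he ▸ inter_subset_inter_right _ sdiff_subset)
      simp [this]
    · have hbdd : BddBelow ({a : ℝ | t < g a} ∩ Icc m b) := ⟨m, fun x hx => hx.2.1⟩
      set x0 := sInf ({a : ℝ | t < g a} ∩ Icc m b) with hx0
      have hx0m : m ≤ x0 := le_csInf hne fun x hx => hx.2.1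
      have hx0b : x0 ≤ b := by
        obtain ⟨x, hx⟩ := hne
        exact (csInf_le hbdd hx).trans hx.2.2
      have s1 : {a : ℝ | t < g a} ∩ S ⊆ Icc x0 b := fun x hx =>
        ⟨csInf_le hbdd ⟨hx.1, hx.2.1⟩, hx.2.1.2⟩
      have s2 : T ∩ Icc x0 b ⊆ ({a : ℝ | t < g a} ∩ (S ∩ T)) ∪ (C ∪ {x0}) := by
        intro x hx
        by_cases hxC : x ∈ C
        · exact Or.inr (Or.inl hxC)
        rcases eq_or_lt_of_le hx.2.1 with he | hlt
        · exact Or.inr (Or.inr he.symm)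
        · obtain ⟨y, hy, hyx⟩ := exists_lt_of_csInf_lt hne hlt
          exact Or.inl ⟨lt_of_lt_of_le hy.1 (hgm hyx.le), ⟨⟨hx0m.trans hx.2.1, hx.2.2⟩, hxC⟩, hx.1⟩
      calc β * volume ({a : ℝ | t < g a} ∩ S) ≤ β * ENNReal.ofReal (b - x0) := by
            gcongr
            exact (measure_mono s1).trans Real.volume_Icc.le
        _ ≤ volume (T ∩ Icc x0 b) := h x0 ⟨hx0m, hx0b⟩
        _ ≤ volume ({a : ℝ | t < g a} ∩ (S ∩ T)) + volume (C ∪ {x0}) :=
            (measure_mono s2).trans (measure_union_le _ _)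
        _ = volume ({a : ℝ | t < g a} ∩ (S ∩ T)) := by
            rw [(hCc.union (countable_singleton x0)).measure_zero volume, add_zero]
  calc β * ENNReal.ofReal (ψ b - ψ m) ≤ β * volume (ψ '' S) := by gcongr
    _ = β * ∫⁻ x in S, ENNReal.ofReal (w x) := by rw [e1]
    _ ≤ ∫⁻ x in S ∩ T, ENNReal.ofReal (w x) := i3
    _ = volume (ψ '' (S ∩ T)) := e2
    _ ≤ _ := i2

theorem rising {T : Set ℝ} {t0 t1 L : ℝ} (hL : 0 < L)
    (hTL : ENNReal.ofReal L ≤ volume (T ∩ Icc t0 t1)) :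
    ∃ b : ℝ, 3 * L / 4 ≤ b ∧ t0 + b ≤ t1 ∧ ∀ x ∈ Icc (t0 + b / 2) (t0 + b),
      ENNReal.ofReal (L ^ 2 / (16 * b ^ 2)) * ENNReal.ofReal (t0 + b - x)
        ≤ volume (T ∩ Icc x (t0 + b)) := by
  have hfin : ∀ x y : ℝ, volume (T ∩ Icc x y) ≠ ∞ := fun x y =>
    ((measure_mono inter_subset_right).trans_lt measure_Icc_lt_top).ne
  set u : ℝ → ℝ := fun s => volume.real (T ∩ Icc t0 (t0 + s)) with hu
  have hadd : ∀ x y : ℝ, u x ≤ u y + volume.real (T ∩ Icc (t0 + y) (t0 + x)) := by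
    intro x y
    refine le_trans (measureReal_mono ?_ (measure_union_ne_top (hfin _ _) (hfin _ _)))
      (measureReal_union_le _ _)
    intro z hz
    rcases le_total z (t0 + y) with h | h
    · exact Or.inl ⟨hz.1, hz.2.1, h⟩
    · exact Or.inr ⟨hz.1, h, hz.2.2⟩
  have hle : ∀ x y : ℝ, volume.real (T ∩ Icc x y) ≤ max (y - x) 0 := fun x y => by
    rw [← Real.volume_real_Icc]
    exact measureReal_mono inter_subset_right measure_Icc_lt_top.ne
  have hlip : LipschitzWith 1 u := by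
    refine LipschitzWith.of_le_add fun x y => (hadd x y).trans ?_
    have h1 := hle (t0 + y) (t0 + x)
    have h2 : max (t0 + x - (t0 + y)) 0 ≤ dist x y := by
      rw [Real.dist_eq]
      refine max_le ?_ (abs_nonneg _)
      have := le_abs_self (x - y)
      linarith
    linarith
  have hL1 : L ≤ u (t1 - t0) := by
    have : t0 + (t1 - t0) = t1 := by ring
    simp only [hu, this]
    exact (ENNReal.ofReal_le_iff_le_toReal (hfin _ _)).mp hTL
  have hub : ∀ s : ℝ, 0 ≤ s → u s ≤ s := fun s hs => by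
    have := hle t0 (t0 + s)
    rw [add_sub_cancel_left, max_eq_left hs] at this
    exact this
  have h10 : 0 ≤ t1 - t0 := by
    by_contra hneg
    have h1 := hle t0 (t0 + (t1 - t0))
    rw [add_sub_cancel_left, max_eq_right (not_le.mp hneg).le] at h1
    have : u (t1 - t0) ≤ 0 := h1
    linarith
  have hL2 : L ≤ t1 - t0 := hL1.trans (hub _ h10)
  set G : ℝ → ℝ := fun s => u s + L ^ 2 / 16 * s⁻¹ with hG
  have hGc : ContinuousOn G (Icc (L / 4) (t1 - t0)) := by
    refine hlip.continuous.continuousOn.add (continuousOn_const.mul ?_)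
    exact continuousOn_inv₀.mono fun s hs => by
      have : 0 < s := lt_of_lt_of_le (by linarith) hs.1
      exact this.ne'
  obtain ⟨b, hb, hmax⟩ := isCompact_Icc.exists_isMaxOn
    (nonempty_Icc.2 (by linarith : L / 4 ≤ t1 - t0)) hGc
  have hb0 : 0 < b := lt_of_lt_of_le (by linarith) hb.1
  have hb3 : 3 * L / 4 ≤ b := by
    have h1 : G (t1 - t0) ≤ G b := hmax (right_mem_Icc.2 (by linarith))
    have h2 : 0 ≤ L ^ 2 / 16 * (t1 - t0)⁻¹ := by positivity
    have h3 : L ^ 2 / 16 * b⁻¹ ≤ L / 4 := by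
      rw [← div_eq_mul_inv, div_le_iff₀ hb0]
      have := hb.1
      nlinarith
    have h4 := hub b hb0.le
    simp only [hG] at h1
    linarith
  refine ⟨b, hb3, by linarith [hb.2], fun x hx => ?_⟩
  obtain ⟨s, rfl⟩ : ∃ s, x = t0 + s := ⟨x - t0, by ring⟩
  have hs1 : b / 2 ≤ s := by linarith [hx.1]
  have hs2 : s ≤ b := by linarith [hx.2]
  have hs0 : 0 < s := by linarith
  have h1 : G s ≤ G b := hmax ⟨by linarith, hs2.trans hb.2⟩
  have h2 := hadd b s
  rw [← ENNReal.ofReal_mul (by positivity), ENNReal.ofReal_le_iff_le_toReal (hfin _ _)]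
  have h3 : L ^ 2 / (16 * b ^ 2) * (t0 + b - (t0 + s)) ≤ L ^ 2 / 16 * s⁻¹ - L ^ 2 / 16 * b⁻¹ := by
    have e1 : L ^ 2 / 16 * s⁻¹ - L ^ 2 / 16 * b⁻¹ = L ^ 2 / 16 * ((b - s) / (s * b)) := by
      field_simp
    have e2 : L ^ 2 / (16 * b ^ 2) * (t0 + b - (t0 + s)) = L ^ 2 / 16 * ((b - s) / (b * b)) := by
      field_simp
      ring
    rw [e1, e2]
    gcongr
  simp only [hG] at h1
  have h4 : (volume (T ∩ Icc (t0 + s) (t0 + b))).toReal
    = volume.real (T ∩ Icc (t0 + s) (t0 + b)) := rfl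
  linarith

/-- A segment of half-length `l` centred at `m` on which `ψ` stays below `ψ m + 2 r`, and such
that `A` has density at least `L ^ 2 / (64 l ^ 2)` in the interval of values. -/
def Seg (ψ : ℝ → ℝ) (A : Set ℝ) (L : ℝ) : Prop :=
  ∃ m l r : ℝ, 3 * L / 8 ≤ l ∧ l ≤ 1 / 2 ∧ 0 < r ∧ ψ (m + l) ≤ ψ m + 2 * r ∧
    ψ (m - l) ≤ ψ m + 2 * r ∧
    ENNReal.ofReal (L ^ 2 / (64 * l ^ 2) * (2 * r)) ≤ volume (A ∩ Icc (ψ m) (ψ m + 2 * r))

theorem seg_right {ψ : ℝ → ℝ} (hψ : ConvexOn ℝ univ ψ) {A : Set ℝ} (hA : IsOpen A)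
    {t0 t1 L : ℝ} (hL : 0 < L) (h01 : t1 ≤ t0 + 1) (hmin : ∀ x ∈ Icc t0 t1, ψ t0 ≤ ψ x)
    (hTL : ENNReal.ofReal L ≤ volume (ψ ⁻¹' A ∩ Icc t0 t1)) : Seg ψ A L := by
  obtain ⟨b, hb3, hb1, hb⟩ := rising hL hTL
  have hb0 : 0 < b := by linarith
  have hmono : MonotoneOn ψ (Icc t0 t1) := by
    intro x hx y hy hxy
    have h1 : ψ x ≤ max (ψ t0) (ψ y) :=
      hψ.le_max_of_mem_Icc (mem_univ _) (mem_univ _) ⟨hx.1, hxy⟩
    rwa [max_eq_right (hmin y hy)] at h1
  have hsub : Icc (t0 + b / 2) (t0 + b) ⊆ Icc t0 t1 := Icc_subset_Icc (by linarith) hb1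
  have hd := density_transfer hψ (by linarith : t0 + b / 2 ≤ t0 + b) (hmono.mono hsub)
    hA.measurableSet _ hb
  have hm1 : ψ (t0 + b / 2) ≤ ψ (t0 + b) :=
    hmono ⟨by linarith, by linarith⟩ ⟨by linarith, hb1⟩ (by linarith)
  have hm0 : ψ t0 ≤ ψ (t0 + b / 2) := hmin _ ⟨by linarith, by linarith⟩
  have e1 : t0 + b / 2 + b / 2 = t0 + b := by ring
  have e2 : t0 + b / 2 - b / 2 = t0 := by ring
  have e3 : L ^ 2 / (64 * (b / 2) ^ 2) = L ^ 2 / (16 * b ^ 2) := by ring
  rcases eq_or_lt_of_le hm1 with heq | hlt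
  · have hne : (ψ ⁻¹' A ∩ Icc (t0 + b / 2) (t0 + b)).Nonempty := by
      refine nonempty_of_measure_ne_zero (μ := volume) (ne_of_gt (lt_of_lt_of_le ?_
        (hb _ (left_mem_Icc.2 (by linarith)))))
      rw [← ENNReal.ofReal_mul (by positivity), ENNReal.ofReal_pos]
      have : 0 < t0 + b - (t0 + b / 2) := by linarith
      positivity
    obtain ⟨t, htA, ht⟩ := hne
    have hts : ψ t = ψ (t0 + b / 2) := by
      refine le_antisymm ?_ (hmono ⟨by linarith, by linarith⟩ (hsub ht) ht.1)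
      rw [heq]
      exact hmono (hsub ht) ⟨by linarith, hb1⟩ ht.2
    have hsA : ψ (t0 + b / 2) ∈ A := hts ▸ htA
    obtain ⟨ρ, hρ, hball⟩ := Metric.isOpen_iff.mp hA _ hsA
    refine ⟨t0 + b / 2, b / 2, ρ / 4, by linarith, by linarith, by linarith, ?_, ?_, ?_⟩
    · rw [e1]; linarith
    · rw [e2]; linarith
    · have hI : Icc (ψ (t0 + b / 2)) (ψ (t0 + b / 2) + 2 * (ρ / 4)) ⊆ A := by
        intro y hy
        apply hball
        rw [Real.ball_eq_Ioo]
        exact ⟨by linarith [hy.1], by linarith [hy.2]⟩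
      rw [inter_eq_right.mpr hI, Real.volume_Icc, e3]
      apply ENNReal.ofReal_le_ofReal
      have h1 : L ^ 2 / (16 * b ^ 2) ≤ 1 := by
        rw [div_le_one (by positivity)]
        nlinarith
      nlinarith
  · refine ⟨t0 + b / 2, b / 2, (ψ (t0 + b) - ψ (t0 + b / 2)) / 2, by linarith, by linarith,
      by linarith, ?_, ?_, ?_⟩
    · rw [e1]; linarith
    · rw [e2]; linarith
    · have e4 : 2 * ((ψ (t0 + b) - ψ (t0 + b / 2)) / 2) = ψ (t0 + b) - ψ (t0 + b / 2) := by ring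
      rw [e3, e4, add_sub_cancel, ENNReal.ofReal_mul (by positivity)]
      exact hd

theorem seg_of_time {ψ : ℝ → ℝ} (hψ : ConvexOn ℝ univ ψ) {A : Set ℝ} (hA : IsOpen A)
    {L : ℝ} (hL : 0 < L)
    (hTL : ENNReal.ofReal (2 * L) < volume (ψ ⁻¹' A ∩ Icc (-1 / 2) (1 / 2))) : Seg ψ A L := by
  have hcont : Continuous ψ := by
    have := hψ.continuousOn isOpen_univ
    exact continuousOn_univ.mp this
  obtain ⟨t0, ht0, hmin⟩ := isCompact_Icc.exists_isMinOn
    (nonempty_Icc.2 (by norm_num : (-1 / 2 : ℝ) ≤ 1 / 2)) hcont.continuousOn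
  by_cases h : ENNReal.ofReal L ≤ volume (ψ ⁻¹' A ∩ Icc t0 (1 / 2))
  · exact seg_right hψ hA hL (by linarith [ht0.1])
      (fun x hx => hmin ⟨ht0.1.trans hx.1, hx.2⟩) h
  · have h2 : ENNReal.ofReal L ≤ volume (ψ ⁻¹' A ∩ Icc (-1 / 2) t0) := by
      by_contra h2
      have hsub : ψ ⁻¹' A ∩ Icc (-1 / 2) (1 / 2)
          ⊆ (ψ ⁻¹' A ∩ Icc (-1 / 2) t0) ∪ (ψ ⁻¹' A ∩ Icc t0 (1 / 2)) := by
        intro z hz
        rcases le_total z t0 with h | h
        · exact Or.inl ⟨hz.1, hz.2.1, h⟩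
        · exact Or.inr ⟨hz.1, h, hz.2.2⟩
      have h3 := (measure_mono (μ := volume) hsub).trans (measure_union_le _ _)
      have h4 := add_le_add (not_le.mp h2).le (not_le.mp h).le
      rw [← ENNReal.ofReal_add hL.le hL.le, ← two_mul] at h4
      exact absurd (hTL.trans_le (h3.trans h4)) (lt_irrefl _)
    have hψ' : ConvexOn ℝ univ (fun t => ψ (-t)) := by
      refine ⟨convex_univ, fun x _ y _ a b ha hb hab => ?_⟩
      have := hψ.2 (mem_univ (-x)) (mem_univ (-y)) ha hb hab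
      simpa [add_comm] using this
    have h3 : ENNReal.ofReal L ≤ volume ((fun t => ψ (-t)) ⁻¹' A ∩ Icc (-t0) (1 / 2)) := by
      have : (fun t => ψ (-t)) ⁻¹' A ∩ Icc (-t0) (1 / 2) = -(ψ ⁻¹' A ∩ Icc (-1 / 2) t0) := by
        ext z
        simp only [mem_inter_iff, mem_preimage, mem_Icc, Set.mem_neg]
        constructor
        · rintro ⟨h1, h2, h3⟩
          exact ⟨h1, by linarith, by linarith⟩
        · rintro ⟨h1, h2, h3⟩
          exact ⟨h1, by linarith, by linarith⟩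
      rw [this, Measure.measure_neg]
      exact h2
    obtain ⟨m, l, r, h1, h2, h3, h4, h5, h6⟩ := seg_right hψ' hA hL (by linarith [ht0.2])
      (fun x hx => by
        have : ψ t0 ≤ ψ (-x) := hmin ⟨by linarith [hx.2], by linarith [hx.1, ht0.2]⟩
        simpa using this) h3
    refine ⟨-m, l, r, h1, h2, h3, ?_, ?_, h6⟩
    · have : -m + l = -(m - l) := by ring
      rw [this]; exact h5
    · have : -m - l = -(m + l) := by ring
      rw [this]; exact h4

end Pool.Agent.MP_5168f5_an.H20
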