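import Pool.Agent.MP_5168f5_an.H20.Final

/-!
The planar estimate (Cordoba's argument) in vector form.
-/

open MeasureTheory Set Filter Topology Metric
open scoped ENNReal

namespace Pool.Agent.MP_5168f5_an.H20

theorem vol_line_le {V : Type*} [NormedAddCommGroup V] [NormedSpace ℝ V] (z : V) {v : V}
    (hv : v ≠ 0) (ρ : ℝ) :
    volume {t : ℝ | ‖z + t • v‖ ≤ ρ} ≤ ENNReal.ofReal (2 * ρ / ‖v‖) := by
  refine (Real.volume_le_diam _).trans (Metric.ediam_le fun x hx y hy => ?_)
  rw [edist_dist]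
  apply ENNReal.ofReal_le_ofReal
  have hn : 0 < ‖v‖ := norm_pos_iff.2 hv
  rw [le_div_iff₀ hn, Real.dist_eq, ← Real.norm_eq_abs, ← norm_smul]
  have : (x - y) • v = (z + x • v) - (z + y • v) := by module
  rw [this]
  have h1 := norm_sub_le (z + x • v) (z + y • v)
  have h2 : ‖z + x • v‖ ≤ ρ := hx
  have h3 : ‖z + y • v‖ ≤ ρ := hy
  linarith

section kernel

variable {V : Type*} [NormedAddCommGroup V] [NormedSpace ℝ V] [FiniteDimensional ℝ V]
  [MeasureSpace V] [BorelSpace V] [(volume : Measure V).IsAddHaarMeasure]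

/-- Indicator function of a ball centred at the origin. -/
noncomputable def chi (r : ℝ) (x : V) : ℝ≥0∞ := (ball (0 : V) r).indicator 1 x

omit [NormedSpace ℝ V] [FiniteDimensional ℝ V] [(volume : Measure V).IsAddHaarMeasure] in
@[fun_prop]
theorem measurable_chi (r : ℝ) : Measurable (chi r : V → ℝ≥0∞) :=
  measurable_one.indicator measurableSet_ball

omit [NormedSpace ℝ V] [FiniteDimensional ℝ V] [MeasureSpace V] [BorelSpace V]
  [(volume : Measure V).IsAddHaarMeasure] in
theorem chi_of_lt {r : ℝ} {x : V} (h : ‖x‖ < r) : chi r x = 1 :=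
  indicator_of_mem (mem_ball_zero_iff.2 h) _

omit [NormedSpace ℝ V] [FiniteDimensional ℝ V] [MeasureSpace V] [BorelSpace V]
  [(volume : Measure V).IsAddHaarMeasure] in
theorem chi_of_not_lt {r : ℝ} {x : V} (h : ¬ ‖x‖ < r) : chi r x = 0 :=
  indicator_of_notMem (fun h' => h (mem_ball_zero_iff.1 h')) _

/-- The time the segment spends within distance `r` of `y`. -/
noncomputable def Jk (r : ℝ) (a v y : V) : ℝ≥0∞ :=
  ∫⁻ t in Icc (-1 / 2 : ℝ) (1 / 2), chi r (y - (a + t • v))

omit [(volume : Measure V).IsAddHaarMeasure] in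
theorem measurable_Jk {X : Type*} [MeasurableSpace X] (r : ℝ) {a v y : X → V} (ha : Measurable a)
    (hv : Measurable v) (hy : Measurable y) : Measurable fun x => Jk r (a x) (v x) (y x) := by
  have : Measurable fun q : X × ℝ => chi r (y q.1 - (a q.1 + q.2 • v q.1)) := by fun_prop
  exact this.lintegral_prod_right'

theorem lineMeas_ball_eq (η : ℝ) (a v : V) {E : Set V} (hE : MeasurableSet E) :
    lineMeas (ballMeas V η) a v E = (volume (ball (0 : V) η))⁻¹ * ∫⁻ y in E, Jk η a v y := by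
  have h1 : ∫⁻ y in E, Jk η a v y
      = ∫⁻ t in Icc (-1 / 2 : ℝ) (1 / 2), ∫⁻ y in E, chi η (y - (a + t • v)) := by
    unfold Jk
    refine lintegral_lintegral_swap (Measurable.aemeasurable ?_)
    change Measurable fun q : V × ℝ => chi η (q.1 - (a + q.2 • v))
    fun_prop
  have hm : Measurable fun t : ℝ => ∫⁻ y in E, chi η (y - (a + t • v)) := by
    have : Measurable fun q : ℝ × V => chi η (q.2 - (a + q.1 • v)) := by fun_prop
    exact this.lintegral_prod_right'
  have : SFinite (ballMeas V η) := by unfold ballMeas; infer_instance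
  rw [h1, ← lintegral_const_mul _ hm, lineMeas, Measure.map_apply (measurable_line a v) hE,
    Measure.prod_apply_symm (measurable_line a v hE)]
  refine lintegral_congr fun t => ?_
  rw [ballMeas, Measure.smul_apply, smul_eq_mul]
  congr 1
  rw [Measure.restrict_apply' measurableSet_ball, ← lintegral_indicator hE,
    ← lintegral_add_left_eq_self _ (a + t • v), ← lintegral_indicator_one]
  · refine lintegral_congr fun w => ?_
    by_cases h1 : a + t • v + w ∈ E
    · by_cases h2 : w ∈ ball (0 : V) η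
      · rw [indicator_of_mem h1, indicator_of_mem (by exact ⟨h1, h2⟩), add_sub_cancel_left,
          chi_of_lt (mem_ball_zero_iff.1 h2)]
        rfl
      · rw [indicator_of_mem h1, indicator_of_notMem (fun h => h2 h.2), add_sub_cancel_left,
          chi_of_not_lt (fun h => h2 (mem_ball_zero_iff.2 h))]
    · rw [indicator_of_notMem h1, indicator_of_notMem (fun h => h1 h.1)]
  · exact ((measurable_line a v hE).preimage (by fun_prop)).inter measurableSet_ball

omit [FiniteDimensional ℝ V] [MeasureSpace V] [BorelSpace V]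
  [(volume : Measure V).IsAddHaarMeasure] in
theorem Jk_le {η : ℝ} {a q : V} (h : ‖a - q‖ < η) (v y : V) : Jk η a v y ≤ Jk (2 * η) q v y := by
  refine lintegral_mono fun t => ?_
  by_cases h1 : ‖y - (a + t • v)‖ < η
  · rw [chi_of_lt h1, chi_of_lt]
    have : y - (q + t • v) = (y - (a + t • v)) + (a - q) := by module
    rw [this]
    linarith [norm_add_le (y - (a + t • v)) (a - q)]
  · rw [chi_of_not_lt h1]
    exact zero_le

theorem kernel_le (r : ℝ) (a v a' v' : V) :
    ∫⁻ y, Jk r a v y * Jk r a' v' y ≤ volume (ball (0 : V) r) *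
      ∫⁻ t' in Icc (-1 / 2 : ℝ) (1 / 2), ∫⁻ t in Icc (-1 / 2 : ℝ) (1 / 2),
        chi (2 * r) ((a - (a' + t' • v')) + t • v) := by
  set P := (volume.restrict (Icc (-1 / 2 : ℝ) (1 / 2))).prod
    (volume.restrict (Icc (-1 / 2 : ℝ) (1 / 2))) with hP
  have h1 : ∀ y, Jk r a v y * Jk r a' v' y
      = ∫⁻ z, chi r (y - (a' + z.1 • v')) * chi r (y - (a + z.2 • v)) ∂P := by
    intro y
    rw [mul_comm]
    exact (lintegral_prod_mul (f := fun t : ℝ => chi r (y - (a' + t • v')))
      (g := fun t : ℝ => chi r (y - (a + t • v))) (by fun_prop) (by fun_prop)).symm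
  simp_rw [h1]
  rw [lintegral_lintegral_swap (Measurable.aemeasurable (by
    change Measurable fun q : V × (ℝ × ℝ) =>
      chi r (q.1 - (a' + q.2.1 • v')) * chi r (q.1 - (a + q.2.2 • v))
    fun_prop))]
  have hm : Measurable fun z : ℝ × ℝ => chi (2 * r) ((a - (a' + z.1 • v')) + z.2 • v) := by
    fun_prop
  rw [← lintegral_prod _ hm.aemeasurable, ← lintegral_const_mul _ hm]
  refine lintegral_mono fun z => ?_
  by_cases h2 : ‖(a - (a' + z.1 • v')) + z.2 • v‖ < 2 * r
  · simp only [chi_of_lt h2, mul_one]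
    calc ∫⁻ y, chi r (y - (a' + z.1 • v')) * chi r (y - (a + z.2 • v))
        ≤ ∫⁻ y, chi r (y - (a' + z.1 • v')) := by
          refine lintegral_mono fun y => mul_le_of_le_one_right' ?_
          exact indicator_le_self' (fun _ _ => zero_le) _
      _ = ∫⁻ y, chi r y := lintegral_sub_right_eq_self _ _
      _ = _ := lintegral_indicator_one measurableSet_ball
  · refine le_trans (le_of_eq ?_) zero_le
    rw [← lintegral_zero (μ := (volume : Measure V))]
    refine lintegral_congr fun y => ?_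
    by_cases h3 : ‖y - (a' + z.1 • v')‖ < r
    · rw [chi_of_not_lt (x := y - (a + z.2 • v)), mul_zero]
      intro h4
      apply h2
      have : (a - (a' + z.1 • v')) + z.2 • v = (y - (a' + z.1 • v')) - (y - (a + z.2 • v)) := by
        module
      rw [this]
      linarith [norm_sub_le (y - (a' + z.1 • v')) (y - (a + z.2 • v))]
    · rw [chi_of_not_lt h3, zero_mul]

end kernel

theorem det_le (v x : ℝ × ℝ) : |v.1 * x.2 - v.2 * x.1| ≤ 2 * ‖v‖ * ‖x‖ := by
  have h1 : |v.1| ≤ ‖v‖ := norm_fst_le v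
  have h2 : |v.2| ≤ ‖v‖ := norm_snd_le v
  have h3 : |x.1| ≤ ‖x‖ := norm_fst_le x
  have h4 : |x.2| ≤ ‖x‖ := norm_snd_le x
  calc |v.1 * x.2 - v.2 * x.1| ≤ |v.1 * x.2| + |v.2 * x.1| := abs_sub _ _
    _ = |v.1| * |x.2| + |v.2| * |x.1| := by rw [abs_mul, abs_mul]
    _ ≤ ‖v‖ * ‖x‖ + ‖v‖ * ‖x‖ := by gcongr
    _ = _ := by ring

theorem measurableSet_strip (v : ℝ × ℝ) (τ : ℝ) :
    MeasurableSet {x : ℝ × ℝ | ‖x‖ ≤ ‖v‖ ∧ |v.1 * x.2 - v.2 * x.1| ≤ τ} := by
  have h1 : MeasurableSet {x : ℝ × ℝ | ‖x‖ ≤ ‖v‖} := measurableSet_le (by fun_prop) (by fun_prop)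
  have h2 : MeasurableSet {x : ℝ × ℝ | |v.1 * x.2 - v.2 * x.1| ≤ τ} :=
    measurableSet_le (by fun_prop) (by fun_prop)
  exact h1.inter h2

theorem strip_area {v : ℝ × ℝ} (hv : v ≠ 0) {τ : ℝ} (hτ : 0 ≤ τ) :
    volume {x : ℝ × ℝ | ‖x‖ ≤ ‖v‖ ∧ |v.1 * x.2 - v.2 * x.1| ≤ τ} ≤ ENNReal.ofReal (4 * τ) := by
  have hn : 0 < ‖v‖ := norm_pos_iff.2 hv
  have hm := measurableSet_strip v τ
  have hfin : ∫⁻ s : ℝ, (Icc (-‖v‖) ‖v‖).indicator (fun _ => ENNReal.ofReal (2 * τ / ‖v‖)) s
      = ENNReal.ofReal (4 * τ) := by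
    rw [lintegral_indicator_const measurableSet_Icc, Real.volume_Icc,
      ← ENNReal.ofReal_mul (by positivity)]
    congr 1
    field_simp
    ring
  rw [← hfin, Measure.volume_eq_prod]
  rcases le_total |v.1| |v.2| with h | h
  · have h2 : ‖v.2‖ = ‖v‖ := by rw [Prod.norm_def]; exact (max_eq_right h).symm
    rw [Measure.prod_apply_symm hm]
    refine lintegral_mono fun s => ?_
    by_cases hs : s ∈ Icc (-‖v‖) ‖v‖
    · rw [indicator_of_mem hs, ← h2]
      have h3 : -v.2 ≠ 0 := neg_ne_zero.2 (norm_pos_iff.1 (h2 ▸ hn))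
      have := vol_line_le (v.1 * s) h3 τ
      rw [norm_neg] at this
      refine le_trans (measure_mono fun t ht => ?_) this
      have h4 := ht.2
      simp only [mem_ofPred_eq, smul_eq_mul, Real.norm_eq_abs] at h4 ⊢
      convert h4 using 2
      ring
    · rw [indicator_of_notMem hs]
      refine le_of_eq (measure_mono_null (t := ∅) (fun t ht => hs ?_) measure_empty)
      exact abs_le.1 ((norm_snd_le (t, s)).trans ht.1)
  · have h2 : ‖v.1‖ = ‖v‖ := by rw [Prod.norm_def]; exact (max_eq_left h).symm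
    rw [Measure.prod_apply hm]
    refine lintegral_mono fun s => ?_
    by_cases hs : s ∈ Icc (-‖v‖) ‖v‖
    · rw [indicator_of_mem hs, ← h2]
      have h3 : v.1 ≠ 0 := norm_pos_iff.1 (h2 ▸ hn)
      refine le_trans (measure_mono fun t ht => ?_) (vol_line_le (-(v.2 * s)) h3 τ)
      have h4 := ht.2
      simp only [mem_ofPred_eq, smul_eq_mul, Real.norm_eq_abs] at h4 ⊢
      convert h4 using 2
      ring
    · rw [indicator_of_notMem hs]
      refine le_of_eq (measure_mono_null (t := ∅) (fun t ht => hs ?_) measure_empty)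
      exact abs_le.1 ((norm_fst_le (s, t)).trans ht.1)

theorem dyadic_det {y : ℝ≥0∞} {D ρ : ℝ} {m : ℕ} (hρ : 0 < ρ) (hy1 : y ≤ 1)
    (hy2 : 0 < D → y ≤ ENNReal.ofReal (8 * ρ / D)) (hD : D ≤ ρ * 2 ^ m) :
    y ≤ ∑ k ∈ Finset.range (m + 1),
      if D ≤ ρ * 2 ^ k then ENNReal.ofReal (16 / 2 ^ k) else 0 := by
  have hex : ∃ k : ℕ, D ≤ ρ * 2 ^ k := ⟨m, hD⟩
  have hk := Nat.find_spec hex
  have hkm : Nat.find hex ≤ m := Nat.find_min' hex hD
  refine le_trans ?_ (Finset.single_le_sum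
    (f := fun k => if D ≤ ρ * 2 ^ k then ENNReal.ofReal (16 / 2 ^ k) else 0)
    (fun _ _ => zero_le) (Finset.mem_range.2 (by omega : Nat.find hex < m + 1)))
  simp only [hk, if_true]
  rcases hk0 : Nat.find hex with _ | k
  · exact hy1.trans (ENNReal.one_le_ofReal.2 (by norm_num))
  · have h2 : ρ * 2 ^ k < D := not_le.mp (Nat.find_min hex (by omega))
    have h3 : 0 < D := lt_trans (by positivity) h2
    refine (hy2 h3).trans (ENNReal.ofReal_le_ofReal ?_)
    rw [div_le_div_iff₀ h3 (by positivity), pow_succ]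
    linarith

theorem plane_kernel {r : ℝ} {m : ℕ} (hr : 2 ≤ r * 2 ^ m) {v : ℝ × ℝ} (hv : v ≠ 0)
    (hv1 : ‖v‖ ≤ 1) (a : ℝ × ℝ) (α : ℝ × ℝ → ℝ × ℝ) :
    ∫⁻ v' in closedBall 0 ‖v‖, ∫⁻ y, Jk r a v y * Jk r (α v') v' y
      ≤ volume (ball (0 : ℝ × ℝ) r) * ENNReal.ofReal (256 * (m + 1) * r ^ 2) := by
  have hn : 0 < ‖v‖ := norm_pos_iff.2 hv
  have hr0 : 0 < r := by
    by_contra h
    have : r * 2 ^ m ≤ 0 := mul_nonpos_of_nonpos_of_nonneg (not_lt.mp h) (by positivity)
    linarith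
  set S : ℕ → Set (ℝ × ℝ) := fun k =>
    {x : ℝ × ℝ | ‖x‖ ≤ ‖v‖ ∧ |v.1 * x.2 - v.2 * x.1| ≤ r * ‖v‖ * 2 ^ k} with hS
  have hSm : ∀ k, MeasurableSet (S k) := fun k => measurableSet_strip v _
  have key : ∀ v' ∈ closedBall (0 : ℝ × ℝ) ‖v‖, ∫⁻ y, Jk r a v y * Jk r (α v') v' y
      ≤ volume (ball (0 : ℝ × ℝ) r) * ENNReal.ofReal (4 * r / ‖v‖) *
        ∑ k ∈ Finset.range (m + 1), (S k).indicator (fun _ => ENNReal.ofReal (16 / 2 ^ k)) v' := by
    intro v' hv'
    rw [mem_closedBall_zero_iff] at hv'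
    refine (kernel_le r a v (α v') v').trans ?_
    rw [mul_assoc]
    refine mul_le_mul_right ?_ _
    set c := v.1 * (a - α v').2 - v.2 * (a - α v').1 with hc
    set D := v.1 * v'.2 - v.2 * v'.1 with hD
    set T : Set ℝ := {t' : ℝ | ‖c + t' • (-D)‖ ≤ 4 * r * ‖v‖} with hT
    have hTm : MeasurableSet T := measurableSet_le (by fun_prop) (by fun_prop)
    have h1 : ∀ t' : ℝ, ∫⁻ t in Icc (-1 / 2 : ℝ) (1 / 2), chi (2 * r) ((a - (α v' + t' • v')) + t • v)
        ≤ T.indicator (fun _ => ENNReal.ofReal (4 * r / ‖v‖)) t' := by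
      intro t'
      by_cases ht : t' ∈ T
      · rw [indicator_of_mem ht]
        have h2 := vol_line_le (a - (α v' + t' • v')) hv (2 * r)
        have h3 : 2 * (2 * r) / ‖v‖ = 4 * r / ‖v‖ := by ring
        rw [h3] at h2
        refine le_trans ?_ h2
        rw [← lintegral_indicator_one (measurableSet_le (by fun_prop) (by fun_prop))]
        refine (setLIntegral_le_lintegral _ _).trans (lintegral_mono fun t => ?_)
        by_cases h4 : ‖(a - (α v' + t' • v')) + t • v‖ < 2 * r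
        · rw [chi_of_lt h4, indicator_of_mem (by exact h4.le)]
          rfl
        · rw [chi_of_not_lt h4]
          exact zero_le
      · rw [indicator_of_notMem ht]
        refine le_of_eq ?_
        rw [← lintegral_zero (μ := volume.restrict (Icc (-1 / 2 : ℝ) (1 / 2)))]
        refine lintegral_congr fun t => chi_of_not_lt fun h4 => ht ?_
        have h5 := det_le v ((a - (α v' + t' • v')) + t • v)
        have h6 : v.1 * ((a - (α v' + t' • v')) + t • v).2
            - v.2 * ((a - (α v' + t' • v')) + t • v).1 = c + t' • (-D) := by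
          simp only [hc, hD, Prod.fst_add, Prod.snd_add, Prod.fst_sub, Prod.snd_sub, Prod.smul_fst,
            Prod.smul_snd, smul_eq_mul]
          ring
        rw [h6] at h5
        change |c + t' • (-D)| ≤ 4 * r * ‖v‖
        nlinarith
    refine (lintegral_mono h1).trans ?_
    rw [lintegral_indicator_const hTm]
    refine mul_le_mul_right ?_ _
    have h2 := dyadic_det (y := (volume.restrict (Icc (-1 / 2 : ℝ) (1 / 2))) T) (D := |D|)
      (ρ := r * ‖v‖) (m := m) (by positivity) prob_le_one (fun hD0 => by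
        refine (Measure.restrict_le_self _).trans ?_
        have h3 := vol_line_le c (neg_ne_zero.2 (abs_pos.1 hD0)) (4 * r * ‖v‖)
        rw [norm_neg, Real.norm_eq_abs] at h3
        refine h3.trans (le_of_eq ?_)
        congr 1
        ring) (by
        have h3 := det_le v v'
        have h4 : 2 * ‖v‖ * ‖v'‖ ≤ 2 * ‖v‖ := by nlinarith [norm_nonneg v']
        nlinarith)
    refine h2.trans (Finset.sum_le_sum fun k _ => ?_)
    split_ifs with h3
    · rw [indicator_of_mem (show v' ∈ S k from ⟨hv', h3⟩)]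
    · exact zero_le
  refine (setLIntegral_mono' measurableSet_closedBall key).trans
    ((setLIntegral_le_lintegral _ _).trans ?_)
  rw [lintegral_const_mul _ (Finset.measurable_sum _ fun k _ =>
    measurable_const.indicator (hSm k)),
    lintegral_finsetSum _ (fun k _ => measurable_const.indicator (hSm k)), mul_assoc]
  refine mul_le_mul_right ?_ _
  have h3 : ∀ k ∈ Finset.range (m + 1),
      ∫⁻ x, (S k).indicator (fun _ => ENNReal.ofReal (16 / 2 ^ k)) x
        ≤ ENNReal.ofReal (64 * r * ‖v‖) := by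
    intro k _
    rw [lintegral_indicator_const (hSm k)]
    refine (mul_le_mul_right (strip_area hv (by positivity)) _).trans (le_of_eq ?_)
    rw [← ENNReal.ofReal_mul (by positivity)]
    congr 1
    field_simp
    ring
  refine (mul_le_mul_right (Finset.sum_le_card_nsmul _ _ _ h3) _).trans (le_of_eq ?_)
  rw [Finset.card_range, nsmul_eq_mul, ← ENNReal.ofReal_natCast,
    ← ENNReal.ofReal_mul (by positivity), ← ENNReal.ofReal_mul (by positivity)]
  congr 1
  push_cast
  field_simp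
  ring

theorem sq_setLIntegral_le {X : Type*} [MeasurableSpace X] (μ : Measure X) (E : Set X)
    {Φ : X → ℝ≥0∞} (hΦ : Measurable Φ) :
    (∫⁻ y in E, Φ y ∂μ) ^ 2 ≤ μ E * ∫⁻ y, Φ y * Φ y ∂μ := by
  have h1 := ENNReal.lintegral_mul_le_Lp_mul_Lq (μ.restrict E) Real.HolderConjugate.two_two
    (f := fun _ => 1) (g := Φ) aemeasurable_const hΦ.aemeasurable
  simp only [Pi.mul_apply, one_mul, ENNReal.one_rpow, lintegral_const,
    Measure.restrict_apply_univ] at h1
  refine (pow_le_pow_left' h1 2).trans ?_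
  rw [mul_pow, ← ENNReal.rpow_natCast, ← ENNReal.rpow_natCast, ← ENNReal.rpow_mul,
    ← ENNReal.rpow_mul]
  norm_num
  simp_rw [← sq]
  exact mul_le_mul_right (setLIntegral_le_lintegral _ _) _

theorem plane_TT {r : ℝ} {m : ℕ} (hr : 2 ≤ r * 2 ^ m) {U E : Set (ℝ × ℝ)} (hU : MeasurableSet U)
    (hU1 : U ⊆ ball 0 1) {α : ℝ × ℝ → ℝ × ℝ} (hα : Measurable α) {θ : ℝ≥0∞}
    (hθ : ∀ v ∈ U, θ ≤ ∫⁻ y in E, Jk r (α v) v y) :
    θ ^ 2 * volume U ≤ volume E * (2 * (volume (ball (0 : ℝ × ℝ) r)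
      * ENNReal.ofReal (256 * (m + 1) * r ^ 2))) := by
  set B := volume (ball (0 : ℝ × ℝ) r) * ENNReal.ofReal (256 * (m + 1) * r ^ 2) with hB
  have hJ : Measurable fun q : (ℝ × ℝ) × (ℝ × ℝ) => Jk r (α q.1) q.1 q.2 :=
    measurable_Jk r (by fun_prop) (by fun_prop) (by fun_prop)
  set Φ : ℝ × ℝ → ℝ≥0∞ := fun y => ∫⁻ v in U, Jk r (α v) v y with hΦ
  have hΦm : Measurable Φ := hJ.lintegral_prod_left'
  have h1 : θ * volume U ≤ ∫⁻ y in E, Φ y := by
    rw [← setLIntegral_const, hΦ, ← lintegral_lintegral_swap hJ.aemeasurable]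
    exact setLIntegral_mono' hU hθ
  set P := (volume.restrict U).prod (volume.restrict U) with hP
  set k : (ℝ × ℝ) × (ℝ × ℝ) → ℝ≥0∞ :=
    fun q => ∫⁻ y, Jk r (α q.1) q.1 y * Jk r (α q.2) q.2 y with hk
  have hJJ : Measurable fun z : ((ℝ × ℝ) × (ℝ × ℝ)) × (ℝ × ℝ) =>
      Jk r (α z.1.1) z.1.1 z.2 * Jk r (α z.1.2) z.1.2 z.2 :=
    (measurable_Jk r (by fun_prop) (by fun_prop) (by fun_prop)).mul
      (measurable_Jk r (by fun_prop) (by fun_prop) (by fun_prop))
  have hkm : Measurable k := hJJ.lintegral_prod_right'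
  have h2 : ∫⁻ y, Φ y * Φ y = ∫⁻ q, k q ∂P := by
    rw [hk, lintegral_lintegral_swap hJJ.aemeasurable]
    refine lintegral_congr fun y => ?_
    have hy : Measurable fun v => Jk r (α v) v y :=
      measurable_Jk r (by fun_prop) (by fun_prop) (by fun_prop)
    exact (lintegral_prod_mul hy.aemeasurable hy.aemeasurable).symm
  set W : Set ((ℝ × ℝ) × (ℝ × ℝ)) := {q | ‖q.2‖ ≤ ‖q.1‖} with hW
  have hWm : MeasurableSet W := measurableSet_le (by fun_prop) (by fun_prop)
  have h3 : ∫⁻ q, W.indicator k q ∂P ≤ B * volume U := by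
    rw [hP, lintegral_prod _ (hkm.indicator hWm).aemeasurable, ← setLIntegral_const]
    refine lintegral_mono_ae ?_
    filter_upwards [ae_restrict_mem hU, ae_restrict_of_ae (Measure.ae_ne volume 0)] with v hv hv0
    refine le_trans ?_ (plane_kernel hr hv0 (mem_ball_zero_iff.1 (hU1 hv)).le (α v) α)
    rw [← lintegral_indicator measurableSet_closedBall]
    refine (setLIntegral_le_lintegral _ _).trans (lintegral_mono fun v' => ?_)
    by_cases h : ‖v'‖ ≤ ‖v‖
    · rw [indicator_of_mem (show (v, v') ∈ W from h),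
        indicator_of_mem (mem_closedBall_zero_iff.2 h)]
    · rw [indicator_of_notMem (show (v, v') ∉ W from h)]
      exact zero_le
  have h4 : ∫⁻ q, k q ∂P ≤ 2 * (B * volume U) := by
    calc ∫⁻ q, k q ∂P ≤ ∫⁻ q, (W.indicator k q + W.indicator k q.swap) ∂P := by
          refine lintegral_mono fun q => ?_
          rcases le_total ‖q.2‖ ‖q.1‖ with h | h
          · rw [indicator_of_mem (show q ∈ W from h)]
            exact le_self_add
          · rw [indicator_of_mem (show q.swap ∈ W from h)]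
            refine le_add_left (le_of_eq ?_)
            simp only [hk, Prod.fst_swap, Prod.snd_swap, mul_comm]
      _ = ∫⁻ q, W.indicator k q ∂P + ∫⁻ q, W.indicator k q ∂P := by
          rw [lintegral_add_left (hkm.indicator hWm), hP, lintegral_prod_swap]
      _ ≤ _ := by rw [two_mul]; exact add_le_add h3 h3
  have h5 : (θ * volume U) ^ 2 ≤ volume E * (2 * (B * volume U)) :=
    (pow_le_pow_left' h1 2).trans ((sq_setLIntegral_le volume E hΦm).trans
      (mul_le_mul_right (h2 ▸ h4) _))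
  by_cases hU0 : volume U = 0
  · simp [hU0]
  have hUt : volume U ≠ ∞ := ((measure_mono hU1).trans_lt measure_ball_lt_top).ne
  rw [← ENNReal.mul_le_mul_iff_left hU0 hUt]
  calc θ ^ 2 * volume U * volume U = (θ * volume U) ^ 2 := by ring
    _ ≤ _ := h5
    _ = _ := by ring

theorem plane_weak {η : ℝ} {m : ℕ} (hη : 1 ≤ η * 2 ^ m) {E : Set (ℝ × ℝ)} (hE : MeasurableSet E)
    (i : ℕ) :
    volume.restrict (ball 0 1) {v | ∃ a, 2⁻¹ ^ i < lineMeas (ballMeas (ℝ × ℝ) η) a v E}
      ≤ 2048 * (m + 1) * (2 ^ i) ^ 2 * volume E := by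
  classical
  have hη0 : 0 < η := by
    by_contra h
    have : η * 2 ^ m ≤ 0 := mul_nonpos_of_nonpos_of_nonneg (not_lt.mp h) (by positivity)
    linarith
  have hball : ∀ r : ℝ, 0 < r → volume (ball (0 : ℝ × ℝ) r) = ENNReal.ofReal (4 * r ^ 2) := by
    intro r hr
    rw [← Prod.mk_zero_zero, ← ball_prod_same, Measure.volume_eq_prod, Measure.prod_prod,
      Real.volume_ball, ← ENNReal.ofReal_mul (by positivity)]
    congr 1
    ring
  set b := volume (ball (0 : ℝ × ℝ) η) with hb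
  have hb0 : b ≠ 0 := (measure_ball_pos _ _ hη0).ne'
  have hbt : b ≠ ∞ := measure_ball_lt_top.ne
  set q := TopologicalSpace.denseSeq (ℝ × ℝ) with hq
  set p : ℕ → ℝ × ℝ → Prop := fun n v => b * 2⁻¹ ^ i ≤ ∫⁻ y in E, Jk (2 * η) (q n) v y with hp
  have hpm : ∀ n, MeasurableSet {v | p n v} := fun n => by
    have : Measurable fun z : (ℝ × ℝ) × (ℝ × ℝ) => Jk (2 * η) (q n) z.1 z.2 :=
      measurable_Jk _ (by fun_prop) (by fun_prop) (by fun_prop)
    exact measurableSet_le measurable_const this.lintegral_prod_right'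
  set U0 : Set (ℝ × ℝ) := ⋃ n, {v | p n v} with hU0
  have hU0m : MeasurableSet U0 := MeasurableSet.iUnion hpm
  have hex : ∀ v, ∃ n, p n v ∨ v ∉ U0 := fun v => by
    by_cases hv : v ∈ U0
    · obtain ⟨n, hn⟩ := mem_iUnion.1 hv
      exact ⟨n, Or.inl hn⟩
    · exact ⟨0, Or.inr hv⟩
  have hα : Measurable fun v => q (Nat.find (hex v)) :=
    Measurable.find (f := fun n _ => q n) (p := fun n v => p n v ∨ v ∉ U0)
      (fun _ => measurable_const)
      (fun n => (hpm n).union hU0m.compl) hex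
  have key := plane_TT (r := 2 * η) (m := m) (by linarith) (U := U0 ∩ ball 0 1) (E := E)
    (hU0m.inter measurableSet_ball) inter_subset_right hα (θ := b * 2⁻¹ ^ i) (fun v hv =>
      (Nat.find_spec (hex v)).resolve_right (not_not.2 hv.1))
  have hsub : {v | ∃ a, 2⁻¹ ^ i < lineMeas (ballMeas (ℝ × ℝ) η) a v E} ⊆ U0 := by
    rintro v ⟨a, ha⟩
    obtain ⟨n, hn⟩ := (TopologicalSpace.denseRange_denseSeq (ℝ × ℝ)).exists_dist_lt a hη0
    refine mem_iUnion.2 ⟨n, ?_⟩
    rw [lineMeas_ball_eq η a v hE] at ha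
    calc b * 2⁻¹ ^ i ≤ b * (b⁻¹ * ∫⁻ y in E, Jk η a v y) := mul_le_mul_right ha.le _
      _ = ∫⁻ y in E, Jk η a v y := by rw [← mul_assoc, ENNReal.mul_inv_cancel hb0 hbt, one_mul]
      _ ≤ _ := lintegral_mono fun y => Jk_le (by rwa [dist_eq_norm] at hn) v y
  refine (measure_mono hsub).trans ?_
  rw [Measure.restrict_apply hU0m]
  have e1 : volume (ball (0 : ℝ × ℝ) (2 * η)) = 4 * b := by
    rw [hb, hball _ hη0, hball _ (by positivity), ← ENNReal.ofReal_ofNat 4,
      ← ENNReal.ofReal_mul (by positivity)]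
    congr 1
    ring
  have e2 : ENNReal.ofReal (256 * (m + 1) * (2 * η) ^ 2) = 256 * (m + 1) * b := by
    rw [hb, hball _ hη0, ← ENNReal.ofReal_ofNat 256, ← ENNReal.ofReal_natCast, ← ENNReal.ofReal_one,
      ← ENNReal.ofReal_add (by positivity) (by positivity), ← ENNReal.ofReal_mul (by positivity),
      ← ENNReal.ofReal_mul (by positivity)]
    congr 1
    ring
  rw [e1, e2] at key
  rw [← ENNReal.mul_le_mul_iff_right (pow_ne_zero 2 hb0) (ENNReal.pow_ne_top hbt)]
  calc b ^ 2 * volume (U0 ∩ ball 0 1)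
      = ((2 * 2⁻¹) ^ i) ^ 2 * (b ^ 2 * volume (U0 ∩ ball 0 1)) := by
        rw [ENNReal.mul_inv_cancel two_ne_zero ENNReal.ofNat_ne_top, one_pow, one_pow, one_mul]
    _ = (2 ^ i) ^ 2 * ((b * 2⁻¹ ^ i) ^ 2 * volume (U0 ∩ ball 0 1)) := by ring
    _ ≤ (2 ^ i) ^ 2 * (volume E * (2 * (4 * b * (256 * (m + 1) * b)))) := mul_le_mul_right key _
    _ = _ := by ring

end Pool.Agent.MP_5168f5_an.H20
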