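import Pool.Agent.MP_5168f5_an.H20.Plane

/-!
Majorants for smoothed line averages: dimension one, dimension two, radial functions, transport
along isometries and closure under tensor products.
-/

open MeasureTheory Set Filter Topology Metric
open scoped ENNReal

namespace Pool.Agent.MP_5168f5_an.H20

/-- The smoothed line averages of `h` have a measurable majorant with controlled integral. -/
def Maj (V : Type*) [NormedAddCommGroup V] [NormedSpace ℝ V] [MeasureSpace V] (d : ℕ) (η : ℝ)
    (K : ℝ≥0∞) (h : V → ℝ≥0∞) : Prop :=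
  ∃ G : V → ℝ≥0∞, Measurable G ∧
    (∀ v, ‖v‖ < 1 → ∀ a, (∫⁻ x, h x ∂lineMeas (ballMeas V η) a v) ^ d ≤ G v) ∧
    ∫⁻ v in ball 0 1, G v ≤ K * ∫⁻ x, h x ^ d

theorem Maj.mono {V : Type*} [NormedAddCommGroup V] [NormedSpace ℝ V] [MeasureSpace V] {d : ℕ}
    {η : ℝ} {K K' : ℝ≥0∞} {h : V → ℝ≥0∞} (hm : Maj V d η K h) (hK : K ≤ K') : Maj V d η K' h := by
  obtain ⟨G, h1, h2, h3⟩ := hm
  exact ⟨G, h1, h2, h3.trans (mul_le_mul_left hK _)⟩

section transport

variable {V : Type*} [NormedAddCommGroup V] [NormedSpace ℝ V] [FiniteDimensional ℝ V]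
  [MeasureSpace V] [BorelSpace V] [(volume : Measure V).IsAddHaarMeasure]
variable {W : Type*} [NormedAddCommGroup W] [NormedSpace ℝ W] [FiniteDimensional ℝ W]
  [MeasureSpace W] [BorelSpace W] [(volume : Measure W).IsAddHaarMeasure]

omit [(volume : Measure V).IsAddHaarMeasure] [(volume : Measure W).IsAddHaarMeasure] in
theorem lintegral_lineMeas_map (e : W →ₗ[ℝ] V) {π : Measure W} {π' : Measure V} [SFinite π]
    (he : MeasurePreserving e π π') {h : V → ℝ≥0∞} (hh : Measurable h) (a v : W) :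
    ∫⁻ x, h (e x) ∂lineMeas π a v = ∫⁻ x, h x ∂lineMeas π' (e a) (e v) := by
  have hm : Measurable fun x => h (e x) := hh.comp he.measurable
  have hm2 : Measurable fun z : V × ℝ => h (e a + z.2 • e v + z.1) :=
    hh.comp (measurable_line (e a) (e v))
  rw [lintegral_lineMeas _ _ _ hm, lintegral_lineMeas _ _ _ hh,
    ← (he.prod (MeasurePreserving.id (volume.restrict (Icc (-1 / 2 : ℝ) (1 / 2))))).lintegral_comp
      hm2]
  simp

omit [(volume : Measure V).IsAddHaarMeasure] in
theorem Maj.transport (e : W ≃ₗ[ℝ] V) (hn : ∀ x, ‖e x‖ = ‖x‖)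
    (he : MeasurePreserving e volume volume) {d : ℕ} {η : ℝ} {K : ℝ≥0∞} {h : W → ℝ≥0∞}
    (hh : Measurable h) (hm : Maj V d η K (fun y => h (e.symm y))) : Maj W d η K h := by
  obtain ⟨G, h1, h2, h3⟩ := hm
  have hs : Measurable e.symm := (e.symm.toLinearMap.continuous_of_finiteDimensional).measurable
  have hb : ∀ r : ℝ, e ⁻¹' ball 0 r = ball 0 r := fun r => by
    ext x; simp [hn]
  have hr : ∀ r : ℝ, MeasurePreserving e (volume.restrict (ball 0 r)) (volume.restrict (ball 0 r)) :=
    fun r => by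
      have := he.restrict_preimage (s := ball 0 r) measurableSet_ball
      rwa [hb] at this
  have hπ : MeasurePreserving e (ballMeas W η) (ballMeas V η) := by
    have h4 : volume (ball (0 : W) η) = volume (ball (0 : V) η) := by
      rw [← he.measure_preimage measurableSet_ball.nullMeasurableSet, hb]
    unfold ballMeas
    rw [h4]
    exact (hr η).smul_measure _
  have : SFinite (ballMeas W η) := by unfold ballMeas; infer_instance
  refine ⟨fun v => G (e v), h1.comp he.measurable, fun v hv a => ?_, ?_⟩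
  · have h5 := lintegral_lineMeas_map e.toLinearMap hπ (hh.comp hs) a v
    simp only [LinearEquiv.coe_coe, Function.comp_apply, LinearEquiv.symm_apply_apply] at h5
    rw [h5]
    exact h2 (e v) (by rwa [hn]) (e a)
  · rw [(hr 1).lintegral_comp h1]
    refine h3.trans (le_of_eq ?_)
    have hm2 : Measurable fun y => h (e.symm y) ^ d := (hh.comp hs).pow_const d
    beta_reduce
    rw [← he.lintegral_comp hm2]
    simp

end transport

theorem maj_plane {η : ℝ} {m : ℕ} (hη : (1 / 2) ^ m ≤ η) {h : ℝ × ℝ → ℝ≥0∞} (hh : Measurable h) :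
    Maj (ℝ × ℝ) 2 η (levelConst 2 m (volume (ball (0 : ℝ × ℝ) 1))⁻¹ (2048 * (m + 1))
      (volume (ball (0 : ℝ × ℝ) 1))) h := by
  have hη0 : 0 < η := lt_of_lt_of_le (by positivity) hη
  have := ballMeas_prob (V := ℝ × ℝ) hη0
  have hle := ballMeas_le (V := ℝ × ℝ) (r := η) (r0 := 1) (m := m) (d := 2) (by simp) one_pos
    (by linarith)
  have hη1 : 1 ≤ η * 2 ^ m := by
    calc (1 : ℝ) = (1 / 2) ^ m * 2 ^ m := by rw [← mul_pow]; norm_num
      _ ≤ _ := by gcongr
  obtain ⟨G, h1, h2, h3⟩ := levels volume (volume.restrict (ball (0 : ℝ × ℝ) 1))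
    (lineMeas (ballMeas (ℝ × ℝ) η)) (fun a v => prob_le_one) le_rfl _ (2048 * (m + 1))
    (lineMeas_le volume _ hle) hh
    (fun s _ _ i _ => plane_weak hη1 (measurableSet_le measurable_const hh) i)
  rw [Measure.restrict_apply_univ] at h3
  exact ⟨G, h1, fun v _ a => h2 a v, h3⟩

theorem maj_line {η : ℝ} {m : ℕ} (hη : (1 / 2) ^ m ≤ η) {h : ℝ → ℝ≥0∞} (hh : Measurable h) :
    Maj ℝ 1 η (4 * (m + 1)) h := by
  have hη0 : 0 < η := lt_of_lt_of_le (by positivity) hη
  have := ballMeas_prob (V := ℝ) hη0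
  have hle := ballMeas_le (V := ℝ) (r := η) (r0 := 1) (m := m) (d := 1) (by simp) one_pos
    (by linarith)
  set N := ∫⁻ x, h x with hN
  have hb1 : ∀ a v, ∫⁻ x, h x ∂lineMeas (ballMeas ℝ η) a v ≤ 2 ^ (m + 1) * N := by
    intro a v
    refine (lintegral_mono' (lineMeas_le volume _ hle a v) le_rfl).trans ?_
    rw [lintegral_smul_measure, smul_eq_mul, mul_one, pow_succ']
    refine mul_le_mul_left (mul_le_mul_left ?_ _) _
    rw [Real.volume_ball]
    refine le_trans (ENNReal.inv_le_one.2 (ENNReal.one_le_ofReal.2 (by norm_num))) one_le_two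
  have hb2 : ∀ a v : ℝ, v ≠ 0 →
      ∫⁻ x, h x ∂lineMeas (ballMeas ℝ η) a v ≤ ENNReal.ofReal |v⁻¹| * N := by
    intro a v hv
    have hm : Measurable fun z : ℝ × ℝ => h (a + z.2 • v + z.1) := hh.comp (measurable_line a v)
    rw [lintegral_lineMeas _ _ _ hh, lintegral_prod _ hm.aemeasurable]
    calc ∫⁻ w, ∫⁻ t in Icc (-1 / 2 : ℝ) (1 / 2), h (a + t • v + w) ∂volume ∂(ballMeas ℝ η)
        ≤ ∫⁻ w, ENNReal.ofReal |v⁻¹| * N ∂(ballMeas ℝ η) := by
          refine lintegral_mono fun w => (setLIntegral_le_lintegral _ _).trans (le_of_eq ?_)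
          have h1 : Measurable fun y : ℝ => h (a + y + w) := hh.comp (by fun_prop)
          have h2 := lintegral_map (μ := volume) h1 (measurable_mul_const v)
          rw [Real.map_volume_mul_right hv, lintegral_smul_measure, smul_eq_mul] at h2
          simp only [smul_eq_mul]
          rw [← h2]
          congr 1
          simp_rw [add_right_comm a _ w]
          exact lintegral_add_left_eq_self h (a + w)
      _ = _ := by rw [lintegral_const, measure_univ, mul_one]
  have hms : Measurable fun v : ℝ => ∑ i ∈ Finset.range (m + 1),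
      (closedBall (0 : ℝ) ((1 / 2) ^ i)).indicator (fun _ => (2 : ℝ≥0∞) ^ (i + 1)) v :=
    Finset.measurable_sum _ fun i _ => measurable_const.indicator measurableSet_closedBall
  refine ⟨fun v => (∑ i ∈ Finset.range (m + 1),
      (closedBall (0 : ℝ) ((1 / 2) ^ i)).indicator (fun _ => (2 : ℝ≥0∞) ^ (i + 1)) v) * N,
    hms.mul_const _, fun v hv a => ?_, ?_⟩
  · rw [pow_one]
    have key : ∀ i ≤ m, ‖v‖ ≤ (1 / 2) ^ i → (2 : ℝ≥0∞) ^ (i + 1) * N ≤ (∑ i ∈ Finset.range (m + 1),
        (closedBall (0 : ℝ) ((1 / 2) ^ i)).indicator (fun _ => (2 : ℝ≥0∞) ^ (i + 1)) v) * N := by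
      intro i hi hvi
      refine mul_le_mul_left (le_trans (le_of_eq ?_) (Finset.single_le_sum
        (f := fun i => (closedBall (0 : ℝ) ((1 / 2) ^ i)).indicator
          (fun _ => (2 : ℝ≥0∞) ^ (i + 1)) v) (fun _ _ => zero_le)
        (Finset.mem_range.2 (by omega : i < m + 1)))) _
      simp only [indicator_of_mem (mem_closedBall_zero_iff.2 hvi)]
    by_cases hv1 : ‖v‖ ≤ (1 / 2) ^ m
    · exact (hb1 a v).trans (key m le_rfl hv1)
    · have hv0 : 0 < ‖v‖ := lt_of_le_of_lt (by positivity) (not_le.mp hv1)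
      obtain ⟨i, hi1, hi2⟩ := exists_nat_pow_near_of_lt_one hv0 hv.le
        (by norm_num : (0 : ℝ) < 1 / 2) (by norm_num)
      have him : i ≤ m := by
        by_contra him
        exact hv1 (hi2.trans (pow_le_pow_of_le_one (by norm_num) (by norm_num) (by omega)))
      refine (hb2 a v (norm_pos_iff.1 hv0)).trans (le_trans (mul_le_mul_left ?_ _) (key i him hi2))
      rw [abs_inv, ← Real.norm_eq_abs, ← ENNReal.ofReal_ofNat 2,
        ← ENNReal.ofReal_pow (by norm_num)]
      apply ENNReal.ofReal_le_ofReal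
      rw [inv_le_comm₀ hv0 (by positivity), ← inv_pow, ← one_div]
      exact hi1.le
  · simp only [pow_one]
    refine (setLIntegral_le_lintegral _ _).trans ?_
    rw [lintegral_mul_const _ hms, lintegral_finsetSum _
      (fun i _ => measurable_const.indicator measurableSet_closedBall)]
    refine mul_le_mul_left (le_of_eq ?_) _
    have h4 : ∀ i ∈ Finset.range (m + 1), ∫⁻ v : ℝ,
        (closedBall (0 : ℝ) ((1 / 2) ^ i)).indicator (fun _ => (2 : ℝ≥0∞) ^ (i + 1)) v = 4 := by
      intro i _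
      rw [lintegral_indicator_const measurableSet_closedBall, Real.volume_closedBall,
        ← ENNReal.ofReal_ofNat 2, ← ENNReal.ofReal_pow (by norm_num),
        ← ENNReal.ofReal_mul (by positivity), ← ENNReal.ofReal_ofNat 4]
      congr 1
      have : (2 : ℝ) ^ i * (1 / 2) ^ i = 1 := by rw [← mul_pow]; norm_num
      calc (2 : ℝ) ^ (i + 1) * (2 * (1 / 2) ^ i) = 4 * (2 ^ i * (1 / 2) ^ i) := by ring
        _ = 4 := by rw [this, mul_one]
    rw [Finset.sum_congr rfl h4, Finset.sum_const, Finset.card_range, nsmul_eq_mul]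
    push_cast
    ring

theorem measurePreserving_eval_of_unique (ι : Type) [hι : Fintype ι] [Unique ι] :
    MeasurePreserving (fun x : ι → ℝ => x default) volume volume := by
  obtain rfl : hι = Unique.fintype := Subsingleton.elim _ _
  exact volume_preserving_funUnique ι ℝ

theorem maj_card_one {ι : Type} [Fintype ι] (hι : Fintype.card ι = 1) {η : ℝ} {m : ℕ}
    (hη : (1 / 2) ^ m ≤ η) {h : (ι → ℝ) → ℝ≥0∞} (hh : Measurable h) :
    Maj (ι → ℝ) 1 η (4 * (m + 1)) h := by
  obtain ⟨hu⟩ := Fintype.card_eq_one_iff_nonempty_unique.1 hι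
  set e : (ι → ℝ) ≃ₗ[ℝ] ℝ := LinearEquiv.funUnique ι ℝ ℝ with he
  have hs : Measurable e.symm := (e.symm.toLinearMap.continuous_of_finiteDimensional).measurable
  have h1 : ∀ x, e x = x default := fun x => rfl
  have hmp : MeasurePreserving e volume volume := by
    have h2 := measurePreserving_eval_of_unique ι
    exact (funext h1 : (e : (ι → ℝ) → ℝ) = fun x => x default) ▸ h2
  refine Maj.transport e (fun x => ?_) hmp hh (maj_line hη (hh.comp hs))
  rw [h1]
  refine le_antisymm (norm_le_pi_norm x default) ?_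
  refine (pi_norm_le_iff_of_nonneg (norm_nonneg _)).2 fun i => ?_
  rw [Subsingleton.elim i default]

theorem maj_card_two {ι : Type} [Fintype ι] (hι : Fintype.card ι = 2) {η : ℝ} {m : ℕ}
    (hη : (1 / 2) ^ m ≤ η) {h : (ι → ℝ) → ℝ≥0∞} (hh : Measurable h) :
    Maj (ι → ℝ) 2 η (levelConst 2 m (volume (ball (0 : ℝ × ℝ) 1))⁻¹ (2048 * (m + 1))
      (volume (ball (0 : ℝ × ℝ) 1))) h := by
  set σ := Fintype.equivFinOfCardEq hι with hσ
  set e : (ι → ℝ) ≃ₗ[ℝ] ℝ × ℝ :=
    (LinearEquiv.funCongrLeft ℝ ℝ σ.symm).trans (LinearEquiv.finTwoArrow ℝ ℝ) with he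
  have hs : Measurable e.symm := (e.symm.toLinearMap.continuous_of_finiteDimensional).measurable
  have hmp : MeasurePreserving e volume volume :=
    (volume_preserving_finTwoArrow ℝ).comp
      (volume_preserving_arrowCongr' σ (MeasurableEquiv.refl ℝ) (MeasurePreserving.id _))
  refine Maj.transport e (fun x => ?_) hmp hh (maj_plane hη (hh.comp hs))
  have h1 : e x = (x (σ.symm 0), x (σ.symm 1)) := rfl
  rw [h1]
  refine le_antisymm (max_le (norm_le_pi_norm x _) (norm_le_pi_norm x _)) ?_
  refine (pi_norm_le_iff_of_nonneg (norm_nonneg _)).2 fun i => ?_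
  obtain ⟨j, rfl⟩ := σ.symm.surjective i
  fin_cases j
  · exact le_max_left _ _
  · exact le_max_right _ _

set_option backward.isDefEq.respectTransparency false in
theorem lintegral_fin_prod {n : ℕ} {E : Fin n → Type*}
    {mE : ∀ i, MeasurableSpace (E i)} {μ : (i : Fin n) → Measure (E i)} [∀ i, SigmaFinite (μ i)]
    (f : (i : Fin n) → E i → ℝ≥0∞) (hf : ∀ i, Measurable (f i)) :
    ∫⁻ x : (i : Fin n) → E i, ∏ i, f i (x i) ∂(Measure.pi μ) = ∏ i, ∫⁻ x, f i x ∂(μ i) := by
  induction n with
  | zero => simp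
  | succ n n_ih =>
      calc
        _ = ∫⁻ x : E 0 × ((i : Fin n) → E (Fin.succ i)),
            f 0 x.1 * ∏ i : Fin n, f (Fin.succ i) (x.2 i)
            ∂((μ 0).prod (Measure.pi (fun i ↦ μ i.succ))) := by
          rw [← ((measurePreserving_piFinSuccAbove μ 0).symm).lintegral_comp_emb
            (MeasurableEquiv.measurableEmbedding _)]
          simp_rw [MeasurableEquiv.piFinSuccAbove_symm_apply, Fin.insertNthEquiv,
            Fin.prod_univ_succ, Fin.insertNth_zero, Equiv.coe_fn_mk, Fin.cons_succ,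
            Fin.zero_succAbove, cast_eq, Fin.cons_zero]
        _ = (∫⁻ x, f 0 x ∂μ 0)
            * ∏ i : Fin n, ∫⁻ (x : E (Fin.succ i)), f (Fin.succ i) x ∂(μ i.succ) := by
          have hm : Measurable fun x : (i : Fin n) → E (Fin.succ i) =>
              ∏ i : Fin n, f (Fin.succ i) (x i) :=
            Finset.measurable_prod _ fun i _ => (hf _).comp (measurable_pi_apply i)
          rw [← n_ih _ (fun i => hf _), ← lintegral_prod_mul (hf 0).aemeasurable hm.aemeasurable]
        _ = ∏ i, ∫⁻ x, f i x ∂(μ i) := by rw [Fin.prod_univ_succ]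

section blocks

variable {n k : ℕ} (b : Fin n → Fin k)

/-- Splitting the coordinates into blocks. -/
def blockEquiv : (Fin n → ℝ) ≃ᵐ (∀ j, {i // b i = j} → ℝ) where
  toFun x j i := x i
  invFun y i := y (b i) ⟨i, rfl⟩
  left_inv _ := rfl
  right_inv y := by
    funext j ⟨i, hi⟩
    subst hi
    rfl
  measurable_toFun := by
    change Measurable fun (x : Fin n → ℝ) (j : Fin k) (i : {i // b i = j}) => x i
    fun_prop
  measurable_invFun := by
    change Measurable fun (y : ∀ j, {i // b i = j} → ℝ) (i : Fin n) => y (b i) ⟨i, rfl⟩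
    fun_prop

theorem blockEquiv_mp :
    MeasurePreserving (blockEquiv b) volume (Measure.pi fun _ => volume) := by
  refine MeasurePreserving.symm (blockEquiv b).symm ⟨(blockEquiv b).symm.measurable, ?_⟩
  refine (Measure.pi_eq fun s hs => ?_).symm
  rw [MeasurableEquiv.map_apply]
  have : (blockEquiv b).symm ⁻¹' (univ.pi s)
      = univ.pi fun j => univ.pi fun i : {i // b i = j} => s i := by
    ext y
    simp only [mem_preimage, Set.mem_pi, mem_univ, true_imp_iff]
    constructor
    · rintro h j ⟨i, hi⟩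
      subst hi
      exact h i
    · intro h i
      exact h (b i) ⟨i, rfl⟩
  rw [this, Measure.pi_pi]
  simp_rw [volume_pi_pi]
  exact Fintype.prod_fiberwise b fun i => volume (s i)

theorem blockEquiv_ball {r : ℝ} (hr : 0 < r) :
    blockEquiv b ⁻¹' (univ.pi fun _ => ball 0 r) = ball 0 r := by
  ext x
  simp only [mem_preimage, Set.mem_pi, mem_univ, true_imp_iff, mem_ball_zero_iff,
    pi_norm_lt_iff hr]
  constructor
  · intro h i
    exact h (b i) ⟨i, rfl⟩
  · intro h j i
    exact h i

theorem blockEquiv_ballMeas {r : ℝ} (hr : 0 < r) :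
    MeasurePreserving (blockEquiv b) (ballMeas _ r) (Measure.pi fun _ => ballMeas _ r) := by
  have hprob : ∀ j, IsProbabilityMeasure (ballMeas ({i // b i = j} → ℝ) r) :=
    fun j => ballMeas_prob hr
  refine ⟨(blockEquiv b).measurable, (Measure.pi_eq fun s hs => ?_).symm⟩
  rw [MeasurableEquiv.map_apply, ballMeas, Measure.smul_apply, smul_eq_mul,
    Measure.restrict_apply' measurableSet_ball, ← blockEquiv_ball b hr, ← preimage_inter,
    ← pi_inter_distrib, (blockEquiv_mp b).measure_preimage_equiv,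
    (blockEquiv_mp b).measure_preimage_equiv, Measure.pi_pi, Measure.pi_pi,
    ENNReal.prod_inv_distrib (fun i _ j _ _ => Or.inr measure_ball_lt_top.ne),
    ← Finset.prod_mul_distrib]
  refine Finset.prod_congr rfl fun j _ => ?_
  rw [ballMeas, Measure.smul_apply, smul_eq_mul, Measure.restrict_apply' measurableSet_ball]

/-- Restriction to one block as a linear map. -/
def blockProj (j : Fin k) : (Fin n → ℝ) →ₗ[ℝ] ({i // b i = j} → ℝ) where
  toFun x i := x i
  map_add' _ _ := rfl
  map_smul' _ _ := rfl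

theorem maj_tensor (hn : n ≠ 0) (hb : ∀ j, Fintype.card {i // b i = j} ≠ 0) {η : ℝ} (hη : 0 < η)
    {K : ℝ≥0∞} {g : ∀ j, ({i // b i = j} → ℝ) → ℝ≥0∞} (hg : ∀ j, Measurable (g j))
    (hmaj : ∀ j, Maj ({i // b i = j} → ℝ) (Fintype.card {i // b i = j}) η K
      (fun y => g j y ^ ((n : ℝ) / Fintype.card {i // b i = j}))) :
    Maj (Fin n → ℝ) n η (K ^ k) (fun x => ∏ j, g j (fun i => x i)) := by
  choose G hG1 hG2 hG3 using hmaj
  set d : Fin k → ℕ := fun j => Fintype.card {i // b i = j} with hd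
  have hn' : (n : ℝ) ≠ 0 := Nat.cast_ne_zero.2 hn
  have hd' : ∀ j, (d j : ℝ) ≠ 0 := fun j => Nat.cast_ne_zero.2 (hb j)
  have hsum : ∑ j, (d j : ℝ) / n = 1 := by
    rw [← Finset.sum_div, div_eq_one_iff_eq hn', ← Nat.cast_sum]
    congr 1
    rw [← Fintype.card_sigma, Fintype.card_congr (Equiv.sigmaFiberEquiv b), Fintype.card_fin]
  have hprob : ∀ j, IsProbabilityMeasure (ballMeas ({i // b i = j} → ℝ) η) :=
    fun j => ballMeas_prob hη
  have hprob' : IsProbabilityMeasure (ballMeas (Fin n → ℝ) η) := ballMeas_prob hη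
  have hRm : ∀ j, Measurable (blockProj b j) := fun j =>
    (blockProj b j).continuous_of_finiteDimensional.measurable
  refine ⟨fun v => ∏ j, G j (blockProj b j v),
    Finset.measurable_prod _ fun j _ => (hG1 j).comp (hRm j), fun v hv a => ?_, ?_⟩
  · have h1 := ENNReal.lintegral_prod_norm_pow_le (μ := lineMeas (ballMeas (Fin n → ℝ) η) a v)
      Finset.univ (f := fun j x => g j (blockProj b j x) ^ ((n : ℝ) / d j))
      (fun j _ => (((hg j).comp (hRm j)).pow_const _).aemeasurable) hsum
      (fun j _ => by positivity)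
    have h2 : ∀ j x, (g j (blockProj b j x) ^ ((n : ℝ) / d j)) ^ ((d j : ℝ) / n)
        = g j (fun i => x i) := by
      intro j x
      have := hd' j
      rw [← ENNReal.rpow_mul, show (n : ℝ) / d j * (d j / n) = 1 by field_simp, ENNReal.rpow_one]
      rfl
    simp only [h2] at h1
    refine (pow_le_pow_left' h1 n).trans ?_
    rw [← Finset.prod_pow]
    refine Finset.prod_le_prod' fun j _ => ?_
    have hmp : MeasurePreserving (blockProj b j) (ballMeas (Fin n → ℝ) η)
        (ballMeas ({i // b i = j} → ℝ) η) :=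
      (measurePreserving_eval (fun j => ballMeas ({i // b i = j} → ℝ) η) j).comp
        (blockEquiv_ballMeas b hη)
    rw [lintegral_lineMeas_map (blockProj b j) hmp ((hg j).pow_const _), ← ENNReal.rpow_natCast,
      ← ENNReal.rpow_mul, div_mul_cancel₀ _ hn', ENNReal.rpow_natCast]
    refine hG2 j _ ((pi_norm_lt_iff one_pos).2 fun i => (norm_le_pi_norm v i).trans_lt hv) _
  · have h1 : ∫⁻ v in ball 0 1, ∏ j, G j (blockProj b j v) = ∏ j, ∫⁻ v in ball 0 1, G j v := by
      have h2 := (blockEquiv_mp b).restrict_preimage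
        (s := univ.pi fun _ => ball 0 1) (MeasurableSet.univ_pi fun _ => measurableSet_ball)
      rw [blockEquiv_ball b one_pos, Measure.restrict_pi_pi] at h2
      have hm : Measurable fun y : ∀ j, {i // b i = j} → ℝ => ∏ j, G j (y j) :=
        Finset.measurable_prod _ fun j _ => (hG1 j).comp (measurable_pi_apply j)
      rw [← lintegral_fin_prod G hG1, ← h2.lintegral_comp hm]
      rfl
    have h2 : ∫⁻ x : Fin n → ℝ, (∏ j, g j (fun i => x i)) ^ n = ∏ j, ∫⁻ y, g j y ^ n := by
      have hm : Measurable fun y : ∀ j, {i // b i = j} → ℝ => ∏ j, g j (y j) ^ n :=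
        Finset.measurable_prod _ fun j _ => ((hg j).pow_const n).comp (measurable_pi_apply j)
      rw [← lintegral_fin_prod (fun j y => g j y ^ n) (fun j => (hg j).pow_const _),
        ← (blockEquiv_mp b).lintegral_comp hm]
      simp_rw [← Finset.prod_pow]
      rfl
    rw [h1, h2]
    have h3 : K ^ k = ∏ _j : Fin k, K := by simp
    rw [h3, ← Finset.prod_mul_distrib]
    refine Finset.prod_le_prod' fun j _ => (hG3 j).trans (le_of_eq ?_)
    congr 1
    refine lintegral_congr fun y => ?_
    rw [← ENNReal.rpow_natCast, ← ENNReal.rpow_mul, div_mul_cancel₀ _ (hd' j),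
      ENNReal.rpow_natCast]

end blocks

end Pool.Agent.MP_5168f5_an.H20
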