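import Pool.Agent.MP_5168f5_an.H20.Defs

/-!
Reduction of the Kakeya maximal function on the sphere to smoothed line averages indexed by
vectors of the unit ball.
-/

open MeasureTheory Set Filter Topology Metric
open scoped ENNReal

namespace Pool.Agent.MP_5168f5_an.H20

instance unitI_prob : IsProbabilityMeasure (volume.restrict (Icc (-1 / 2 : ℝ) (1 / 2))) :=
  ⟨by rw [Measure.restrict_apply_univ, Real.volume_Icc]; norm_num⟩

section line

variable {V : Type*} [NormedAddCommGroup V] [NormedSpace ℝ V] [FiniteDimensional ℝ V]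
  [MeasurableSpace V] [BorelSpace V]

/-- The law of `a + t v + w` for `t` uniform in `[-1/2, 1/2]` and `w` with law `π`. -/
noncomputable def lineMeas (π : Measure V) (a v : V) : Measure V :=
  (π.prod (volume.restrict (Icc (-1 / 2 : ℝ) (1 / 2)))).map (fun z => a + z.2 • v + z.1)

theorem measurable_line (a v : V) : Measurable (fun z : V × ℝ => a + z.2 • v + z.1) := by
  fun_prop

theorem lintegral_lineMeas (π : Measure V) (a v : V) {h : V → ℝ≥0∞} (hh : Measurable h) :
    ∫⁻ x, h x ∂lineMeas π a v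
      = ∫⁻ z, h (a + z.2 • v + z.1) ∂(π.prod (volume.restrict (Icc (-1 / 2 : ℝ) (1 / 2)))) :=
  lintegral_map hh (measurable_line a v)

instance lineMeas_prob (π : Measure V) [IsProbabilityMeasure π] (a v : V) :
    IsProbabilityMeasure (lineMeas π a v) :=
  Measure.isProbabilityMeasure_map (measurable_line a v).aemeasurable

theorem lineMeas_le (μ π : Measure V) [μ.IsAddHaarMeasure] [SFinite π] {c : ℝ≥0∞}
    (hπ : π ≤ c • μ) (a v : V) : lineMeas π a v ≤ c • μ := by
  refine Measure.le_iff.2 fun E hE => ?_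
  rw [lineMeas, Measure.map_apply (measurable_line a v) hE,
    Measure.prod_apply_symm (measurable_line a v hE)]
  calc ∫⁻ t in Icc (-1 / 2 : ℝ) (1 / 2),
        π ((fun w => (w, t)) ⁻¹' ((fun z : V × ℝ => a + z.2 • v + z.1) ⁻¹' E))
      ≤ ∫⁻ t in Icc (-1 / 2 : ℝ) (1 / 2), (c • μ) E := by
        refine lintegral_mono fun t => (Measure.le_iff'.1 hπ _).trans (le_of_eq ?_)
        simp only [Measure.smul_apply, smul_eq_mul]
        congr 1
        exact measure_preimage_add μ (a + t • v) E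
    _ = (c • μ) E := by rw [lintegral_const, measure_univ, mul_one]

theorem lineMeas_le_of_time (π : Measure V) [IsProbabilityMeasure π] {E : Set V}
    (hE : MeasurableSet E) {v : V} {lam : ℝ≥0∞}
    (h : ∀ a, volume ((fun t : ℝ => a + t • v) ⁻¹' E ∩ Icc (-1 / 2) (1 / 2)) ≤ lam) (a : V) :
    lineMeas π a v E ≤ lam := by
  rw [lineMeas, Measure.map_apply (measurable_line a v) hE,
    Measure.prod_apply (measurable_line a v hE)]
  calc ∫⁻ w, (volume.restrict (Icc (-1 / 2 : ℝ) (1 / 2)))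
        (Prod.mk w ⁻¹' ((fun z : V × ℝ => a + z.2 • v + z.1) ⁻¹' E)) ∂π
      ≤ ∫⁻ w, lam ∂π := by
        refine lintegral_mono fun w => ?_
        rw [Measure.restrict_apply' measurableSet_Icc]
        refine le_trans (le_of_eq ?_) (h (a + w))
        congr 2
        ext t
        simp only [mem_preimage]
        rw [add_right_comm]
    _ = lam := by rw [lintegral_const, measure_univ, mul_one]

end line

variable {n : ℕ}

theorem measurableSet_tube (e a : EuclideanSpace ℝ (Fin n)) (δ : ℝ) :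
    MeasurableSet (tube e a δ) := by
  have h1 : IsClosed {y : EuclideanSpace ℝ (Fin n) | |inner ℝ (y - a) e| ≤ 1 / 2} :=
    isClosed_le (by fun_prop) continuous_const
  have h2 : IsClosed {y : EuclideanSpace ℝ (Fin n) | ‖(y - a) - (inner ℝ (y - a) e) • e‖ ≤ δ} :=
    isClosed_le (by fun_prop) continuous_const
  exact (h1.inter h2).measurableSet

theorem tube_shift {e a y w : EuclideanSpace ℝ (Fin n)} {δ t : ℝ} (he : ‖e‖ = 1) (hδ : δ < 1)
    (hy : y ∈ tube e a δ) (hw : ‖w‖ ≤ δ / 2) (ht : |t| ≤ 1 / 2) :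
    a + (1 / 3 : ℝ) • (y - (t • e + w) - a) ∈ tube e a δ := by
  have hee : inner ℝ e e = (1 : ℝ) := by rw [real_inner_self_eq_norm_sq, he]; norm_num
  have hwe : |inner ℝ w e| ≤ δ / 2 := by
    have := abs_real_inner_le_norm w e
    rw [he, mul_one] at this
    exact this.trans hw
  have e1 : a + (1 / 3 : ℝ) • (y - (t • e + w) - a) - a
      = (1 / 3 : ℝ) • ((y - a) - t • e - w) := by module
  have e2 : inner ℝ ((1 / 3 : ℝ) • ((y - a) - t • e - w)) e
      = (1 / 3 : ℝ) * (inner ℝ (y - a) e - t - inner ℝ w e) := by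
    rw [real_inner_smul_left, inner_sub_left, inner_sub_left (y - a), real_inner_smul_left, hee,
      mul_one]
  constructor
  · rw [e1, e2, abs_le]
    have h1 := abs_le.1 hy.1
    have h2 := abs_le.1 ht
    have h3 := abs_le.1 hwe
    constructor <;> linarith [h1.1, h1.2, h2.1, h2.2, h3.1, h3.2]
  · rw [e1, e2]
    have e3 : (1 / 3 : ℝ) • ((y - a) - t • e - w)
        - ((1 / 3 : ℝ) * (inner ℝ (y - a) e - t - inner ℝ w e)) • e
        = (1 / 3 : ℝ) • (((y - a) - (inner ℝ (y - a) e) • e) - (w - (inner ℝ w e) • e)) := by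
      module
    rw [e3, norm_smul]
    have h1 := norm_sub_le ((y - a) - (inner ℝ (y - a) e) • e) (w - (inner ℝ w e) • e)
    have h2 := norm_sub_le w ((inner ℝ w e) • e)
    rw [norm_smul, he, mul_one, Real.norm_eq_abs] at h2
    have h3 := hy.2
    have h4 := norm_nonneg w
    rw [Real.norm_eq_abs, abs_of_pos (by norm_num : (0 : ℝ) < 1 / 3)]
    linarith

theorem tube_average_le {δ : ℝ} (hδ : δ < 1) (π : Measure (EuclideanSpace ℝ (Fin n)))
    [IsProbabilityMeasure π] (hπ : ∀ᵐ w ∂π, ‖w‖ ≤ δ / 2) {h : EuclideanSpace ℝ (Fin n) → ℝ≥0∞}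
    (hh : Measurable h) {e : EuclideanSpace ℝ (Fin n)} (he : ‖e‖ = 1) {r : ℝ} (hr : |r| ≤ 1)
    {S : ℝ≥0∞} (hS : ∀ x, ∫⁻ y, h y ∂lineMeas π x (r • e) ≤ S) (a : EuclideanSpace ℝ (Fin n)) :
    (∫⁻ y in tube e a δ, h y) / volume (tube e a δ) ≤ 3 ^ n * S := by
  set T := tube e a δ with hT
  have hTm : MeasurableSet T := measurableSet_tube e a δ
  set T3 : Set (EuclideanSpace ℝ (Fin n)) := (fun y => a + (1 / 3 : ℝ) • (y - a)) ⁻¹' T with hT3
  have hT3m : MeasurableSet T3 := (by fun_prop : Measurable _) hTm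
  have hvol : volume T3 = 3 ^ n * volume T := by
    have : T3 = (fun y => y + -a) ⁻¹' ((fun y => (1 / 3 : ℝ) • y) ⁻¹' ((fun y => a + y) ⁻¹' T)) := by
      ext y; simp [hT3, sub_eq_add_neg]
    rw [this, measure_preimage_add_right, Measure.addHaar_preimage_smul _ (by norm_num),
      measure_preimage_add, finrank_euclideanSpace_fin, abs_of_pos (by positivity), ← inv_pow]
    norm_num [ENNReal.ofReal_pow]
  set P := π.prod (volume.restrict (Icc (-1 / 2 : ℝ) (1 / 2))) with hP
  have hae : ∀ᵐ z ∂P, ‖z.1‖ ≤ δ / 2 ∧ |z.2| ≤ 1 / 2 := by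
    have h1 : ∀ᵐ z ∂P, ‖z.1‖ ≤ δ / 2 := Measure.quasiMeasurePreserving_fst.ae hπ
    have h2 : ∀ᵐ t ∂(volume.restrict (Icc (-1 / 2 : ℝ) (1 / 2))), |t| ≤ 1 / 2 := by
      filter_upwards [ae_restrict_mem measurableSet_Icc] with t ht
      exact abs_le.2 ⟨by linarith [ht.1], ht.2⟩
    have h3 : ∀ᵐ z ∂P, |z.2| ≤ 1 / 2 := Measure.quasiMeasurePreserving_snd.ae h2
    exact h1.and h3
  refine ENNReal.div_le_of_le_mul ?_
  calc ∫⁻ y in T, h y = ∫⁻ z, (∫⁻ y in T, h y) ∂P := by rw [lintegral_const, measure_univ, mul_one]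
    _ ≤ ∫⁻ z, ∫⁻ x, T3.indicator (fun x => h (x + z.2 • r • e + z.1)) x ∂volume ∂P := by
        refine lintegral_mono_ae ?_
        filter_upwards [hae] with z hz
        rw [← lintegral_indicator hTm,
          ← lintegral_add_right_eq_self (fun y => T.indicator h y) (z.2 • r • e + z.1)]
        refine lintegral_mono fun x => ?_
        by_cases hx : x + (z.2 • r • e + z.1) ∈ T
        · have h1 : |z.2 * r| ≤ 1 / 2 := by
            rw [abs_mul]
            nlinarith [hz.2, abs_nonneg z.2, abs_nonneg r]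
          have h2 := tube_shift he hδ hx hz.1 h1
          have h3 : x ∈ T3 := by
            rw [smul_smul, add_sub_cancel_right] at h2
            exact h2
          simp only [indicator_of_mem hx, indicator_of_mem h3, add_assoc, le_refl]
        · simp [indicator_of_notMem hx]
    _ = ∫⁻ x, ∫⁻ z, T3.indicator (fun x => h (x + z.2 • r • e + z.1)) x ∂P ∂volume := by
        refine lintegral_lintegral_swap (Measurable.aemeasurable ?_)
        have h1 : Measurable fun q : (EuclideanSpace ℝ (Fin n) × ℝ) × EuclideanSpace ℝ (Fin n) =>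
          h (q.2 + q.1.2 • r • e + q.1.1) := hh.comp (by fun_prop)
        exact h1.indicator (measurable_snd hT3m)
    _ ≤ ∫⁻ x, T3.indicator (fun _ => S) x := by
        refine lintegral_mono fun x => ?_
        by_cases hx : x ∈ T3
        · simp only [indicator_of_mem hx]
          rw [← lintegral_lineMeas π x (r • e) hh]
          exact hS x
        · simp [indicator_of_notMem hx]
    _ = 3 ^ n * S * volume T := by
        rw [lintegral_indicator_const hT3m, hvol]; ring

theorem sphere_reduce (hn : 1 ≤ n) {δ : ℝ} (hδ : δ < 1) (π : Measure (EuclideanSpace ℝ (Fin n)))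
    [IsProbabilityMeasure π] (hπ : ∀ᵐ w ∂π, ‖w‖ ≤ δ / 2) {f : EuclideanSpace ℝ (Fin n) → ℝ}
    (hf : Measurable f) {G : EuclideanSpace ℝ (Fin n) → ℝ≥0∞} (hG : Measurable G)
    (hfG : ∀ v, ‖v‖ < 1 → ∀ a, (∫⁻ y, ‖f y‖ₑ ∂lineMeas π a v) ^ n ≤ G v) :
    ∃ H : sphere (0 : EuclideanSpace ℝ (Fin n)) 1 → ℝ≥0∞, Measurable H ∧
      (∀ e, kakeyaMax δ f e ^ n ≤ H e) ∧
      ∫⁻ e, H e ∂(volume.toSphere) ≤ n * (3 ^ n) ^ n * ∫⁻ v in ball 0 1, G v := by
  have hn0 : n ≠ 0 := by omega
  set τ := Measure.volumeIoiPow (n - 1) with hτ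
  set one : Ioi (0 : ℝ) := ⟨1, mem_Ioi.2 one_pos⟩ with hone
  set G' : sphere (0 : EuclideanSpace ℝ (Fin n)) 1 × Ioi (0 : ℝ) → ℝ≥0∞ :=
    fun q => (ball 0 1).indicator G ((q.2 : ℝ) • (q.1 : EuclideanSpace ℝ (Fin n))) with hG'
  have hG'm : Measurable G' := (hG.indicator measurableSet_ball).comp (by fun_prop)
  refine ⟨fun e => n * (3 ^ n) ^ n * ∫⁻ r, G' (e, r) ∂τ,
    hG'm.lintegral_prod_right'.const_mul _, fun e => ?_, ?_⟩
  · have he : ‖(e : EuclideanSpace ℝ (Fin n))‖ = 1 := norm_eq_of_mem_sphere e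
    have h1 : ∀ r : Ioi (0 : ℝ), r ∈ Iio one → kakeyaMax δ f e ^ n ≤ (3 ^ n) ^ n * G' (e, r) := by
      intro r hr
      have hr0 : (0 : ℝ) < r := r.2
      have hr1 : (r : ℝ) < 1 := hr
      have hnorm : ‖(r : ℝ) • (e : EuclideanSpace ℝ (Fin n))‖ < 1 := by
        rw [norm_smul, he, mul_one, Real.norm_eq_abs, abs_of_pos hr0]; exact hr1
      have h2 : G' (e, r) = G ((r : ℝ) • (e : EuclideanSpace ℝ (Fin n))) :=
        indicator_of_mem (mem_ball_zero_iff.2 hnorm) _
      rw [h2]
      set S := G ((r : ℝ) • (e : EuclideanSpace ℝ (Fin n))) ^ ((n : ℝ)⁻¹) with hS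
      have hSn : S ^ n = G ((r : ℝ) • (e : EuclideanSpace ℝ (Fin n))) :=
        ENNReal.rpow_inv_natCast_pow hn0 _
      rw [← hSn, ← mul_pow]
      refine pow_le_pow_left' (iSup_le fun a => ?_) n
      refine tube_average_le hδ π hπ hf.enorm he (r := r)
        (by rw [abs_of_pos hr0]; exact hr1.le) (fun x => ?_) a
      have h3 := hfG _ hnorm x
      rw [← hSn] at h3
      exact (ENNReal.pow_le_pow_left_iff hn0).1 h3
    have hτ1 : (n : ℝ≥0∞) * τ (Iio one) = 1 := by
      rw [hτ, Measure.volumeIoiPow_apply_Iio, ← ENNReal.ofReal_natCast,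
        ← ENNReal.ofReal_mul (Nat.cast_nonneg _), Nat.cast_pred (by omega)]
      have : (n : ℝ) ≠ 0 := Nat.cast_ne_zero.2 hn0
      simp [hone, this]
    calc kakeyaMax δ f e ^ n = n * ∫⁻ r in Iio one, kakeyaMax δ f e ^ n ∂τ := by
          rw [setLIntegral_const, mul_left_comm, hτ1, mul_one]
      _ ≤ n * ∫⁻ r in Iio one, (3 ^ n) ^ n * G' (e, r) ∂τ := by
          gcongr 1
          exact setLIntegral_mono' measurableSet_Iio h1
      _ ≤ n * ∫⁻ r, (3 ^ n) ^ n * G' (e, r) ∂τ := by
          gcongr 1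
          exact setLIntegral_le_lintegral _ _
      _ = _ := by
          have hm : Measurable fun r => G' (e, r) := hG'm.comp measurable_prodMk_left
          rw [lintegral_const_mul _ hm, ← mul_assoc]
  · rw [lintegral_const_mul _ hG'm.lintegral_prod_right', ← lintegral_prod _ hG'm.aemeasurable]
    gcongr 1
    have hmp := (volume : Measure (EuclideanSpace ℝ (Fin n))).measurePreserving_homeomorphUnitSphereProd
    rw [finrank_euclideanSpace_fin] at hmp
    rw [← hmp.lintegral_comp hG'm, ← lintegral_indicator measurableSet_ball]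
    calc ∫⁻ x, G' (homeomorphUnitSphereProd (EuclideanSpace ℝ (Fin n)) x) ∂(volume.comap Subtype.val)
        = ∫⁻ x : ({0}ᶜ : Set (EuclideanSpace ℝ (Fin n))),
            (ball 0 1).indicator G (x : EuclideanSpace ℝ (Fin n)) ∂(volume.comap Subtype.val) := by
          refine lintegral_congr fun x => ?_
          have hx : ‖(x : EuclideanSpace ℝ (Fin n))‖ ≠ 0 := norm_ne_zero_iff.2 x.2
          simp only [hG', homeomorphUnitSphereProd_apply_fst_coe,
            homeomorphUnitSphereProd_apply_snd_coe, smul_smul, mul_inv_cancel₀ hx, one_smul]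
      _ = ∫⁻ x in {0}ᶜ, (ball 0 1).indicator G x :=
          lintegral_subtype_comap (measurableSet_singleton _).compl _
      _ ≤ _ := setLIntegral_le_lintegral _ _

end Pool.Agent.MP_5168f5_an.H20
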